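import Pool.Agent.H57.AL.Q91_TE_Gen

set_option autoImplicit false
set_option linter.unusedSectionVars false

/-! Traces of powers, over a group and over its product with the integers. -/

namespace Pool.Agent.Q91.TE

open Pool.Agent.W649.ZL Filter Topology
open scoped InnerProductSpace InnerProduct ENNReal

universe u v w z

section hilbert

variable {H₁ H₂ : Type*} [NormedAddCommGroup H₁] [InnerProductSpace ℂ H₁] [CompleteSpace H₁]
  [NormedAddCommGroup H₂] [InnerProductSpace ℂ H₂] [CompleteSpace H₂]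

/-- `1 - c S* S` -/
noncomputable def contrOp (S : H₁ →L[ℂ] H₂) (c : ℝ) : H₁ →L[ℂ] H₁ :=
  1 - (c : ℂ) • ((ContinuousLinearMap.adjoint S).comp S)

theorem contrOp_apply (S : H₁ →L[ℂ] H₂) (c : ℝ) (x : H₁) :
    contrOp S c x = x - (c : ℂ) • (ContinuousLinearMap.adjoint S (S x)) := rfl

theorem contrOp_norm (S : H₁ →L[ℂ] H₂) (c : ℝ) (hc : 0 ≤ c) (hc2 : c * ‖S‖ ^ 2 ≤ 1) :
    ‖contrOp S c‖ ≤ 1 := by
  refine ContinuousLinearMap.opNorm_le_bound _ zero_le_one fun x => ?_
  rw [one_mul]
  apply le_of_sq_le_sq _ (norm_nonneg _)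
  rw [contrOp_apply, @norm_sub_sq ℂ]
  set y := ContinuousLinearMap.adjoint S (S x) with hy
  have h2 : RCLike.re ⟪x, (c : ℂ) • y⟫_ℂ = c * ‖S x‖ ^ 2 := by
    rw [inner_smul_right, hy, ContinuousLinearMap.adjoint_inner_right,
      inner_self_eq_norm_sq_to_K]
    have : (c : ℂ) * ((‖S x‖ : ℂ)) ^ 2 = ((c * ‖S x‖ ^ 2 : ℝ) : ℂ) := by push_cast; ring
    erw [this]
    simp only [RCLike.re_to_complex, Complex.ofReal_re]
  rw [h2, norm_smul, Complex.norm_real, Real.norm_of_nonneg hc]
  have h3 : ‖y‖ ≤ ‖S‖ * ‖S x‖ := by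
    rw [hy]
    refine (ContinuousLinearMap.le_opNorm _ _).trans ?_
    rw [LinearIsometryEquiv.norm_map]
  have h4 : (c * ‖y‖) ^ 2 ≤ c * ‖S x‖ ^ 2 := by
    have h5 : ‖y‖ ^ 2 ≤ ‖S‖ ^ 2 * ‖S x‖ ^ 2 := by
      rw [← mul_pow]
      exact pow_le_pow_left₀ (norm_nonneg _) h3 2
    calc (c * ‖y‖) ^ 2 = c * (c * ‖y‖ ^ 2) := by ring
      _ ≤ c * (c * (‖S‖ ^ 2 * ‖S x‖ ^ 2)) := by gcongr
      _ = c * ((c * ‖S‖ ^ 2) * ‖S x‖ ^ 2) := by ring
      _ ≤ c * (1 * ‖S x‖ ^ 2) := by gcongr
      _ = c * ‖S x‖ ^ 2 := by ring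
  nlinarith [sq_nonneg ‖S x‖, mul_nonneg hc (sq_nonneg ‖S x‖)]

theorem contrOp_fix (S : H₁ →L[ℂ] H₂) (c : ℝ) (hc : c ≠ 0) (x : H₁) :
    contrOp S c x = x ↔ S x = 0 := by
  rw [contrOp_apply, sub_eq_self, smul_eq_zero, or_iff_right (by exact_mod_cast hc)]
  constructor
  · intro h
    have h1 : ⟪x, ContinuousLinearMap.adjoint S (S x)⟫_ℂ = 0 := by rw [h, inner_zero_right]
    rw [ContinuousLinearMap.adjoint_inner_right] at h1
    exact inner_self_eq_zero.1 h1
  · intro h
    rw [h, map_zero]

/-- mean ergodic theorem -/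
theorem ergH (C : H₁ →L[ℂ] H₁) (hC : ‖C‖ ≤ 1) (V : Submodule ℂ H₁)
    [V.HasOrthogonalProjection] (hV : ∀ x, x ∈ V ↔ C x = x) (v : H₁) :
    Tendsto (fun N : ℕ => (N : ℂ)⁻¹ * ∑ n ∈ Finset.range N, ⟪v, (C ^ n) v⟫_ℂ) atTop
      (𝓝 ((‖V.starProjection v‖ ^ 2 : ℝ) : ℂ)) := by
  have h := ContinuousLinearMap.tendsto_birkhoffAverage_orthogonalProjection C hC v
  have h3 : Tendsto (fun N : ℕ => ⟪v, birkhoffAverage ℂ C _root_.id N v⟫_ℂ) atTop
      (𝓝 ⟪v, ((C.eqLocus (1 : H₁ →L[ℂ] H₁)).orthogonalProjectionOnto v : H₁)⟫_ℂ) :=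
    ((innerSL ℂ v).continuous.tendsto _).comp h
  have hVeq : V = C.eqLocus (1 : H₁ →L[ℂ] H₁) := by
    ext x
    rw [hV]
    rfl
  have h4 : ⟪v, ((C.eqLocus (1 : H₁ →L[ℂ] H₁)).orthogonalProjectionOnto v : H₁)⟫_ℂ
      = ((‖V.starProjection v‖ ^ 2 : ℝ) : ℂ) := by
    subst hVeq
    set V := C.eqLocus (1 : H₁ →L[ℂ] H₁)
    have h1 : ⟪v - V.starProjection v, V.starProjection v⟫_ℂ = 0 :=
      Submodule.starProjection_inner_eq_zero v _ (Submodule.starProjection_apply_mem V v)
    rw [inner_sub_left, sub_eq_zero] at h1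
    have h2 : ⟪v, V.starProjection v⟫_ℂ = ((‖V.starProjection v‖ ^ 2 : ℝ) : ℂ) := by
      rw [h1, inner_self_eq_norm_sq_to_K]
      norm_cast
    exact h2
  rw [h4] at h3
  refine h3.congr fun N => ?_
  rw [birkhoffAverage, inner_smul_right, birkhoffSum, inner_sum]
  congr 1
  refine Finset.sum_congr rfl fun n _ => ?_
  simp only [_root_.id]
  congr 1
  rw [← FunLike.coe_pow_eq_iterate]

end hilbert

section
variable {G : Type u} [Group G] {K : Type v} {L : Type w} {ι : Type z} [Fintype K] [Fintype L]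
  [DecidableEq K] [DecidableEq L] [Fintype ι]

/-- finitely supported vectors -/
noncomputable def toE : ((G × K) →₀ ℂ) →ₗ[ℂ] EE G K :=
  Finsupp.linearCombination ℂ (fun x => (dl x : EE G K))

theorem toE_single (x : G × K) (c : ℂ) : toE (Finsupp.single x c) = c • (dl x : EE G K) := by
  unfold toE
  rw [Finsupp.linearCombination_single]

theorem toE_apply (v : (G × K) →₀ ℂ) (x : G × K) : toE v x = v x := by
  induction v using Finsupp.induction_linear with
  | zero => rw [map_zero]; rfl
  | add f g hf hg =>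
    rw [map_add, Finsupp.add_apply, ← hf, ← hg]
    rfl
  | single y c =>
    rw [toE_single]
    change c • (dl y : EE G K) x = _
    by_cases h : x = y
    · subst h
      rw [dl_apply_self, Finsupp.single_eq_same, smul_eq_mul, mul_one]
    · rw [dl_apply_ne _ _ h, Finsupp.single_eq_of_ne h, smul_zero]

theorem elem_dl (t : G) (i : L) (j : K) (x : G × K) :
    elem t i j (dl x) = if x.2 = j then (dl (t * x.1, i) : EE G L) else 0 := by
  ext ⟨y, i'⟩
  rw [elem_apply]
  obtain ⟨x, j'⟩ := x
  by_cases hj : j' = j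
  · subst hj
    rw [if_pos rfl]
    by_cases hi : i' = i
    · subst hi
      rw [if_pos rfl]
      by_cases hy : y = t * x
      · subst hy
        have : ((t⁻¹ * (t * x), j') : G × K) = (x, j') := by rw [inv_mul_cancel_left]
        change (dl (x, j') : EE G K) (t⁻¹ * (t * x), j') = _
        rw [this, dl_apply_self, dl_apply_self]
      · rw [dl_apply_ne, dl_apply_ne]
        · intro h; exact hy (Prod.mk.inj h).1
        · intro h
          apply hy
          rw [← (Prod.mk.inj h).1, mul_inv_cancel_left]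
    · rw [if_neg hi, dl_apply_ne]
      intro h; exact hi (Prod.mk.inj h).2
  · rw [if_neg hj]
    change (if i' = i then _ else _) = (0 : ℂ)
    split_ifs
    · rw [dl_apply_ne]
      intro h; exact hj (Prod.mk.inj h).2.symm
    · rfl

theorem elem_adjoint (t : G) (i : L) (j : K) :
    ContinuousLinearMap.adjoint (elem t i j : EE G K →L[ℂ] EE G L) = elem t⁻¹ j i := by
  ext1 g
  ext ⟨x, j'⟩
  rw [← inner_dl_left (x, j'), ContinuousLinearMap.adjoint_inner_right, elem_dl, elem_apply,
    inv_inv]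
  by_cases hj : j' = j
  · rw [if_pos hj, if_pos hj, inner_dl_left]
  · rw [if_neg hj, if_neg hj, inner_zero_left]

theorem famR_adjoint (h : ι → G) (k : ι → K) (j : ι → L) (a : ι → ℂ) :
    ContinuousLinearMap.adjoint (lin (famR h k j) a)
      = lin (fun i => (elem (h i) (k i) (j i) : EE G L →L[ℂ] EE G K))
        (fun i => (starRingEnd ℂ) (a i)) := by
  unfold lin famR
  rw [map_sum]
  refine Finset.sum_congr rfl fun i _ => ?_
  rw [map_smulₛₗ, elem_adjoint, inv_inv]

theorem norm_elem_le (t : G) (i : L) (j : K) : ‖(elem t i j : EE G K →L[ℂ] EE G L)‖ ≤ 1 :=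
  LinearMap.mkContinuous_norm_le _ zero_le_one _

theorem norm_lin_le (h : ι → G) (k : ι → K) (j : ι → L) (a : ι → ℂ) :
    ‖lin (famR h k j) a‖ ≤ ∑ i, ‖a i‖ := by
  unfold lin
  refine (norm_sum_le _ _).trans (Finset.sum_le_sum fun i _ => ?_)
  rw [norm_smul]
  calc ‖a i‖ * ‖famR h k j i‖ ≤ ‖a i‖ * 1 := by
        gcongr; exact norm_elem_le _ _ _
    _ = ‖a i‖ := mul_one _

/-- the operator on finitely supported vectors -/
noncomputable def T0 (h : ι → G) (k : ι → K) (j : ι → L) (a : ι → ℂ) :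
    ((G × K) →₀ ℂ) →ₗ[ℂ] ((G × L) →₀ ℂ) :=
  Finsupp.linearCombination ℂ fun x =>
    ∑ i, if x.2 = k i then Finsupp.single ((h i)⁻¹ * x.1, j i) (a i) else 0

/-- its adjoint -/
noncomputable def S0 (h : ι → G) (k : ι → K) (j : ι → L) (b : ι → ℂ) :
    ((G × L) →₀ ℂ) →ₗ[ℂ] ((G × K) →₀ ℂ) :=
  Finsupp.linearCombination ℂ fun x =>
    ∑ i, if x.2 = j i then Finsupp.single (h i * x.1, k i) (b i) else 0

/-- the contraction on finitely supported vectors -/
noncomputable def C0 (h : ι → G) (k : ι → K) (j : ι → L) (a : ι → ℂ) (c : ℝ) :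
    ((G × K) →₀ ℂ) →ₗ[ℂ] ((G × K) →₀ ℂ) :=
  LinearMap.id - (c : ℂ) • (S0 h k j (fun i => (starRingEnd ℂ) (a i))).comp (T0 h k j a)

theorem toE_T0 (h : ι → G) (k : ι → K) (j : ι → L) (a : ι → ℂ) (v : (G × K) →₀ ℂ) :
    toE (T0 h k j a v) = lin (famR h k j) a (toE v) := by
  induction v using Finsupp.induction_linear with
  | zero => simp only [map_zero]
  | add f g hf hg => simp only [map_add, hf, hg]
  | single x c =>
    rw [toE_single, map_smul, T0, Finsupp.linearCombination_single, map_smul, map_sum, lin_apply]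
    congr 1
    refine Finset.sum_congr rfl fun i _ => ?_
    unfold famR
    rw [elem_dl]
    split_ifs
    · rw [toE_single]
    · rw [map_zero, smul_zero]

theorem toE_S0 (h : ι → G) (k : ι → K) (j : ι → L) (b : ι → ℂ) (v : (G × L) →₀ ℂ) :
    toE (S0 h k j b v) = lin (fun i => (elem (h i) (k i) (j i) : EE G L →L[ℂ] EE G K)) b
      (toE v) := by
  induction v using Finsupp.induction_linear with
  | zero => simp only [map_zero]
  | add f g hf hg => simp only [map_add, hf, hg]
  | single x c =>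
    rw [toE_single, map_smul, S0, Finsupp.linearCombination_single, map_smul, map_sum, lin_apply]
    congr 1
    refine Finset.sum_congr rfl fun i _ => ?_
    rw [elem_dl]
    split_ifs
    · rw [toE_single]
    · rw [map_zero, smul_zero]

theorem toE_C0 (h : ι → G) (k : ι → K) (j : ι → L) (a : ι → ℂ) (c : ℝ) (v : (G × K) →₀ ℂ) :
    toE (C0 h k j a c v) = contrOp (lin (famR h k j) a) c (toE v) := by
  rw [contrOp_apply, famR_adjoint, ← toE_T0, ← toE_S0, ← map_smul, ← map_sub]
  rfl

theorem toE_C0_pow (h : ι → G) (k : ι → K) (j : ι → L) (a : ι → ℂ) (c : ℝ) (n : ℕ)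
    (v : (G × K) →₀ ℂ) :
    toE ((C0 h k j a c ^ n) v) = (contrOp (lin (famR h k j) a) c ^ n) (toE v) := by
  induction n with
  | zero => rfl
  | succ n ih =>
    rw [pow_succ', pow_succ']
    change toE (C0 h k j a c ((C0 h k j a c ^ n) v))
      = contrOp (lin (famR h k j) a) c ((contrOp (lin (famR h k j) a) c ^ n) (toE v))
    rw [toE_C0, ih]

/-- the kernel dimension as a limit of averages of traces of powers -/
theorem trace_lim (h : ι → G) (k : ι → K) (j : ι → L) (a : ι → ℂ) (c : ℝ) (hc : 0 < c)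
    (hc2 : c * (∑ i, ‖a i‖) ^ 2 ≤ 1) :
    Tendsto (fun N : ℕ => (N : ℂ)⁻¹ * ∑ n ∈ Finset.range N, ∑ k' : K,
        ((C0 h k j a c ^ n) (Finsupp.single ((1 : G), k') 1)) (1, k')) atTop
      (𝓝 ((kd (famR h k j) a : ℝ) : ℂ)) := by
  set T := lin (famR h k j) a with hT
  have hc3 : c * ‖T‖ ^ 2 ≤ 1 := by
    refine le_trans ?_ hc2
    have := norm_lin_le h k j a
    gcongr
  let V : Submodule ℂ (EE G K) := LinearMap.ker (T : EE G K →ₗ[ℂ] EE G L)
  have hVc : IsClosed (V : Set (EE G K)) := T.isClosed_ker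
  have hVcs : CompleteSpace V := hVc.completeSpace_coe
  have h1 : ∀ k' : K, Tendsto (fun N : ℕ => (N : ℂ)⁻¹ * ∑ n ∈ Finset.range N,
      ((C0 h k j a c ^ n) (Finsupp.single ((1 : G), k') 1)) (1, k')) atTop
      (𝓝 ((‖V.starProjection (dl ((1 : G), k'))‖ ^ 2 : ℝ) : ℂ)) := by
    intro k'
    have h2 := ergH (contrOp T c) (contrOp_norm T c hc.le hc3) V
      (fun x => (contrOp_fix T c hc.ne' x).symm) (dl ((1 : G), k'))
    refine h2.congr fun N => ?_
    congr 1
    refine Finset.sum_congr rfl fun n _ => ?_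
    rw [inner_dl_left, ← toE_apply, toE_C0_pow, toE_single, one_smul]
  have h3 : kd (famR h k j) a = ∑ k' : K, ‖V.starProjection (dl ((1 : G), k'))‖ ^ 2 := by
    unfold kd
    exact vd_eq V V (topcl_eq hVc)
  rw [h3]
  push_cast
  have h4 := tendsto_finsetSum (Finset.univ : Finset K) fun k' _ => h1 k'
  push_cast at h4
  refine h4.congr fun N => ?_
  rw [← Finset.mul_sum, Finset.sum_comm]

/-- each trace of a power is bounded by the size of the matrix -/
theorem trace_bound (h : ι → G) (k : ι → K) (j : ι → L) (a : ι → ℂ) (c : ℝ) (hc : 0 < c)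
    (hc2 : c * (∑ i, ‖a i‖) ^ 2 ≤ 1) (n : ℕ) :
    ‖∑ k' : K, ((C0 h k j a c ^ n) (Finsupp.single ((1 : G), k') 1)) (1, k')‖
      ≤ Fintype.card K := by
  set T := lin (famR h k j) a with hT
  have hc3 : c * ‖T‖ ^ 2 ≤ 1 := by
    refine le_trans ?_ hc2
    have := norm_lin_le h k j a
    gcongr
  have hn : ∀ (n : ℕ) (x : EE G K), ‖(contrOp T c ^ n) x‖ ≤ ‖x‖ := by
    intro n
    induction n with
    | zero => intro x; exact le_refl _
    | succ n ih =>
      intro x
      rw [pow_succ]
      change ‖(contrOp T c ^ n) (contrOp T c x)‖ ≤ ‖x‖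
      refine (ih _).trans ((ContinuousLinearMap.le_opNorm _ _).trans ?_)
      calc ‖contrOp T c‖ * ‖x‖ ≤ 1 * ‖x‖ := by
            gcongr; exact contrOp_norm T c hc.le hc3
        _ = ‖x‖ := one_mul _
  refine (norm_sum_le _ _).trans ?_
  have h1 : ∀ k' ∈ (Finset.univ : Finset K),
      ‖((C0 h k j a c ^ n) (Finsupp.single ((1 : G), k') 1)) (1, k')‖ ≤ 1 := by
    intro k' _
    rw [← toE_apply, toE_C0_pow, toE_single, one_smul, ← inner_dl_left]
    refine (norm_inner_le_norm _ _).trans ?_
    rw [norm_dl, one_mul]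
    refine (hn n _).trans ?_
    rw [norm_dl]
  refine (Finset.sum_le_sum h1).trans ?_
  simp

end

/-! ### The product with the integers -/

section
variable {G : Type u} [Group G] {K : Type v} {L : Type w} {ι : Type z} [Fintype K] [Fintype L]
  [DecidableEq K] [DecidableEq L] [Fintype ι]

/-- evaluation of finitely supported vectors -/
noncomputable def push (G : Type u) [Group G] (K : Type v) (y : ℂ) :
    (((G × Multiplicative ℤ) × K) →₀ ℂ) →ₗ[ℂ] ((G × K) →₀ ℂ) :=
  Finsupp.linearCombination ℂ fun x =>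
    Finsupp.single (x.1.1, x.2) (y ^ (-(Multiplicative.toAdd x.1.2)))

theorem push_single (y : ℂ) (x : (G × Multiplicative ℤ) × K) (c : ℂ) :
    push G K y (Finsupp.single x c)
      = Finsupp.single (x.1.1, x.2) (c * y ^ (-(Multiplicative.toAdd x.1.2))) := by
  unfold push
  rw [Finsupp.linearCombination_single, Finsupp.smul_single, smul_eq_mul]

/-- the elements of the product group -/
def pr (h : ι → G) (e : ι → ℤ) : ι → G × Multiplicative ℤ := fun i => (h i, Multiplicative.ofAdd (e i))

theorem push_T0 (h : ι → G) (e : ι → ℤ) (k : ι → K) (j : ι → L) (a : ι → ℂ) (y : ℂ) (hy : y ≠ 0)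
    (v : ((G × Multiplicative ℤ) × K) →₀ ℂ) :
    push G L y (T0 (pr h e) k j a v) = T0 h k j (evC a e y) (push G K y v) := by
  induction v using Finsupp.induction_linear with
  | zero => simp only [map_zero]
  | add f g hf hg => simp only [map_add, hf, hg]
  | single x c =>
    rw [push_single, T0, Finsupp.linearCombination_single, T0, Finsupp.linearCombination_single,
      map_smul, map_sum, Finset.smul_sum, Finset.smul_sum]
    refine Finset.sum_congr rfl fun i _ => ?_
    change c • push G L y (if x.2 = k i then _ else 0) = _ • (if x.2 = k i then _ else 0)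
    split_ifs with hi
    · rw [push_single, Finsupp.smul_single, Finsupp.smul_single]
      change Finsupp.single ((h i)⁻¹ * x.1.1, j i) (c • (a i *
        y ^ (-(-(e i) + Multiplicative.toAdd x.1.2)))) = Finsupp.single ((h i)⁻¹ * x.1.1, j i)
        ((c * y ^ (-(Multiplicative.toAdd x.1.2))) • (a i * y ^ e i))
      congr 1
      rw [neg_add, neg_neg, zpow_add₀ hy, smul_eq_mul, smul_eq_mul]
      ring
    · rw [map_zero, smul_zero, smul_zero]

theorem push_S0 (h : ι → G) (e : ι → ℤ) (k : ι → K) (j : ι → L) (b : ι → ℂ) (y : ℂ) (hy : y ≠ 0)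
    (v : ((G × Multiplicative ℤ) × L) →₀ ℂ) :
    push G K y (S0 (pr h e) k j b v)
      = S0 h k j (fun i => b i * y ^ (-(e i))) (push G L y v) := by
  induction v using Finsupp.induction_linear with
  | zero => simp only [map_zero]
  | add f g hf hg => simp only [map_add, hf, hg]
  | single x c =>
    rw [push_single, S0, Finsupp.linearCombination_single, S0, Finsupp.linearCombination_single,
      map_smul, map_sum, Finset.smul_sum, Finset.smul_sum]
    refine Finset.sum_congr rfl fun i _ => ?_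
    change c • push G K y (if x.2 = j i then _ else 0) = _ • (if x.2 = j i then _ else 0)
    split_ifs with hi
    · rw [push_single, Finsupp.smul_single, Finsupp.smul_single]
      change Finsupp.single (h i * x.1.1, k i) (c • (b i *
        y ^ (-(e i + Multiplicative.toAdd x.1.2)))) = Finsupp.single (h i * x.1.1, k i)
        ((c * y ^ (-(Multiplicative.toAdd x.1.2))) • (b i * y ^ (-(e i))))
      congr 1
      rw [neg_add, zpow_add₀ hy, smul_eq_mul, smul_eq_mul]
      ring
    · rw [map_zero, smul_zero, smul_zero]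

theorem push_C0 (h : ι → G) (e : ι → ℤ) (k : ι → K) (j : ι → L) (a : ι → ℂ) (c : ℝ) (y : ℂ)
    (hy : ‖y‖ = 1) (v : ((G × Multiplicative ℤ) × K) →₀ ℂ) :
    push G K y (C0 (pr h e) k j a c v) = C0 h k j (evC a e y) c (push G K y v) := by
  have hy0 : y ≠ 0 := by
    intro h0; rw [h0, norm_zero] at hy; exact zero_ne_one hy
  have hconj : (starRingEnd ℂ) y = y⁻¹ := by
    rw [Complex.inv_def, Complex.normSq_eq_norm_sq, hy]
    simp
  have h1 : (fun i => (starRingEnd ℂ) (evC a e y i))
      = fun i => (starRingEnd ℂ) (a i) * y ^ (-(e i)) := by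
    funext i
    unfold evC
    rw [map_mul, map_zpow₀, hconj, inv_zpow, zpow_neg]
  unfold C0
  rw [h1]
  simp only [LinearMap.sub_apply, LinearMap.id_apply, LinearMap.smul_apply, LinearMap.comp_apply,
    map_sub, map_smul]
  rw [push_S0 h e k j _ y hy0, push_T0 h e k j a y hy0]

theorem push_C0_pow (h : ι → G) (e : ι → ℤ) (k : ι → K) (j : ι → L) (a : ι → ℂ) (c : ℝ) (y : ℂ)
    (hy : ‖y‖ = 1) (n : ℕ) (v : ((G × Multiplicative ℤ) × K) →₀ ℂ) :
    push G K y ((C0 (pr h e) k j a c ^ n) v) = (C0 h k j (evC a e y) c ^ n) (push G K y v) := by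
  induction n with
  | zero => rfl
  | succ n ih =>
    rw [pow_succ', pow_succ']
    change push G K y (C0 (pr h e) k j a c ((C0 (pr h e) k j a c ^ n) v))
      = C0 h k j (evC a e y) c ((C0 h k j (evC a e y) c ^ n) (push G K y v))
    rw [push_C0 h e k j a c y hy, ih]

/-- the point of the unit circle -/
noncomputable def cz (θ : ℝ) : ℂ := circleMap 0 1 θ

theorem norm_cz (θ : ℝ) : ‖cz θ‖ = 1 := by
  unfold cz
  simp

theorem cz_ne (θ : ℝ) : cz θ ≠ 0 := by
  intro h
  have := norm_cz θ
  rw [h, norm_zero] at this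
  exact zero_ne_one this

theorem continuous_cz : Continuous cz := continuous_circleMap 0 1

theorem cont_push (v : ((G × Multiplicative ℤ) × K) →₀ ℂ) (x : G × K) :
    Continuous fun θ : ℝ => push G K (cz θ) v x := by
  classical
  induction v using Finsupp.induction_linear with
  | zero => simp only [map_zero]; exact continuous_const
  | add f g hf hg =>
    simp only [map_add, Finsupp.add_apply]
    exact hf.add hg
  | single y c =>
    simp only [push_single, Finsupp.single_apply]
    split_ifs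
    · exact continuous_const.mul (continuous_cz.zpow₀ _ fun θ => Or.inl (cz_ne θ))
    · exact continuous_const

theorem int_zpow (n : ℤ) : ∫ θ in (0 : ℝ)..(2 * Real.pi), (cz θ) ^ n
    = if n = 0 then (2 * Real.pi : ℂ) else 0 := by
  split_ifs with hn
  · subst hn
    simp only [zpow_zero, intervalIntegral.integral_const, sub_zero]
    rw [Complex.real_smul]
    push_cast
    ring
  · have h1 : ∀ θ : ℝ, (cz θ) ^ n = Complex.exp (((n : ℂ) * Complex.I) * θ) := by
      intro θ
      unfold cz circleMap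
      rw [zero_add, Complex.ofReal_one, one_mul, ← Complex.exp_int_mul]
      congr 1
      ring
    simp only [h1]
    have hne : ((n : ℂ) * Complex.I) ≠ 0 :=
      mul_ne_zero (by exact_mod_cast hn) Complex.I_ne_zero
    rw [integral_exp_mul_complex hne]
    have h2 : Complex.exp ((n : ℂ) * Complex.I * ((2 * Real.pi : ℝ) : ℂ)) = 1 := by
      rw [Complex.exp_eq_one_iff]
      exact ⟨n, by push_cast; ring⟩
    rw [h2]
    simp

theorem int_push (v : ((G × Multiplicative ℤ) × K) →₀ ℂ) (x : G × K) :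
    ∫ θ in (0 : ℝ)..(2 * Real.pi), push G K (cz θ) v x = 2 * Real.pi * v ((x.1, 1), x.2) := by
  classical
  induction v using Finsupp.induction_linear with
  | zero => simp
  | add f g hf hg =>
    simp only [map_add, Finsupp.add_apply]
    rw [intervalIntegral.integral_add ((cont_push f x).intervalIntegrable _ _)
      ((cont_push g x).intervalIntegrable _ _), hf, hg]
    ring
  | single y c =>
    simp only [push_single, Finsupp.single_apply]
    by_cases hx : (y.1.1, y.2) = x
    · simp only [if_pos hx]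
      rw [intervalIntegral.integral_const_mul, int_zpow]
      by_cases hn : -(Multiplicative.toAdd y.1.2) = 0
      · rw [if_pos hn]
        have h2 : y.1.2 = 1 := by
          have := neg_eq_zero.1 hn
          exact Multiplicative.toAdd.injective this
        rw [if_pos]
        · ring
        · rw [← hx, ← h2]
      · rw [if_neg hn, if_neg]
        · ring
        · intro h3
          apply hn
          rw [h3]
          rfl
    · simp only [if_neg hx]
      rw [if_neg]
      · simp
      · intro h3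
        apply hx
        rw [h3]

end

end Pool.Agent.Q91.TE
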