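import Pool.Agent.H57.AL.Q102_TT_Two
import Pool.Agent.H57.AL.Q91_TE_Trc

set_option autoImplicit false
set_option linter.unusedSectionVars false

/-! Adjoint matrices: at most two terms in each row. -/

namespace Pool.Agent.Q102.TT

open Pool.Agent.W649.ZL TH57.Thr.Ati Matrix

variable {G : Type} [Group G]

/-- the adjoint of an element -/
noncomputable def cstar (x : MonoidAlgebra ℂ G) : MonoidAlgebra ℂ G :=
  MonoidAlgebra.ofCoeff ((Finsupp.equivMapDomain (Equiv.inv G) x.coeff).mapRange
    (starRingEnd ℂ) (map_zero _))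

theorem cstar_coeff (x : MonoidAlgebra ℂ G) (g : G) :
    (cstar x).coeff g = starRingEnd ℂ (x.coeff g⁻¹) := rfl

theorem mem_cstar (x : MonoidAlgebra ℂ G) (g : G) :
    g ∈ (cstar x).coeff.support ↔ g⁻¹ ∈ x.coeff.support := by
  rw [Finsupp.mem_support_iff, Finsupp.mem_support_iff, cstar_coeff]
  exact not_congr (map_eq_zero _)

theorem nt_cstar (x : MonoidAlgebra ℂ G) : nt (cstar x) = nt x := by
  classical
  unfold nt
  refine Finset.card_nbij' (fun h => h⁻¹) (fun h => h⁻¹) ?_ ?_ ?_ ?_
  · intro h hh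
    exact (mem_cstar x h).1 hh
  · intro h hh
    refine (mem_cstar x _).2 ?_
    rw [inv_inv]
    exact hh
  · intro h _
    exact inv_inv h
  · intro h _
    exact inv_inv h

variable {K L : Type} [Fintype K] [Fintype L] [DecidableEq K] [DecidableEq L]

/-- the adjoint matrix -/
noncomputable def adj (A : Matrix K L (MonoidAlgebra ℂ G)) : Matrix L K (MonoidAlgebra ℂ G) :=
  fun j k => cstar (A k j)

theorem Rop_adj (A : Matrix K L (MonoidAlgebra ℂ G)) :
    ContinuousLinearMap.adjoint (Rop A) = Rop (adj A) := by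
  unfold Rop
  simp only [map_sum, map_smulₛₗ, Pool.Agent.Q91.TE.elem_adjoint]
  rw [Finset.sum_comm]
  refine Finset.sum_congr rfl fun j _ => Finset.sum_congr rfl fun k _ => ?_
  refine Finset.sum_nbij' (fun h => h⁻¹) (fun h => h⁻¹) ?_ ?_ ?_ ?_ ?_
  · intro h hh
    change h⁻¹ ∈ (cstar (A k j)).coeff.support
    rw [mem_cstar, inv_inv]
    exact hh
  · intro h hh
    exact (mem_cstar _ _).1 hh
  · intro h _
    exact inv_inv h
  · intro h _
    exact inv_inv h
  · intro h _
    change _ = (cstar (A k j)).coeff h⁻¹ • _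
    rw [cstar_coeff, inv_inv]

theorem kap_adj (A : Matrix K L (MonoidAlgebra ℂ G)) :
    kap A = Fintype.card K - Fintype.card L + kap (adj A) := by
  have h1 := ker_add_range (Rop A) (Rop_eqv A)
  have h2 := ker_add_range (Rop (adj A)) (Rop_eqv (adj A))
  have h3 := vd_range_adjoint (Rop A) (Rop_eqv A)
  rw [Rop_adj] at h3
  unfold kap
  linarith

open Classical in
/-- **Two terms in each column, or in each row.** -/
theorem kap_two (htf : ∀ g : G, ∀ n : ℕ, 0 < n → g ^ n = 1 → g = 1)
    (A : Matrix K L (MonoidAlgebra ℂ G))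
    (h : (∀ j, ∑ i, nt (A i j) ≤ 2) ∨ ∀ i, ∑ j, nt (A i j) ≤ 2) : ∃ d : ℤ, kap A = d := by
  rcases h with h | h
  · exact kap_cols htf _ A h le_rfl
  · obtain ⟨d, hd⟩ := kap_cols htf _ (adj A) (fun i => by
      have : ∀ j, nt (adj A j i) = nt (A i j) := fun j => nt_cstar _
      rw [Finset.sum_congr rfl fun j _ => this j]
      exact h i) le_rfl
    refine ⟨Fintype.card K - Fintype.card L + d, ?_⟩
    rw [kap_adj, hd]
    push_cast
    ring

end Pool.Agent.Q102.TT
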