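import Pool.Agent.H57.AL.TH57_Thr_Ati2

set_option autoImplicit false
set_option linter.style.haveILetI false
set_option linter.unusedSectionVars false

/-! The kernel dimension in the form of the problem, and the reduction to small norm. -/

namespace TH57.Thr.Ati

open Pool.Agent.W649.ZL Matrix

variable {G : Type} [Group G]

open Classical in
/-- The von Neumann dimension of the kernel of right multiplication by the matrix `A` over the
rational group ring on `ℓ²(G)^m`: the sum over `i` of `1 - dist(δ_(i,1), kernel)²`. -/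
noncomputable def kerDim {m n : ℕ} (A : Matrix (Fin m) (Fin n) (G →₀ ℚ)) : ℝ :=
  ∑ i : Fin m,
    (1 - Metric.infDist
      (lp.single (E := fun _ : Fin m × G => ℂ) 2 (i, (1 : G)) (1 : ℂ))
      {x : lp (fun _ : Fin m × G => ℂ) 2 |
        ∀ (j : Fin n) (g : G),
          ∑ k : Fin m, ∑ h ∈ (A k j).support,
            x (k, g * h⁻¹) * (((A k j h : ℚ)) : ℂ) = 0} ^ 2)

/-- an integer matrix as a rational matrix -/
noncomputable def toQ {m n : ℕ} (A : Matrix (Fin m) (Fin n) (MonoidAlgebra ℤ G)) :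
    Matrix (Fin m) (Fin n) (G →₀ ℚ) :=
  fun i j => (A i j).coeff.mapRange (fun z : ℤ => (z : ℚ)) Int.cast_zero

/-- complexification of a rational matrix -/
noncomputable def qC {m n : ℕ} (A : Matrix (Fin m) (Fin n) (G →₀ ℚ)) :
    Matrix (Fin m) (Fin n) (MonoidAlgebra ℂ G) :=
  fun i j => MonoidAlgebra.ofCoeff ((A i j).mapRange (fun z : ℚ => (z : ℂ)) Rat.cast_zero)

theorem qC_coeff {m n : ℕ} (A : Matrix (Fin m) (Fin n) (G →₀ ℚ)) (i j h) :
    (qC A i j).coeff h = ((A i j h : ℚ) : ℂ) := rfl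

theorem kerDim_eq {m n : ℕ} (A : Matrix (Fin m) (Fin n) (G →₀ ℚ)) : kerDim A = kap (qC A) := by
  classical
  rw [← kerC_dim]
  unfold kerDim
  have h1 : {x : lp (fun _ : Fin m × G => ℂ) 2 | ∀ (j : Fin n) (g : G),
      ∑ k : Fin m, ∑ h ∈ (A k j).support, x (k, g * h⁻¹) * (((A k j h : ℚ)) : ℂ) = 0}
      = kerC (qC A) := by
    unfold kerC
    have h2 : ∀ k j, (qC A k j).coeff.support = (A k j).support := by
      intro k j
      ext g
      rw [Finsupp.mem_support_iff, Finsupp.mem_support_iff, qC_coeff]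
      exact not_congr Rat.cast_eq_zero
    ext x
    simp only [Set.mem_ofPred_eq, h2, qC_coeff]
  rw [h1]

theorem qC_toQ {m n : ℕ} (A : Matrix (Fin m) (Fin n) (MonoidAlgebra ℤ G)) :
    qC (toQ A) = toC A := by
  ext i j g
  rw [qC_coeff, toC_coeff]
  change ((((A i j).coeff g : ℤ) : ℚ) : ℂ) = _
  push_cast
  rfl

/-- **Integrality below the threshold**, in the form of the problem. -/
theorem kerDim_small (htf : ∀ g : G, ∀ n : ℕ, 0 < n → g ^ n = 1 → g = 1) {m n : ℕ}
    (A : Matrix (Fin m) (Fin n) (MonoidAlgebra ℤ G)) (c : ℝ) (hc0 : 0 < c) (hc : c ^ 2 < 9 / 2)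
    (hA : NormLE A c) : ∃ d : ℤ, kerDim (toQ A) = d := by
  rw [kerDim_eq, qC_toQ]
  exact kap_small htf A c hc0 hc hA

/-! the reduction -/

theorem toC_mul {K L M : Type} [Fintype L] (A : Matrix K L (MonoidAlgebra ℤ G))
    (B : Matrix L M (MonoidAlgebra ℤ G)) : (A * B).map (MonoidAlgebra.mapRingHom G
      (Int.castRingHom ℂ)) = A.map (MonoidAlgebra.mapRingHom G (Int.castRingHom ℂ))
      * B.map (MonoidAlgebra.mapRingHom G (Int.castRingHom ℂ)) := Matrix.map_mul

theorem El_inv {κ : Type} [Fintype κ] [DecidableEq κ] (F : Matrix κ κ (MonoidAlgebra ℤ G))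
    (hF : F ∈ El (R := MonoidAlgebra ℤ G) κ) : ∃ F', F * F' = 1 ∧ F' * F = 1 := by
  obtain ⟨u, hu, _⟩ := El_unit F hF
  exact ⟨↑u⁻¹, by rw [← hu, Units.mul_inv], by rw [← hu, Units.inv_mul]⟩

theorem toC_one {κ : Type} [DecidableEq κ] : (1 : Matrix κ κ (MonoidAlgebra ℤ G)).map
    (MonoidAlgebra.mapRingHom G (Int.castRingHom ℂ)) = 1 := by
  rw [Matrix.map_one _ (map_zero _) (map_one _)]

theorem NormLE_re2 {K L K' L' : Type} [Fintype K] [Fintype L] [Fintype K'] [Fintype L']
    (e : K' ≃ K) (e' : L' ≃ L) (A : Matrix K L (MonoidAlgebra ℤ G)) (c : ℝ) (hA : NormLE A c) :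
    NormLE (A.submatrix e e') c := by
  intro x
  have h1 := hA (x ∘ e.symm)
  have h2 : normSq (x ∘ e.symm) = normSq x := by
    rw [normSq_eq, normSq_eq]
    exact Fintype.sum_equiv e.symm _ _ fun _ => rfl
  have h3 : x ᵥ* toReal (A.submatrix e e') = ((x ∘ e.symm) ᵥ* toReal A) ∘ e' := by
    funext j
    simp only [Matrix.vecMul, dotProduct, Function.comp_apply, toReal, Matrix.map_apply,
      Matrix.submatrix_apply]
    exact Fintype.sum_equiv e _ _ fun i => by simp
  have h4 : normSq (((x ∘ e.symm) ᵥ* toReal A) ∘ e') = normSq ((x ∘ e.symm) ᵥ* toReal A) := by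
    rw [normSq_eq, normSq_eq]
    exact Fintype.sum_equiv e' _ _ fun _ => rfl
  rw [h3, h4, ← h2]
  exact h1

theorem kap_re {K L K' L' : Type} [Fintype K] [Fintype L] [Fintype K'] [Fintype L']
    [DecidableEq K] [DecidableEq L] [DecidableEq K'] [DecidableEq L'] (e : K' ≃ K) (e' : L' ≃ L)
    (A : Matrix K L (MonoidAlgebra ℂ G)) : kap (A.submatrix e e') = kap A := by
  have h1 : A.submatrix e e' = (1 : Matrix K K (MonoidAlgebra ℂ G)).submatrix e id
      * (A * (1 : Matrix L L (MonoidAlgebra ℂ G)).submatrix id e') := by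
    rw [← Matrix.submatrix_id_id A, ← Matrix.submatrix_mul _ _ id id e' Function.bijective_id,
      ← Matrix.submatrix_mul _ _ e id e' Function.bijective_id, Matrix.mul_one, Matrix.one_mul,
      Matrix.submatrix_id_id]
  have h2 : (1 : Matrix K K (MonoidAlgebra ℂ G)).submatrix e id
      * (1 : Matrix K K (MonoidAlgebra ℂ G)).submatrix id e = 1 := by
    rw [← Matrix.submatrix_mul _ _ e id e Function.bijective_id, Matrix.one_mul,
      Matrix.submatrix_one_equiv]
  have h3 : (1 : Matrix K K (MonoidAlgebra ℂ G)).submatrix id e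
      * (1 : Matrix K K (MonoidAlgebra ℂ G)).submatrix e id = 1 := by
    rw [Matrix.submatrix_mul_equiv, Matrix.one_mul, Matrix.submatrix_id_id]
  have h4 : (1 : Matrix L L (MonoidAlgebra ℂ G)).submatrix id e'
      * (1 : Matrix L L (MonoidAlgebra ℂ G)).submatrix e' id = 1 := by
    rw [Matrix.submatrix_mul_equiv, Matrix.one_mul, Matrix.submatrix_id_id]
  rw [h1, kap_iso _ h2 h3, kap_unit_right _ h4]

/-- every integer matrix has the same kernel dimension as one of small norm -/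
theorem kap_red {m n : ℕ} (A : Matrix (Fin m) (Fin n) (MonoidAlgebra ℤ G)) (c : ℝ)
    (hc : 9 / 2 < c ^ 2) :
    ∃ (m' n' : ℕ) (B : Matrix (Fin m') (Fin n') (MonoidAlgebra ℤ G)),
      NormLE B c ∧ kap (toC B) = kap (toC A) := by
  obtain ⟨q, iq1, iq2, X, F, hF, hq, hX⟩ := good_all hc A
  obtain ⟨F', hF1, hF2⟩ := El_inv F hF
  set B : Matrix (Fin m ⊕ q) (Fin n ⊕ q) (MonoidAlgebra ℤ G) := fromBlocks A X 0 1 * F with hB
  have hN : NormLE B c := by
    intro x
    refine (hX x).trans ?_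
    rw [normSq_sum x]
    have h2 := normSq_nonneg (x ∘ Sum.inl)
    nlinarith
  have hkap : kap (B.map (MonoidAlgebra.mapRingHom G (Int.castRingHom ℂ))) = kap (toC A) := by
    rw [hB, toC_mul]
    have h1 : F.map (MonoidAlgebra.mapRingHom G (Int.castRingHom ℂ))
        * F'.map (MonoidAlgebra.mapRingHom G (Int.castRingHom ℂ)) = 1 := by
      rw [← toC_mul, hF1, toC_one]
    rw [kap_unit_right _ h1]
    let V : Matrix (Fin m ⊕ q) (Fin m ⊕ q) (MonoidAlgebra ℤ G) := fromBlocks 1 X 0 1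
    let V' : Matrix (Fin m ⊕ q) (Fin m ⊕ q) (MonoidAlgebra ℤ G) := fromBlocks 1 (-X) 0 1
    have hVV : V * V' = 1 := by
      simp only [V, V']
      rw [Matrix.fromBlocks_multiply, ← Matrix.fromBlocks_one]
      simp
    let W : Matrix (Fin m ⊕ q) (Fin n ⊕ q) (MonoidAlgebra ℤ G) := fromBlocks A 0 0 1
    have h2 : fromBlocks A X (0 : Matrix q (Fin n) (MonoidAlgebra ℤ G)) 1 = V * W := by
      simp only [V, W]
      rw [Matrix.fromBlocks_multiply]
      simp
    have h3 : V.map (MonoidAlgebra.mapRingHom G (Int.castRingHom ℂ))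
        * V'.map (MonoidAlgebra.mapRingHom G (Int.castRingHom ℂ)) = 1 := by
      rw [← toC_mul, hVV, toC_one]
    rw [h2, toC_mul, kap_mul_left _ (Rop_inj h3)]
    have h4 : W.map
        (MonoidAlgebra.mapRingHom G (Int.castRingHom ℂ)) = fromBlocks (toC A) 0 0 1 := by
      simp only [W]
      rw [Matrix.fromBlocks_map, toC_one, Matrix.map_zero _ (map_zero _),
        Matrix.map_zero _ (map_zero _)]
      rfl
    rw [h4, kap_stab]
  let e : Fin (m + Fintype.card q) ≃ Fin m ⊕ q :=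
    finSumFinEquiv.symm.trans (Equiv.sumCongr (Equiv.refl _) (Fintype.equivFin q).symm)
  let e' : Fin (n + Fintype.card q) ≃ Fin n ⊕ q :=
    finSumFinEquiv.symm.trans (Equiv.sumCongr (Equiv.refl _) (Fintype.equivFin q).symm)
  refine ⟨m + Fintype.card q, n + Fintype.card q, B.submatrix e e', NormLE_re2 e e' B c hN, ?_⟩
  rw [← hkap]
  exact kap_re e e' (B.map (MonoidAlgebra.mapRingHom G (Int.castRingHom ℂ)))

/-- clearing denominators -/
theorem exists_int {m n : ℕ} (A : Matrix (Fin m) (Fin n) (G →₀ ℚ)) :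
    ∃ (N : ℕ) (A' : Matrix (Fin m) (Fin n) (MonoidAlgebra ℤ G)), N ≠ 0 ∧
      toC A' = (N : ℂ) • qC A := by
  classical
  let N : ℕ := ∏ i, ∏ j, ∏ g ∈ (A i j).support, (A i j g).den
  have hN : N ≠ 0 := by
    simp only [N]
    refine Finset.prod_ne_zero_iff.2 fun i _ => Finset.prod_ne_zero_iff.2 fun j _ =>
      Finset.prod_ne_zero_iff.2 fun g _ => Rat.den_ne_zero _
  have hdvd : ∀ i j g, (A i j g).den ∣ N := by
    intro i j g
    by_cases hg : g ∈ (A i j).support
    · exact ((Finset.dvd_prod_of_mem _ hg).trans (Finset.dvd_prod_of_mem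
        (fun j => ∏ g ∈ (A i j).support, (A i j g).den) (Finset.mem_univ j))).trans
        (Finset.dvd_prod_of_mem (fun i => ∏ j, ∏ g ∈ (A i j).support, (A i j g).den)
          (Finset.mem_univ i))
    · rw [Finsupp.notMem_support_iff.1 hg]
      simp
  let A' : Matrix (Fin m) (Fin n) (MonoidAlgebra ℤ G) := fun i j =>
    MonoidAlgebra.ofCoeff (Finsupp.onFinset (A i j).support
      (fun g => (A i j g).num * ((N / (A i j g).den : ℕ) : ℤ)) (by
        intro g hg
        rw [Finsupp.mem_support_iff]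
        intro h
        rw [h] at hg
        simp at hg))
  refine ⟨N, A', hN, ?_⟩
  ext i j g
  rw [toC_coeff]
  change (((A i j g).num * ((N / (A i j g).den : ℕ) : ℤ) : ℤ) : ℂ) = (N : ℂ) * ((A i j g : ℚ) : ℂ)
  obtain ⟨k, hk⟩ := hdvd i j g
  have hd : ((A i j g).den : ℕ) ≠ 0 := Rat.den_ne_zero _
  rw [hk, Nat.mul_div_cancel_left k (Nat.pos_of_ne_zero hd)]
  have h1 : ((A i j g : ℚ) : ℂ) = ((A i j g).num : ℂ) / ((A i j g).den : ℂ) := Rat.cast_def _
  have hd' : (((A i j g).den : ℕ) : ℂ) ≠ 0 := by exact_mod_cast hd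
  rw [h1]
  push_cast
  field_simp

theorem kap_smul {K L : Type} [Fintype K] [Fintype L] [DecidableEq K] [DecidableEq L]
    (A : Matrix K L (MonoidAlgebra ℂ G)) (z : ℂ) (hz : z ≠ 0) : kap (z • A) = kap A := by
  have h1 : z • A = (Matrix.diagonal fun _ : K => MonoidAlgebra.single (1 : G) z) * A := by
    ext i j g
    rw [Matrix.diagonal_mul, MonoidAlgebra.coeff_single_mul_apply]
    simp
  have h2 : (Matrix.diagonal fun _ : K => MonoidAlgebra.single (1 : G) z)
      * (Matrix.diagonal fun _ : K => MonoidAlgebra.single (1 : G) z⁻¹) = 1 := by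
    rw [Matrix.diagonal_mul_diagonal, ← Matrix.diagonal_one]
    congr 1
    funext i
    rw [MonoidAlgebra.single_mul_single, mul_one, mul_inv_cancel₀ hz, MonoidAlgebra.one_def]
  rw [h1, kap_mul_left _ (Rop_inj h2)]

theorem kerDim_red {m n : ℕ} (A : Matrix (Fin m) (Fin n) (G →₀ ℚ)) (c : ℝ)
    (hc : 9 / 2 < c ^ 2) :
    ∃ (m' n' : ℕ) (B : Matrix (Fin m') (Fin n') (MonoidAlgebra ℤ G)),
      NormLE B c ∧ kerDim (toQ B) = kerDim A := by
  obtain ⟨N, A', hN, hA'⟩ := exists_int A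
  obtain ⟨m', n', B, hB, hk⟩ := kap_red A' c hc
  refine ⟨m', n', B, hB, ?_⟩
  rw [kerDim_eq, kerDim_eq, qC_toQ, hk, hA', kap_smul _ _ (by exact_mod_cast hN)]

end TH57.Thr.Ati
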