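import Pool.Agent.H57.AL.W649_ZL_Mat

set_option autoImplicit false
set_option linter.unusedSectionVars false

open scoped InnerProductSpace InnerProduct ENNReal

/-! The generic kernel dimension of matrices with prescribed supports. -/

namespace Pool.Agent.W649.ZL

open Module MvPolynomial

universe u v w z

section
variable {G : Type u} {K : Type v} {L : Type w} {ι : Type z} [Group G] [Fintype K] [Fintype L]
  [DecidableEq K] [DecidableEq L] [Fintype ι]

/-- Lower bound from a zero block. -/
theorem kd_ge (h : ι → G) (k : ι → K) (j : ι → L) (S : Finset K) (N : Finset L)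
    (hN : ∀ i, k i ∈ S → j i ∈ N) (a : ι → ℂ) :
    (S.card : ℝ) - N.card ≤ kd (famR h k j) a := by
  apply zero_block _ (lin_eqv _ (famR_eqv h k j) a)
  intro f hf u j' hj'
  rw [lin_famR_apply]
  apply Finset.sum_eq_zero
  intro i _
  by_cases hk : k i ∈ S
  · rw [if_neg, mul_zero]
    intro h1
    exact hj' (by rw [h1]; exact hN i hk)
  · split_ifs
    · rw [hf _ _ hk, mul_zero]
    · rw [mul_zero]

open Classical in
/-- The kernel of a partial permutation matrix of group elements. -/
theorem kd_matching (h : ι → G) (k : ι → K) (j : ι → L) (M : Finset ι)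
    (hk : ∀ i ∈ M, ∀ i' ∈ M, k i = k i' → i = i') (hj : ∀ i ∈ M, ∀ i' ∈ M, j i = j i' → i = i') :
    kd (famR h k j) (fun i => if i ∈ M then 1 else 0) ≤ (Fintype.card K : ℝ) - M.card := by
  have hle : LinearMap.ker (lin (famR h k j) (fun i => if i ∈ M then 1 else 0) :
      EE G K →ₗ[ℂ] EE G L) ≤ cosub G (Finset.univ \ M.image k) := by
    intro f hf x k' hk'
    have hk'' : k' ∈ M.image k := by
      by_contra hcon
      exact hk' (Finset.mem_sdiff.2 ⟨Finset.mem_univ _, hcon⟩)
    obtain ⟨i, hi, rfl⟩ := Finset.mem_image.1 hk''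
    have hf' : lin (famR h k j) (fun i => if i ∈ M then 1 else 0) f = 0 := hf
    have h1 := lin_famR_apply h k j (fun i => if i ∈ M then 1 else 0) f ((h i)⁻¹ * x) (j i)
    rw [hf'] at h1
    rw [Finset.sum_eq_single i] at h1
    · rw [if_pos hi, if_pos rfl, one_mul, mul_inv_cancel_left] at h1
      exact h1.symm
    · intro i' _ hne
      by_cases hi' : i' ∈ M
      · rw [if_pos hi', if_neg, mul_zero]
        intro h2
        exact hne (hj i' hi' i hi h2.symm)
      · rw [if_neg hi', zero_mul]
    · intro hh; exact absurd (Finset.mem_univ _) hh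
  have h1 := vd_mono hle
  rw [vd_cosub, Finset.card_sdiff_of_subset (Finset.subset_univ _), Finset.card_univ,
    Finset.card_image_of_injOn (fun i hi i' hi' h => hk i hi i' hi' h)] at h1
  have h2 : M.card ≤ Fintype.card K := by
    rw [← Finset.card_image_of_injOn (f := k) (fun i hi i' hi' h => hk i hi i' hi' h)]
    exact Finset.card_le_univ _
  rw [Nat.cast_sub h2] at h1
  exact h1

/-- Deficiency form of Hall's theorem. -/
theorem hall_deficiency (k : ι → K) (j : ι → L) (d : ℕ)
    (hd : ∀ S : Finset K, S.card ≤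
      (Finset.univ.filter (fun y : L => ∃ i, k i ∈ S ∧ j i = y)).card + d) :
    ∃ M : Finset ι, Fintype.card K ≤ M.card + d ∧
      (∀ i ∈ M, ∀ i' ∈ M, k i = k i' → i = i') ∧ (∀ i ∈ M, ∀ i' ∈ M, j i = j i' → i = i') := by
  classical
  let t' : K → Finset (L ⊕ Fin d) := fun x =>
    Finset.univ.filter (fun z => Sum.elim (fun y => ∃ i, k i = x ∧ j i = y) (fun _ => True) z)
  have hcond : ∀ S : Finset K, S.card ≤ (S.biUnion t').card := by
    intro S
    rcases S.eq_empty_or_nonempty with rfl | ⟨x0, hx0⟩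
    · simp
    · have hsub : (Finset.univ.filter (fun y : L => ∃ i, k i ∈ S ∧ j i = y)).map
            Function.Embedding.inl ∪ (Finset.univ : Finset (Fin d)).map Function.Embedding.inr
          ⊆ S.biUnion t' := by
        intro z hz
        rw [Finset.mem_union] at hz
        rw [Finset.mem_biUnion]
        rcases hz with hz | hz
        · obtain ⟨y, hy, rfl⟩ := Finset.mem_map.1 hz
          obtain ⟨i, hi, hij⟩ := (Finset.mem_filter.1 hy).2
          exact ⟨k i, hi, Finset.mem_filter.2 ⟨Finset.mem_univ _, i, rfl, hij⟩⟩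
        · obtain ⟨y, _, rfl⟩ := Finset.mem_map.1 hz
          exact ⟨x0, hx0, Finset.mem_filter.2 ⟨Finset.mem_univ _, trivial⟩⟩
      have h1 := Finset.card_le_card hsub
      rw [Finset.card_union_of_disjoint, Finset.card_map, Finset.card_map, Finset.card_univ,
        Fintype.card_fin] at h1
      · exact (hd S).trans h1
      · rw [Finset.disjoint_left]
        intro z hz hz'
        obtain ⟨y, _, rfl⟩ := Finset.mem_map.1 hz
        obtain ⟨y', _, h2⟩ := Finset.mem_map.1 hz'
        exact Sum.inr_ne_inl h2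
  obtain ⟨f, hf, hft⟩ := (Finset.all_card_le_biUnion_card_iff_exists_injective t').1 hcond
  let MK : Finset K := Finset.univ.filter (fun x => ∃ i, k i = x ∧ f x = Sum.inl (j i))
  have hex : ∀ x ∈ MK, ∃ i, k i = x ∧ f x = Sum.inl (j i) := fun x hx => (Finset.mem_filter.1 hx).2
  have hcompl : (MKᶜ).card ≤ d := by
    have h1 : MKᶜ.image f ⊆ (Finset.univ : Finset (Fin d)).map Function.Embedding.inr := by
      intro z hz
      obtain ⟨x, hx, rfl⟩ := Finset.mem_image.1 hz
      rw [Finset.mem_compl] at hx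
      have h2 := (Finset.mem_filter.1 (hft x)).2
      rcases hfx : f x with y | y
      · exfalso
        rw [hfx] at h2
        obtain ⟨i, hi, hij⟩ := h2
        exact hx (Finset.mem_filter.2 ⟨Finset.mem_univ _, i, hi, by rw [hfx, hij]⟩)
      · exact Finset.mem_map.2 ⟨y, Finset.mem_univ _, rfl⟩
    have h2 := Finset.card_le_card h1
    rw [Finset.card_image_of_injective _ hf, Finset.card_map, Finset.card_univ,
      Fintype.card_fin] at h2
    exact h2
  rcases isEmpty_or_nonempty ι with hι | hι
  · refine ⟨∅, ?_, by simp, by simp⟩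
    have h1 : MK = ∅ := by
      rw [Finset.eq_empty_iff_forall_notMem]
      intro x hx
      obtain ⟨i, _⟩ := hex x hx
      exact hι.elim i
    rw [h1, Finset.compl_empty, Finset.card_univ] at hcompl
    simpa using hcompl
  choose! c hc using hex
  have hcinj : Set.InjOn c MK := by
    intro x hx y hy hxy
    rw [← (hc x hx).1, ← (hc y hy).1, hxy]
  refine ⟨MK.image c, ?_, ?_, ?_⟩
  · rw [Finset.card_image_of_injOn hcinj]
    have := Finset.card_add_card_compl MK
    omega
  · intro i hi i' hi' h
    obtain ⟨x, hx, rfl⟩ := Finset.mem_image.1 hi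
    obtain ⟨y, hy, rfl⟩ := Finset.mem_image.1 hi'
    rw [(hc x hx).1, (hc y hy).1] at h
    rw [h]
  · intro i hi i' hi' h
    obtain ⟨x, hx, rfl⟩ := Finset.mem_image.1 hi
    obtain ⟨y, hy, rfl⟩ := Finset.mem_image.1 hi'
    have h1 : f x = f y := by rw [(hc x hx).2, (hc y hy).2, h]
    rw [hf h1]

open Classical in
/-- The generic value of the kernel dimension is the maximal deficiency. -/
theorem generic_value (h : ι → G) (k : ι → K) (j : ι → L) (d : ℕ)
    (hd : ∀ S : Finset K, S.card ≤
      (Finset.univ.filter (fun y : L => ∃ i, k i ∈ S ∧ j i = y)).card + d)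
    (hd' : ∃ S : Finset K, S.card =
      (Finset.univ.filter (fun y : L => ∃ i, k i ∈ S ∧ j i = y)).card + d) :
    (∀ a, (d : ℝ) ≤ kd (famR h k j) a) ∧
    ∃ P : ℕ → MvPolynomial ι ℂ, (∀ n, P n ≠ 0) ∧
      ∀ a, (∀ n, eval a (P n) ≠ 0) → kd (famR h k j) a = d := by
  have hge : ∀ a, (d : ℝ) ≤ kd (famR h k j) a := by
    intro a
    obtain ⟨S, hS⟩ := hd'
    have h1 := kd_ge h k j S (Finset.univ.filter (fun y : L => ∃ i, k i ∈ S ∧ j i = y))
      (fun i hi => Finset.mem_filter.2 ⟨Finset.mem_univ _, i, hi, rfl⟩) a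
    rw [hS] at h1
    push_cast at h1
    linarith
  refine ⟨hge, ?_⟩
  obtain ⟨M, hM, hMk, hMj⟩ := hall_deficiency k j d hd
  have h1 := kd_matching h k j M hMk hMj
  have h2 : (Fintype.card K : ℝ) ≤ M.card + d := by exact_mod_cast hM
  obtain ⟨P, hP0, hP⟩ := generic_le (famR h k j) (famR_eqv h k j) (fun i => if i ∈ M then 1 else 0)
  refine ⟨P, hP0, fun a ha => ?_⟩
  have h3 := hP a ha
  have h4 := hge a
  linarith

end

end Pool.Agent.W649.ZL
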