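import Pool.Agent.H57.AL.Q91_TE_Char

set_option autoImplicit false
set_option linter.unusedSectionVars false

/-! Generic values of kernel dimensions in one variable. -/

namespace Pool.Agent.Q91.TE

open MvPolynomial Pool.Agent.W649.ZL

universe u v w z

section
variable {G : Type u} [Group G] {I : Type v} {J : Type w} {ι : Type z} [Fintype ι] [Fintype I]
  [Fintype J] [DecidableEq I] [DecidableEq J]

/-- like `specAt`, for infinite sets of values of the variable -/
theorem specInf (A : ι → EE G J →L[ℂ] EE G I) (hA : ∀ i, Eqv (A i)) (a : ι → ℂ) (e : ι → ℕ) (d : ℝ)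
    (h : {c : ℂ | d ≤ kd A (fun i => a i * c ^ e i)}.Infinite) (y : ℂ) :
    d ≤ kd A (fun i => a i * y ^ e i) := by
  have hzero : (fun i => a i * y ^ e i) ∈ locus A d := by
    rw [← locus_closed A hA d]
    intro f hf
    rw [aeval_ev]
    let p : Polynomial ℂ := aeval (fun t : ι => Polynomial.C (a t) * Polynomial.X ^ e t) f
    have hp : ∀ c : ℂ, p.eval c = eval (fun i => a i * c ^ e i) f := by
      intro c
      simp only [p]
      rw [← Polynomial.coe_aeval_eq_eval, aeval_def, ← aeval_ev, aeval_def]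
      have := MvPolynomial.hom_eval₂ f (algebraMap ℂ (Polynomial ℂ))
        ((Polynomial.aeval c).toRingHom)
        (fun t : ι => Polynomial.C (a t) * Polynomial.X ^ e t)
      refine Eq.trans this ?_
      congr 1
      · ext z; simp
      · funext t
        simp
    have hp0 : p = 0 := by
      apply Polynomial.eq_zero_of_infinite_isRoot
      refine h.mono ?_
      intro c hc
      change p.eval c = 0
      rw [hp, ← aeval_ev]
      exact hf _ hc
    rw [← hp, hp0, Polynomial.eval_zero]
  exact hzero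

/-- Outside a countable set of values of the variable the kernel dimension is minimal. -/
theorem countable_gt (A : ι → EE G J →L[ℂ] EE G I) (hA : ∀ i, Eqv (A i)) (a : ι → ℂ) (e : ι → ℕ)
    (y : ℂ) : {c : ℂ | kd A (fun i => a i * y ^ e i) < kd A (fun i => a i * c ^ e i)}.Countable := by
  set m := kd A (fun i => a i * y ^ e i) with hm
  have h1 : {c : ℂ | m < kd A (fun i => a i * c ^ e i)}
      ⊆ ⋃ n : ℕ, {c : ℂ | m + 1 / ((n : ℝ) + 1) ≤ kd A (fun i => a i * c ^ e i)} := by
    intro c hc
    have hc' : 0 < kd A (fun i => a i * c ^ e i) - m := sub_pos.2 hc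
    obtain ⟨n, hn⟩ := exists_nat_one_div_lt hc'
    refine Set.mem_iUnion.2 ⟨n, ?_⟩
    change m + 1 / ((n : ℝ) + 1) ≤ _
    linarith
  refine Set.Countable.mono h1 (Set.countable_iUnion fun n => ?_)
  by_contra hcon
  have hinf : {c : ℂ | m + 1 / ((n : ℝ) + 1) ≤ kd A (fun i => a i * c ^ e i)}.Infinite :=
    fun hfin => hcon hfin.countable
  have h2 := specInf A hA a e _ hinf y
  have h3 : (0 : ℝ) < 1 / ((n : ℝ) + 1) := by positivity
  linarith

end

section
variable {G : Type u} [Group G] {m l : ℕ} {ι : Type z} [Fintype ι]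

/-- evaluation of the integral exponents at `c` -/
noncomputable def evC (a : ι → ℂ) (e : ι → ℤ) (c : ℂ) : ι → ℂ := fun i => a i * c ^ e i

theorem shift (h : ι → G) (k : ι → Fin m) (j : ι → Fin l) (a : ι → ℂ) (e : ι → ℤ) (N : ℕ)
    (hN : ∀ i, 0 ≤ e i + N) (c : ℂ) (hc : c ≠ 0) :
    kerDimM (matM h k j (evC a e c)) = kd (famR h k j) (fun i => a i * c ^ (e i + N).toNat) := by
  rw [← kerDimM_eq, ← scal h k j (c ^ (-(N : ℤ))) (zpow_ne_zero _ hc)
    (fun i => a i * c ^ (e i + N).toNat)]
  congr 2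
  funext i
  unfold evC
  rw [mul_left_comm, ← zpow_natCast c (Int.toNat _), Int.toNat_of_nonneg (hN i), ← zpow_add₀ hc]
  congr 2
  ring

/-- There is a nonzero complex number at which the kernel dimension is minimal, and it is minimal
outside a countable set. -/
theorem exists_min (h : ι → G) (k : ι → Fin m) (j : ι → Fin l) (a : ι → ℂ) (e : ι → ℤ) :
    ∃ (μ : ℝ) (S : Set ℂ), S.Countable ∧ (∀ c, c ≠ 0 → μ ≤ kerDimM (matM h k j (evC a e c))) ∧
      ∀ c, c ≠ 0 → c ∉ S → kerDimM (matM h k j (evC a e c)) = μ := by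
  obtain ⟨N, hN⟩ : ∃ N : ℕ, ∀ i, 0 ≤ e i + N := by
    refine ⟨∑ i, (e i).natAbs, fun i => ?_⟩
    have := Finset.single_le_sum (f := fun i => (e i).natAbs)
      (fun _ _ => Nat.zero_le _) (Finset.mem_univ i)
    omega
  set F : ℂ → ℝ := fun c => kd (famR h k j) (fun i => a i * c ^ (e i + N).toNat) with hF
  have hsh : ∀ c, c ≠ 0 → kerDimM (matM h k j (evC a e c)) = F c :=
    fun c hc => shift h k j a e N hN c hc
  have hcnt : ∀ y, {c : ℂ | F y < F c}.Countable := fun y =>
    countable_gt (famR h k j) (famR_eqv h k j) a (fun i => (e i + N).toNat) y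
  -- a sequence realising the infimum on the nonzero numbers
  let V : Set ℝ := F '' {c : ℂ | c ≠ 0}
  have hVne : V.Nonempty := ⟨F 1, 1, one_ne_zero, rfl⟩
  have hVbdd : BddBelow V := ⟨0, by
    rintro _ ⟨c, _, rfl⟩
    exact vd_nonneg _⟩
  obtain ⟨u, _, hu, huV⟩ := exists_seq_tendsto_sInf hVne hVbdd
  choose y hy0 hy using huV
  let S : Set ℂ := ⋃ n, {c : ℂ | F (y n) < F c}
  have hS : S.Countable := Set.countable_iUnion fun n => hcnt _
  refine ⟨sInf V, S, hS, fun c hc => ?_, fun c hc hcS => ?_⟩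
  · rw [hsh c hc]
    exact csInf_le hVbdd ⟨c, hc, rfl⟩
  · rw [hsh c hc]
    apply le_antisymm
    · refine ge_of_tendsto' hu fun n => ?_
      rw [← hy n]
      by_contra hcon
      push Not at hcon
      exact hcS (Set.mem_iUnion.2 ⟨n, hcon⟩)
    · exact csInf_le hVbdd ⟨c, hc, rfl⟩

end

end Pool.Agent.Q91.TE
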