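import Mathlib

set_option autoImplicit false

/-! Projections of basis vectors to closed subspaces of `ℓ²(X)`. -/

namespace Pool.Agent.Q91.TE

open scoped InnerProductSpace ENNReal

universe u

variable {X : Type u}

/-- the common kernel of a family of finite linear forms -/
noncomputable def VS {ι κ : Type*} (S : ι → Finset κ) (a : ι → κ → ℂ) (p : ι → κ → X) :
    Submodule ℂ (lp (fun _ : X => ℂ) 2) where
  carrier := {f | ∀ i, ∑ k ∈ S i, a i k * f (p i k) = 0}
  zero_mem' := by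
    intro i
    simp
  add_mem' := by
    intro f g hf hg i
    have : ∀ k, a i k * (f + g) (p i k) = a i k * f (p i k) + a i k * g (p i k) := by
      intro k
      rw [lp.coeFn_add, Pi.add_apply, mul_add]
    simp only [this, Finset.sum_add_distrib]
    rw [hf i, hg i, add_zero]
  smul_mem' := by
    intro c f hf i
    have : ∀ k, a i k * (c • f) (p i k) = c * (a i k * f (p i k)) := by
      intro k
      rw [lp.coeFn_smul, Pi.smul_apply, smul_eq_mul]
      ring
    simp only [this, ← Finset.mul_sum]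
    rw [hf i, mul_zero]

theorem isClosed_VS {ι κ : Type*} (S : ι → Finset κ) (a : ι → κ → ℂ) (p : ι → κ → X) :
    IsClosed (VS S a p : Set (lp (fun _ : X => ℂ) 2)) := by
  have : (VS S a p : Set (lp (fun _ : X => ℂ) 2))
      = ⋂ i, {f | ∑ k ∈ S i, a i k * f (p i k) = 0} := by
    ext f
    rw [Set.mem_iInter]
    exact Iff.rfl
  rw [this]
  refine isClosed_iInter fun i => ?_
  refine isClosed_eq ?_ continuous_const
  refine continuous_finsetSum _ fun k _ => continuous_const.mul ?_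
  have h2 : Continuous (fun f : lp (fun _ : X => ℂ) 2 => (f : X → ℂ)) :=
    (lp.uniformContinuous_coe (E := fun _ : X => ℂ) (p := 2)).continuous
  exact (continuous_apply _).comp h2

open Classical in
/-- the projection of the basis vector at `x` -/
theorem exists_proj (V : Submodule ℂ (lp (fun _ : X => ℂ) 2))
    (hc : IsClosed (V : Set (lp (fun _ : X => ℂ) 2))) (x : X) :
    ∃ u ∈ V, u x = ((1 - Metric.infDist (lp.single (E := fun _ : X => ℂ) 2 x (1 : ℂ))
        (V : Set (lp (fun _ : X => ℂ) 2)) ^ 2 : ℝ) : ℂ) ∧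
      ‖u‖ ^ 2 = 1 - Metric.infDist (lp.single (E := fun _ : X => ℂ) 2 x (1 : ℂ))
        (V : Set (lp (fun _ : X => ℂ) 2)) ^ 2 := by
  have : CompleteSpace V := hc.completeSpace_coe
  set δ : lp (fun _ : X => ℂ) 2 := lp.single (E := fun _ : X => ℂ) 2 x (1 : ℂ) with hδ
  set u : lp (fun _ : X => ℂ) 2 := V.starProjection δ with hu
  have humem : u ∈ V := Submodule.starProjection_apply_mem _ _
  have h1 : Metric.infDist δ (V : Set (lp (fun _ : X => ℂ) 2)) = ‖δ - u‖ := by
    rw [hu, Submodule.starProjection_minimal, Metric.infDist_eq_iInf]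
    simp only [dist_eq_norm]
    rfl
  have h2 : ⟪u, δ - u⟫_ℂ = 0 := by
    have := Submodule.sub_starProjection_mem_orthogonal (K := V) δ
    exact (Submodule.mem_orthogonal _ _).1 this u humem
  have h3 : ⟪δ, u⟫_ℂ = ⟪u, u⟫_ℂ := by
    have h4 : ⟪δ - u, u⟫_ℂ = 0 := by
      rw [← inner_conj_symm, h2, map_zero]
    rw [inner_sub_left, sub_eq_zero] at h4
    exact h4
  have hin : ∀ v : lp (fun _ : X => ℂ) 2, ⟪δ, v⟫_ℂ = v x := by
    intro v
    rw [hδ, lp.inner_single_left]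
    simp
  have h5 : u x = ((‖u‖ ^ 2 : ℝ) : ℂ) := by
    rw [← hin, h3, inner_self_eq_norm_sq_to_K]
    norm_cast
  have hδn : ‖δ‖ = 1 := by
    rw [hδ]
    simp
  have h6 : ‖δ - u‖ ^ 2 = 1 - ‖u‖ ^ 2 := by
    rw [@norm_sub_sq ℂ, h3, inner_self_eq_norm_sq_to_K, hδn]
    have : RCLike.re (((‖u‖ : ℝ) : ℂ) ^ 2) = ‖u‖ ^ 2 := by
      rw [← Complex.ofReal_pow]
      exact Complex.ofReal_re _
    rw [show (RCLike.ofReal ‖u‖ : ℂ) = ((‖u‖ : ℝ) : ℂ) from rfl, this]
    ring
  refine ⟨u, humem, ?_, ?_⟩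
  · rw [h1, h6, h5]
    norm_num
  · rw [h1, h6]
    ring

open Classical in
theorem bound (V : Submodule ℂ (lp (fun _ : X => ℂ) 2))
    (hc : IsClosed (V : Set (lp (fun _ : X => ℂ) 2))) (x : X) (E : ℝ) (hE : 0 < E)
    (h : ∀ f ∈ V, E * ‖f x‖ ^ 2 ≤ ‖f‖ ^ 2) :
    1 - Metric.infDist (lp.single (E := fun _ : X => ℂ) 2 x (1 : ℂ))
        (V : Set (lp (fun _ : X => ℂ) 2)) ^ 2 ≤ 1 / E := by
  obtain ⟨u, hu, h1, h2⟩ := exists_proj V hc x
  set d := 1 - Metric.infDist (lp.single (E := fun _ : X => ℂ) 2 x (1 : ℂ))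
        (V : Set (lp (fun _ : X => ℂ) 2)) ^ 2 with hd
  have hd0 : 0 ≤ d := by rw [← h2]; positivity
  have h3 := h u hu
  rw [h1, h2, Complex.norm_real, Real.norm_eq_abs, sq_abs] at h3
  rcases hd0.eq_or_lt with h0 | h0
  · rw [← h0]; positivity
  · rw [le_div_iff₀ hE]
    have h4 : (d * E) * d ≤ 1 * d := by nlinarith
    exact le_of_mul_le_mul_right h4 h0

theorem norm_sq_lp (c : lp (fun _ : X => ℂ) 2) : ‖c‖ ^ 2 = ∑' i, ‖c i‖ ^ 2 := by
  have h := lp.norm_rpow_eq_tsum (p := 2) (by norm_num) c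
  have e : ENNReal.toReal 2 = ((2 : ℕ) : ℝ) := by norm_num
  rw [e] at h
  simp only [Real.rpow_natCast] at h
  exact h

theorem summable_sq_lp (c : lp (fun _ : X => ℂ) 2) : Summable (fun i => ‖c i‖ ^ 2) := by
  have h := (lp.memℓp c).summable (by norm_num)
  have e : ENNReal.toReal 2 = ((2 : ℕ) : ℝ) := by norm_num
  rw [e] at h
  simp only [Real.rpow_natCast] at h
  exact h

end Pool.Agent.Q91.TE
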