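import Pool.Agent.H57.AL.W649_ZL_Mat
import Pool.Agent.H13.L.S8.W649.ZL.Conv

set_option autoImplicit false
set_option linter.style.haveILetI false
set_option linter.unusedSectionVars false

/-! Kernel dimensions of matrices over group rings of cyclic subgroups. -/

namespace TH57.Thr.Ati

open Pool.Agent.W649.ZL Matrix

section conv

variable {G : Type} [Group G]

/-- convolution -/
noncomputable def cv (α : MonoidAlgebra ℂ G) (f : G → ℂ) (u : G) : ℂ :=
  α.coeff.sum fun h c => c * f (h * u)

theorem cv_zero (f : G → ℂ) (u : G) : cv 0 f u = 0 := by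
  simp [cv]

theorem cv_add (α β : MonoidAlgebra ℂ G) (f : G → ℂ) (u : G) :
    cv (α + β) f u = cv α f u + cv β f u := by
  unfold cv
  rw [MonoidAlgebra.coeff_add, Finsupp.sum_add_index' (by simp) (by intros; ring)]

theorem cv_single (h : G) (c : ℂ) (f : G → ℂ) (u : G) :
    cv (MonoidAlgebra.single h c) f u = c * f (h * u) := by
  unfold cv
  rw [MonoidAlgebra.coeff_single, Finsupp.sum_single_index (by simp)]

theorem cv_one (f : G → ℂ) (u : G) : cv 1 f u = f u := by
  rw [MonoidAlgebra.one_def, cv_single, one_mul, one_mul]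

theorem cv_neg (α : MonoidAlgebra ℂ G) (f : G → ℂ) (u : G) : cv (-α) f u = -cv α f u := by
  have h := cv_add α (-α) f u
  rw [add_neg_cancel, cv_zero] at h
  linear_combination -h

theorem cv_sum {ι : Type} (s : Finset ι) (α : ι → MonoidAlgebra ℂ G) (f : G → ℂ) (u : G) :
    cv (∑ i ∈ s, α i) f u = ∑ i ∈ s, cv (α i) f u := by
  classical
  induction s using Finset.induction_on with
  | empty => simp [cv_zero]
  | insert a s ha ih => rw [Finset.sum_insert ha, Finset.sum_insert ha, cv_add, ih]

theorem cv_zerof (α : MonoidAlgebra ℂ G) (u : G) : cv α (fun _ => 0) u = 0 := by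
  simp [cv]

theorem cv_addf (α : MonoidAlgebra ℂ G) (f g : G → ℂ) (u : G) :
    cv α (fun v => f v + g v) u = cv α f u + cv α g u := by
  unfold cv
  rw [← Finsupp.sum_add]
  exact Finsupp.sum_congr fun h _ => by ring

theorem cv_sumf {ι : Type} (s : Finset ι) (α : MonoidAlgebra ℂ G) (f : ι → G → ℂ) (u : G) :
    cv α (fun v => ∑ i ∈ s, f i v) u = ∑ i ∈ s, cv α (f i) u := by
  classical
  induction s using Finset.induction_on with
  | empty => simp [cv_zerof]
  | insert a s ha ih =>
    simp only [Finset.sum_insert ha]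
    rw [cv_addf, ih]

theorem cv_mul (α β : MonoidAlgebra ℂ G) (f : G → ℂ) (u : G) :
    cv (α * β) f u = cv β (cv α f) u := by
  induction α using MonoidAlgebra.induction_linear with
  | zero =>
    rw [zero_mul, cv_zero]
    have : cv (0 : MonoidAlgebra ℂ G) f = fun _ => 0 := funext fun v => cv_zero f v
    rw [this, cv_zerof]
  | add a b ha hb =>
    rw [add_mul, cv_add, ha, hb, ← cv_addf]
    congr 1
    funext v
    rw [cv_add]
  | single h c =>
    induction β using MonoidAlgebra.induction_linear with
    | zero => rw [mul_zero, cv_zero, cv_zero]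
    | add a b ha hb => rw [mul_add, cv_add, ha, hb, cv_add]
    | single k d =>
      rw [MonoidAlgebra.single_mul_single, cv_single, cv_single, cv_single, mul_assoc h k u]
      ring

theorem cv_trans (α : MonoidAlgebra ℂ G) (f : G → ℂ) (k u : G) :
    cv α (fun v => f (v * k)) u = cv α f (u * k) := by
  unfold cv
  refine Finsupp.sum_congr fun h _ => ?_
  change _ * f (h * u * k) = _
  rw [mul_assoc h u k]

end conv

section op

variable {G : Type} [Group G] {K L M : Type} [Fintype K] [Fintype L] [Fintype M]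
  [DecidableEq K] [DecidableEq L] [DecidableEq M]

/-- right multiplication by a matrix -/
noncomputable def Rop (A : Matrix K L (MonoidAlgebra ℂ G)) : EE G K →L[ℂ] EE G L :=
  ∑ k, ∑ j, ∑ h ∈ (A k j).coeff.support, (A k j).coeff h • elem h⁻¹ j k

theorem clm_sum_apply {ι : Type} (s : Finset ι) (T : ι → EE G K →L[ℂ] EE G L) (F : EE G K)
    (x : G × L) : (∑ i ∈ s, T i) F x = ∑ i ∈ s, T i F x := by
  classical
  induction s using Finset.induction_on with
  | empty => simp
  | insert a s ha ih => rw [Finset.sum_insert ha, Finset.sum_insert ha, ← ih]; rfl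

theorem Rop_apply (A : Matrix K L (MonoidAlgebra ℂ G)) (F : EE G K) (u : G) (j : L) :
    Rop A F (u, j) = ∑ k, cv (A k j) (fun v => F (v, k)) u := by
  unfold Rop
  rw [clm_sum_apply]
  refine Finset.sum_congr rfl fun k _ => ?_
  rw [clm_sum_apply, Finset.sum_eq_single j]
  · rw [clm_sum_apply]
    unfold cv Finsupp.sum
    refine Finset.sum_congr rfl fun h _ => ?_
    change (A k j).coeff h * elem (I := L) h⁻¹ j k F (u, j) = _
    rw [elem_apply, if_pos rfl, inv_inv]
  · intro j' _ hj'
    rw [clm_sum_apply]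
    refine Finset.sum_eq_zero fun h _ => ?_
    change (A k j').coeff h * elem (I := L) h⁻¹ j' k F (u, j) = _
    rw [elem_apply, if_neg fun h' => hj' h'.symm, mul_zero]
  · intro h; exact absurd (Finset.mem_univ _) h

theorem Rop_mul (A : Matrix K L (MonoidAlgebra ℂ G)) (B : Matrix L M (MonoidAlgebra ℂ G)) :
    Rop (A * B) = (Rop B).comp (Rop A) := by
  ext F ⟨u, l⟩
  rw [Rop_apply]
  change _ = Rop B (Rop A F) (u, l)
  rw [Rop_apply]
  have h1 : ∀ j, cv (B j l) (fun v => Rop A F (v, j)) u
      = ∑ k, cv (B j l) (cv (A k j) (fun v => F (v, k))) u := by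
    intro j
    rw [← cv_sumf]
    congr 1
    funext v
    rw [Rop_apply]
  rw [Finset.sum_congr rfl fun j _ => h1 j, Finset.sum_comm]
  refine Finset.sum_congr rfl fun k _ => ?_
  rw [Matrix.mul_apply, cv_sum]
  exact Finset.sum_congr rfl fun j _ => cv_mul _ _ _ _

theorem Rop_eqv (A : Matrix K L (MonoidAlgebra ℂ G)) : Eqv (Rop A) := by
  intro k F
  ext ⟨u, j⟩
  rw [Rop_apply]
  change _ = Rop A F (u * k, j)
  rw [Rop_apply]
  refine Finset.sum_congr rfl fun i _ => ?_
  rw [← cv_trans]
  rfl

/-- the kernel dimension -/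
noncomputable def kap (A : Matrix K L (MonoidAlgebra ℂ G)) : ℝ :=
  vd (LinearMap.ker (Rop A : EE G K →ₗ[ℂ] EE G L))

theorem inv_orth {P : Submodule ℂ (EE G K)} (hP : Pool.Agent.W649.ZL.Inv P) :
    Pool.Agent.W649.ZL.Inv Pᗮ := by
  intro k f hf
  rw [Submodule.mem_orthogonal'] at hf ⊢
  intro w hw
  rw [inner_tr_left]
  exact hf _ (hP k⁻¹ w hw)

theorem dense_of_injective (T : EE G K →L[ℂ] EE G K) (hT : Eqv T)
    (hi : Function.Injective T) :
    (LinearMap.range (T : EE G K →ₗ[ℂ] EE G K)).topologicalClosure = ⊤ := by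
  have h1 := ker_add_range T hT
  rw [vd_ker_of_injective T hi, zero_add] at h1
  set P := (LinearMap.range (T : EE G K →ₗ[ℂ] EE G K)).topologicalClosure with hP
  have hPc : IsClosed (P : Set (EE G K)) := Submodule.isClosed_topologicalClosure _
  have hvP : vd P = Fintype.card K := by rw [hP, vd_closure, h1]
  have hPi : Pool.Agent.W649.ZL.Inv P := by
    apply Pool.Agent.W649.ZL.Inv.topologicalClosure
    rintro k _ ⟨f, rfl⟩
    exact ⟨tr k f, hT k f⟩
  have h2 := vd_sub hPc (by simp : IsClosed ((⊤ : Submodule ℂ (EE G K)) : Set (EE G K))) le_top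
  rw [vd_top, hvP, sub_self, top_inf_eq] at h2
  have h3 := eq_bot_of_vd_eq_zero _ (inv_orth hPi) h2.le
  have : CompleteSpace P := hPc.completeSpace_coe
  exact (Submodule.orthogonal_eq_bot_iff).1 h3

theorem kap_comp {T : EE G K →L[ℂ] EE G L} (hT : Eqv T) (U : EE G K →L[ℂ] EE G K) (hU : Eqv U)
    (hi : Function.Injective U) :
    vd (LinearMap.ker ((T.comp U : EE G K →L[ℂ] EE G L) : EE G K →ₗ[ℂ] EE G L))
      = vd (LinearMap.ker (T : EE G K →ₗ[ℂ] EE G L)) := by
  have hTU : Eqv (T.comp U) := by
    intro k f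
    rw [ContinuousLinearMap.comp_apply, ContinuousLinearMap.comp_apply, hU, hT]
  have h1 := ker_add_range T hT
  have h2 := ker_add_range (T.comp U) hTU
  have h3 : vd (LinearMap.range ((T.comp U : EE G K →L[ℂ] EE G L) : EE G K →ₗ[ℂ] EE G L))
      = vd (LinearMap.range (T : EE G K →ₗ[ℂ] EE G L)) := by
    rw [← vd_closure, ← vd_closure (LinearMap.range (T : EE G K →ₗ[ℂ] EE G L))]
    congr 1
    apply le_antisymm
    · apply Submodule.topologicalClosure_mono
      rintro _ ⟨f, rfl⟩
      exact ⟨U f, rfl⟩
    · apply Submodule.topologicalClosure_minimal _ _ (Submodule.isClosed_topologicalClosure _)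
      rintro _ ⟨f, rfl⟩
      have hd := dense_of_injective U hU hi
      have hf : f ∈ closure (LinearMap.range (U : EE G K →ₗ[ℂ] EE G K) : Set (EE G K)) := by
        rw [← Submodule.topologicalClosure_coe, hd]; trivial
      have h4 : T f ∈ closure (T '' (LinearMap.range (U : EE G K →ₗ[ℂ] EE G K) :
          Set (EE G K))) := image_closure_subset_closure_image T.continuous ⟨f, hf, rfl⟩
      change T f ∈ (LinearMap.range ((T.comp U : EE G K →L[ℂ] EE G L) :
        EE G K →ₗ[ℂ] EE G L)).topologicalClosure
      rw [← SetLike.mem_coe, Submodule.topologicalClosure_coe]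
      refine closure_mono ?_ h4
      rintro _ ⟨_, ⟨g, rfl⟩, rfl⟩
      exact ⟨g, rfl⟩
  linarith

theorem kap_mul_left (U : Matrix K K (MonoidAlgebra ℂ G)) (hU : Function.Injective (Rop U))
    (A : Matrix K L (MonoidAlgebra ℂ G)) : kap (U * A) = kap A := by
  unfold kap
  rw [Rop_mul]
  exact kap_comp (Rop_eqv A) (Rop U) (Rop_eqv U) hU

theorem kap_mul_right (A : Matrix K L (MonoidAlgebra ℂ G)) (V : Matrix L M (MonoidAlgebra ℂ G))
    (hV : Function.Injective (Rop V)) : kap (A * V) = kap A := by
  unfold kap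
  rw [Rop_mul]
  congr 1
  ext F
  constructor
  · intro h
    have h1 : Rop V (Rop A F) = 0 := h
    exact hV (h1.trans (map_zero _).symm)
  · intro h
    have h1 : Rop A F = 0 := h
    change Rop V (Rop A F) = 0
    rw [h1, map_zero]

end op

section cyc

variable {G : Type} [Group G]

/-- elements supported in a subgroup -/
noncomputable def SR (H : Subgroup G) : Subring (MonoidAlgebra ℂ G) :=
  (MonoidAlgebra.mapDomainRingHom ℂ H.subtype).range

theorem mem_SR_of (H : Subgroup G) (x : MonoidAlgebra ℂ G) (hx : ∀ g, x.coeff g ≠ 0 → g ∈ H) :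
    x ∈ SR H := by
  refine ⟨MonoidAlgebra.comapDomain H.subtype H.subtype_injective x, ?_⟩
  apply MonoidAlgebra.mapDomain_comapDomain
  intro g hg
  exact ⟨⟨g, hx g (Finsupp.mem_support_iff.1 hg)⟩, rfl⟩

theorem supp_of_mem_SR (H : Subgroup G) (x : MonoidAlgebra ℂ G) (hx : x ∈ SR H) (g : G)
    (hg : x.coeff g ≠ 0) : g ∈ H := by
  obtain ⟨y, rfl⟩ := hx
  by_contra h
  apply hg
  change (Finsupp.mapDomain H.subtype y.coeff) g = 0
  apply Finsupp.mapDomain_of_notMem_range
  rintro ⟨k, hk⟩
  exact h (hk ▸ k.2)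

theorem SR_comm (H : Subgroup G) (hH : IsCyclic H) (x y : MonoidAlgebra ℂ G) (hx : x ∈ SR H)
    (hy : y ∈ SR H) : x * y = y * x := by
  obtain ⟨a, rfl⟩ := hx
  obtain ⟨b, rfl⟩ := hy
  rw [← map_mul, ← map_mul]
  congr 1
  letI : CommGroup H := IsCyclic.commGroup
  induction a using MonoidAlgebra.induction_linear with
  | zero => simp
  | add a a' h h' => rw [add_mul, mul_add, h, h']
  | single g c =>
    induction b using MonoidAlgebra.induction_linear with
    | zero => simp
    | add b b' h h' => rw [add_mul, mul_add, h, h']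
    | single k d =>
      rw [MonoidAlgebra.single_mul_single, MonoidAlgebra.single_mul_single, mul_comm c d]
      congr 1
      exact mul_comm g k

theorem cv_inj (htf : ∀ g : G, ∀ n : ℕ, 0 < n → g ^ n = 1 → g = 1) (H : Subgroup G)
    (hH : IsCyclic H) (x : MonoidAlgebra ℂ G) (hx : x ∈ SR H) (hx0 : x ≠ 0) (f : EE G Unit)
    (hf : ∀ u, cv x (fun v => f (v, ())) u = 0) : f = 0 := by
  have hs := supp_of_mem_SR H x hx
  rw [Subgroup.isCyclic_iff_exists_zpowers_eq_top] at hH
  obtain ⟨t, rfl⟩ := hH
  by_cases ht : t = 1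
  · subst ht
    have h1 : x = MonoidAlgebra.single 1 (x.coeff 1) := by
      ext g
      by_cases hg : g = 1
      · subst hg; simp
      · have h3 : x.coeff g = 0 := by
          by_contra h
          exact hg (by simpa using hs g h)
        simp [h3, hg]
    have h2 : x.coeff 1 ≠ 0 := by
      intro h
      apply hx0
      rw [h1, h]
      simp
    ext ⟨u, a⟩
    have := hf u
    rw [h1, cv_single, one_mul] at this
    exact (mul_eq_zero.1 this).resolve_left h2
  · have hno : ¬ IsOfFinOrder t := by
      intro h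
      obtain ⟨n, hn, h1⟩ := isOfFinOrder_iff_pow_eq_one.1 h
      exact ht (htf t n hn h1)
    -- the inverted element
    let α : G →₀ ℂ := x.coeff.mapDomain (fun g => g⁻¹)
    have hαv : ∀ g, α g = x.coeff g⁻¹ := by
      intro g
      have := Finsupp.mapDomain_apply (f := fun g : G => g⁻¹) inv_injective x.coeff g⁻¹
      rwa [inv_inv] at this
    have hα : α ≠ 0 := by
      intro h
      apply hx0
      ext g
      have := hαv g⁻¹
      rw [h, inv_inv] at this
      exact this.symm
    have hinj := cop_zpowers_injective t hno α hα (by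
      intro g hg
      rw [Finsupp.mem_support_iff, hαv] at hg
      have := hs _ hg
      exact (Subgroup.inv_mem_iff _).1 this)
    apply hinj
    rw [map_zero]
    ext ⟨u, a⟩
    rw [cop_apply]
    have h1 := hf u
    unfold cv at h1
    have h2 : ∑ k ∈ α.support, α k * f (k⁻¹ * u, ())
        = α.sum fun k c => c * f (k⁻¹ * u, ()) := rfl
    rw [h2]
    change (x.coeff.mapDomain (fun g => g⁻¹)).sum (fun k c => c * f (k⁻¹ * u, ())) = 0
    rw [Finsupp.sum_mapDomain_index (by simp) (by intros; ring)]
    simpa using h1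

variable {K L : Type} [Fintype K] [Fintype L] [DecidableEq K] [DecidableEq L]

theorem comp_inj (htf : ∀ g : G, ∀ n : ℕ, 0 < n → g ^ n = 1 → g = 1) (H : Subgroup G)
    (hH : IsCyclic H) (x : MonoidAlgebra ℂ G) (hx : x ∈ SR H) (hx0 : x ≠ 0) (F : EE G K) (k : K)
    (hf : ∀ u, cv x (fun v => F (v, k)) u = 0) (u : G) : F (u, k) = 0 := by
  have h1 : elem (I := Unit) (1 : G) () k F = 0 := by
    apply cv_inj htf H hH x hx hx0
    intro u
    have h2 : (fun v => elem (I := Unit) (1 : G) () k F (v, ())) = fun v => F (v, k) := by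
      funext v
      rw [elem_apply, if_pos rfl, inv_one, one_mul]
    rw [h2]
    exact hf u
  have h2 : elem (I := Unit) (1 : G) () k F (u, ()) = 0 := by rw [h1]; rfl
  rw [elem_apply, if_pos rfl, inv_one, one_mul] at h2
  exact h2

/-- **Integrality for matrices over cyclic subgroups.** -/
theorem kap_int (htf : ∀ g : G, ∀ n : ℕ, 0 < n → g ^ n = 1 → g = 1) {β : Type} (r : K → β)
    (s : L → β) (C : β → Subgroup G) (hC : ∀ b, IsCyclic (C b)) :
    ∀ (N : ℕ) (B : Matrix K L (MonoidAlgebra ℂ G)),
      (∀ i j, B i j ∈ SR (C (r i))) → (∀ i j, B i j ≠ 0 → r i = s j) →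
      (∃ T : Finset K, T.card ≤ N ∧ ∀ i, i ∉ T → ∀ j, B i j = 0) → ∃ d : ℤ, kap B = d := by
  classical
  intro N
  induction N with
  | zero =>
    intro B _ _ hT
    obtain ⟨T, hT1, hT2⟩ := hT
    have hT0 : T = ∅ := Finset.card_eq_zero.1 (Nat.le_zero.1 hT1)
    have hB : B = 0 := by
      ext1 i j
      exact hT2 i (by rw [hT0]; exact Finset.notMem_empty _) j
    refine ⟨Fintype.card K, ?_⟩
    unfold kap
    have h1 : LinearMap.ker (Rop B : EE G K →ₗ[ℂ] EE G L) = ⊤ := by
      rw [eq_top_iff]
      intro F _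
      change Rop B F = 0
      ext ⟨u, j⟩
      rw [Rop_apply, hB]
      simp [cv_zero]
    rw [h1, vd_top]
    simp
  | succ N ih =>
    intro B hB1 hB2 hT
    obtain ⟨T, hT1, hT2⟩ := hT
    by_cases hall : ∀ i j, B i j = 0
    · exact ih B hB1 hB2 ⟨∅, by simp, fun i _ j => hall i j⟩
    push Not at hall
    obtain ⟨i₀, j₀, hp0⟩ := hall
    set p := B i₀ j₀ with hp
    have hlab := hB2 i₀ j₀ hp0
    have hpC : p ∈ SR (C (r i₀)) := hB1 i₀ j₀
    have hi₀T : i₀ ∈ T := by
      by_contra h
      exact hp0 (hT2 i₀ h j₀)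
    let dd : K → MonoidAlgebra ℂ G := fun i => if i ≠ i₀ ∧ r i = r i₀ then p else 1
    let U : Matrix K K (MonoidAlgebra ℂ G) := fun i k =>
      if i = k then dd i else if k = i₀ then -B i j₀ else 0
    have hUoff : ∀ i k, i ≠ k → k ≠ i₀ → U i k = 0 := by
      intro i k h1 h2
      simp only [U]
      rw [if_neg h1, if_neg h2]
    have hUd : ∀ i, U i i = dd i := fun i => by simp [U]
    have hU0 : ∀ i, i ≠ i₀ → U i i₀ = -B i j₀ := by
      intro i h
      change (if i = i₀ then dd i else if i₀ = i₀ then -B i j₀ else 0) = _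
      rw [if_neg h, if_pos rfl]
    have hdd0 : dd i₀ = 1 := by simp [dd]
    -- injectivity
    have hUinj : Function.Injective (Rop U) := by
      rw [injective_iff_map_eq_zero]
      intro F hF
      have hc : ∀ k, ∀ u, ∑ i, cv (U i k) (fun v => F (v, i)) u = 0 := by
        intro k u
        rw [← Rop_apply, hF]; rfl
      have h1 : ∀ k, k ≠ i₀ → ∀ u, F (u, k) = 0 := by
        intro k hk
        have h2 : ∀ u, cv (dd k) (fun v => F (v, k)) u = 0 := by
          intro u
          have h3 := hc k u
          rw [Finset.sum_eq_single k] at h3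
          · rw [hUd] at h3; exact h3
          · intro i _ hik
            rw [hUoff i k hik hk, cv_zero]
          · intro h; exact absurd (Finset.mem_univ _) h
        by_cases h3 : r k = r i₀
        · have h4 : dd k = p := by simp only [dd]; rw [if_pos ⟨hk, h3⟩]
          rw [h4] at h2
          exact comp_inj htf _ (hC (r i₀)) p hpC hp0 F k h2
        · have h4 : dd k = 1 := by simp only [dd]; rw [if_neg fun h => h3 h.2]
          rw [h4] at h2
          intro u
          have := h2 u
          rwa [cv_one] at this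
      ext ⟨u, k⟩
      by_cases hk : k = i₀
      · subst hk
        have h3 := hc k u
        rw [Finset.sum_eq_single k] at h3
        · rw [hUd, hdd0, cv_one] at h3; exact h3
        · intro i _ hik
          have : (fun v => F (v, i)) = fun _ => (0 : ℂ) := funext fun v => h1 i hik v
          rw [this, cv_zerof]
        · intro h; exact absurd (Finset.mem_univ _) h
      · exact h1 k hk u
    -- the product
    have hUB : ∀ i j, (U * B) i j = if i = i₀ then B i₀ j else dd i * B i j - B i j₀ * B i₀ j := by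
      intro i j
      rw [Matrix.mul_apply]
      by_cases hi : i = i₀
      · subst hi
        rw [if_pos rfl, Finset.sum_eq_single i]
        · rw [hUd, hdd0, one_mul]
        · intro k _ hk
          rw [hUoff i k hk.symm hk, zero_mul]
        · intro h; exact absurd (Finset.mem_univ _) h
      · rw [if_neg hi, ← Finset.add_sum_erase _ _ (Finset.mem_univ i), hUd]
        rw [Finset.sum_eq_single i₀]
        · rw [hU0 i hi, neg_mul, sub_eq_add_neg]
        · intro k hk hk2
          rw [hUoff i k (Finset.ne_of_mem_erase hk).symm hk2, zero_mul]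
        · intro h
          exact absurd (Finset.mem_erase.2 ⟨fun h => hi h.symm, Finset.mem_univ _⟩) h
    have hzl : ∀ i j, r i ≠ s j → B i j = 0 := fun i j h => by
      by_contra h2; exact h (hB2 i j h2)
    have hUBcol : ∀ i, i ≠ i₀ → (U * B) i j₀ = 0 := by
      intro i hi
      rw [hUB, if_neg hi]
      by_cases h3 : r i = r i₀
      · have h4 : dd i = p := by simp only [dd]; rw [if_pos ⟨hi, h3⟩]
        rw [h4, SR_comm (C (r i₀)) (hC _) p (B i j₀) hpC (h3 ▸ hB1 i j₀), sub_self]
      · have h4 : B i j₀ = 0 := hzl i j₀ (by rw [← hlab]; exact h3)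
        rw [h4, mul_zero, zero_mul, sub_zero]
    -- the next matrix
    let B' : Matrix K L (MonoidAlgebra ℂ G) := fun i j => if i = i₀ then 0 else (U * B) i j
    have hB'1 : ∀ i j, B' i j ∈ SR (C (r i)) := by
      intro i j
      simp only [B']
      split_ifs with hi
      · exact zero_mem _
      · rw [hUB, if_neg hi]
        by_cases h3 : r i = r i₀
        · have h4 : dd i = p := by simp only [dd]; rw [if_pos ⟨hi, h3⟩]
          rw [h4]
          exact sub_mem (mul_mem (h3 ▸ hpC) (hB1 i j)) (mul_mem (hB1 i j₀) (h3 ▸ hB1 i₀ j))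
        · have h4 : dd i = 1 := by simp only [dd]; rw [if_neg fun h => h3 h.2]
          have h5 : B i j₀ = 0 := hzl i j₀ (by rw [← hlab]; exact h3)
          rw [h4, h5, one_mul, zero_mul, sub_zero]
          exact hB1 i j
    have hB'2 : ∀ i j, B' i j ≠ 0 → r i = s j := by
      intro i j h
      by_contra hne
      apply h
      simp only [B']
      split_ifs with hi
      · rfl
      · rw [hUB, if_neg hi, hzl i j hne, mul_zero, zero_sub, neg_eq_zero]
        by_cases h3 : r i = r i₀
        · rw [hzl i₀ j (by rw [← h3]; exact hne), mul_zero]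
        · rw [hzl i j₀ (by rw [← hlab]; exact h3), zero_mul]
    obtain ⟨d, hd⟩ := ih B' hB'1 hB'2 ⟨T.erase i₀, by
        rw [Finset.card_erase_of_mem hi₀T]; omega, by
      intro i hi j
      simp only [B']
      split_ifs with h
      · rfl
      · have hiT : i ∉ T := fun h2 => hi (Finset.mem_erase.2 ⟨h, h2⟩)
        rw [hUB, if_neg h, hT2 i hiT, hT2 i hiT, mul_zero, zero_mul, sub_zero]⟩
    refine ⟨d - 1, ?_⟩
    rw [← kap_mul_left U hUinj B]
    -- compare the kernels
    set Q := LinearMap.ker (Rop B' : EE G K →ₗ[ℂ] EE G L) with hQ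
    let T0 : EE G K →L[ℂ] EE G Unit := elem (I := Unit) (1 : G) () i₀
    have hT0 : ∀ F : EE G K, ∀ u, T0 F (u, ()) = F (u, i₀) := by
      intro F u
      change elem (I := Unit) (1 : G) () i₀ F (u, ()) = _
      rw [elem_apply, if_pos rfl, inv_one, one_mul]
    have hrel : ∀ F : EE G K, (∀ u, F (u, i₀) = 0) → Rop B' F = Rop (U * B) F := by
      intro F hF
      ext ⟨u, j⟩
      rw [Rop_apply, Rop_apply]
      refine Finset.sum_congr rfl fun i _ => ?_
      by_cases hi : i = i₀
      · subst hi
        have : (fun v => F (v, i)) = fun _ => (0 : ℂ) := funext fun v => hF v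
        rw [this, cv_zerof, cv_zerof]
      · simp only [B']
        rw [if_neg hi]
    have hker : LinearMap.ker (Rop (U * B) : EE G K →ₗ[ℂ] EE G L)
        = Q ⊓ LinearMap.ker (T0 : EE G K →ₗ[ℂ] EE G Unit) := by
      ext F
      constructor
      · intro h
        have h1 : Rop (U * B) F = 0 := h
        have h2 : ∀ u, F (u, i₀) = 0 := by
          apply comp_inj htf _ (hC (r i₀)) p hpC hp0 F i₀
          intro u
          have h3 : Rop (U * B) F (u, j₀) = 0 := by rw [h1]; rfl
          rw [Rop_apply, Finset.sum_eq_single i₀] at h3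
          · rw [hUB, if_pos rfl] at h3; exact h3
          · intro i _ hi
            rw [hUBcol i hi, cv_zero]
          · intro h; exact absurd (Finset.mem_univ _) h
        refine ⟨?_, ?_⟩
        · change Rop B' F = 0
          rw [hrel F h2, h1]
        · change T0 F = 0
          ext ⟨u, a⟩
          rw [hT0, h2]; rfl
      · rintro ⟨h1, h2⟩
        have h1' : Rop B' F = 0 := h1
        have h2' : T0 F = 0 := h2
        have h3 : ∀ u, F (u, i₀) = 0 := by
          intro u
          rw [← hT0, h2']; rfl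
        change Rop (U * B) F = 0
        rw [← hrel F h3, h1']
    have hmap : Q.map (T0 : EE G K →ₗ[ℂ] EE G Unit) = ⊤ := by
      rw [eq_top_iff]
      intro f _
      refine ⟨elem (I := K) (1 : G) i₀ () f, ?_, ?_⟩
      · change Rop B' (elem (I := K) (1 : G) i₀ () f) = 0
        ext ⟨u, j⟩
        rw [Rop_apply]
        refine Finset.sum_eq_zero fun i _ => ?_
        by_cases hi : i = i₀
        · simp only [B']
          rw [if_pos hi, cv_zero]
        · have : (fun v => elem (I := K) (1 : G) i₀ () f (v, i)) = fun _ => (0 : ℂ) := by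
            funext v
            rw [elem_apply, if_neg hi]
          rw [this, cv_zerof]
      · change T0 (elem (I := K) (1 : G) i₀ () f) = f
        ext ⟨u, a⟩
        rw [hT0, elem_apply, if_pos rfl, inv_one, one_mul]
    have hrn := rank_nullity T0 (elem_eqv _ _ _) (inv_ker (Rop B') (Rop_eqv B'))
      (ContinuousLinearMap.isClosed_ker (Rop B'))
    rw [← hQ, ← hker, hmap, vd_top] at hrn
    have hd' : vd Q = d := hd
    rw [hd'] at hrn
    unfold kap
    push_cast
    simp only [Fintype.card_unit, Nat.cast_one] at hrn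
    linarith

end cyc

end TH57.Thr.Ati
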