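import Pool.Agent.H57.AL.TH57_Thr_KOne

set_option autoImplicit false
set_option linter.style.haveILetI false
set_option linter.unusedSectionVars false

/-! Every class of `K₁` is represented by an invertible matrix of norm close to `3 / √2`. -/

namespace TH57.Thr

open Matrix
open scoped commutatorElement

section comm

variable {R : Type} [Ring R] {κ : Type} [Fintype κ] [DecidableEq κ]

theorem comm_of_El (h3 : 3 ≤ Fintype.card κ) (M : Matrix κ κ R) (h : M ∈ El (R := R) κ) :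
    ∃ u : (Matrix κ κ R)ˣ, (u : Matrix κ κ R) = M ∧ u ∈ commutator (Matrix κ κ R)ˣ := by
  induction h using Submonoid.closure_induction with
  | mem x hx =>
    obtain ⟨i, j, hij, a, rfl⟩ := hx
    obtain ⟨k, hki, hkj⟩ : ∃ k, k ≠ i ∧ k ≠ j := by
      by_contra hcon
      push Not at hcon
      have h1 : (Finset.univ : Finset κ) ⊆ {i, j} := by
        intro k _
        rw [Finset.mem_insert, Finset.mem_singleton]
        by_cases h2 : k = i
        · exact Or.inl h2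
        · exact Or.inr (hcon k h2)
      have h2 := Finset.card_le_card h1
      have h4 : ({i, j} : Finset κ).card ≤ 2 := Finset.card_le_two
      rw [Finset.card_univ] at h2
      omega
    refine ⟨tv i j hij a, rfl, ?_⟩
    rw [tv_comm i j k hij hki.symm hkj, commutator_def]
    exact Subgroup.commutator_mem_commutator (Subgroup.mem_top _) (Subgroup.mem_top _)
  | one => exact ⟨1, rfl, one_mem _⟩
  | mul x y _ _ hx hy =>
    obtain ⟨u, hu1, hu2⟩ := hx
    obtain ⟨v, hv1, hv2⟩ := hy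
    exact ⟨u * v, by rw [Units.val_mul, hu1, hv1], mul_mem hu2 hv2⟩

end comm

section norm

variable {Γ : Type} [Group Γ] {κ μ : Type} [Fintype κ] [DecidableEq κ] [Fintype μ] [DecidableEq μ]

theorem NormLE_re (e : μ ≃ κ) (A : Matrix κ κ (MonoidAlgebra ℤ Γ)) (c : ℝ) (hA : NormLE A c) :
    NormLE (A.submatrix e e) c := by
  intro x
  have h1 := hA (x ∘ e.symm)
  have h2 : normSq (x ∘ e.symm) = normSq x := by
    rw [normSq_eq, normSq_eq]
    exact Fintype.sum_equiv e.symm _ _ fun _ => rfl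
  have h3 : x ᵥ* toReal (A.submatrix e e) = ((x ∘ e.symm) ᵥ* toReal A) ∘ e := by
    funext j
    simp only [Matrix.vecMul, dotProduct, Function.comp_apply, toReal, Matrix.map_apply,
      Matrix.submatrix_apply]
    exact Fintype.sum_equiv e _ _ fun i => by simp
  have h4 : normSq (((x ∘ e.symm) ᵥ* toReal A) ∘ e) = normSq ((x ∘ e.symm) ᵥ* toReal A) := by
    rw [normSq_eq, normSq_eq]
    exact Fintype.sum_equiv e _ _ fun _ => rfl
  rw [h3, h4, ← h2]
  exact h1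

theorem comm_re (e : μ ≃ κ) {R : Type} [Ring R] (x : (Matrix κ κ R)ˣ)
    (hx : x ∈ commutator (Matrix κ κ R)ˣ) :
    Units.map (re e) x ∈ commutator (Matrix μ μ R)ˣ := by
  have h1 : (commutator (Matrix κ κ R)ˣ).map (Units.map (re (R := R) e))
      ≤ commutator (Matrix μ μ R)ˣ := by
    rw [commutator_def, Subgroup.map_commutator]
    exact Subgroup.commutator_mono le_top le_top
  exact h1 (Subgroup.mem_map_of_mem _ hx)

theorem reduction (A : (Matrix κ κ (MonoidAlgebra ℤ Γ))ˣ) (c : ℝ) (hc : 9 / 2 < c ^ 2) :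
    ∃ (q : Type) (_ : Fintype q) (_ : DecidableEq q)
      (C : (Matrix (κ ⊕ q) (κ ⊕ q) (MonoidAlgebra ℤ Γ))ˣ),
      C ∈ commutator (Matrix (κ ⊕ q) (κ ⊕ q) (MonoidAlgebra ℤ Γ))ˣ ∧
      NormLE (fromBlocks (A : Matrix κ κ (MonoidAlgebra ℤ Γ)) 0 0 1
        * (C : Matrix (κ ⊕ q) (κ ⊕ q) (MonoidAlgebra ℤ Γ))) c := by
  obtain ⟨q, iq1, iq2, X, F, hF, hq, hX⟩ := good_all hc (A : Matrix κ κ (MonoidAlgebra ℤ Γ))
  refine ⟨q, iq1, iq2, ?_⟩
  have hcard : 3 ≤ Fintype.card (κ ⊕ q) := by rw [Fintype.card_sum]; omega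
  have hU : (1 + (fromBlocks 0 ((↑A⁻¹ : Matrix κ κ (MonoidAlgebra ℤ Γ)) * X) 0 0 :
      Matrix (κ ⊕ q) (κ ⊕ q) (MonoidAlgebra ℤ Γ))) * F ∈ El (R := MonoidAlgebra ℤ Γ) (κ ⊕ q) :=
    mul_mem (el_unip (Finset.univ.filter fun v : κ ⊕ q => v.isLeft) _ (by
      rintro (i | i) (j | j) h <;> simp at h ⊢)) hF
  obtain ⟨C, hC1, hC2⟩ := comm_of_El hcard _ hU
  refine ⟨C, hC2, ?_⟩
  have h1 : fromBlocks (A : Matrix κ κ (MonoidAlgebra ℤ Γ)) 0 0 1
      * (C : Matrix (κ ⊕ q) (κ ⊕ q) (MonoidAlgebra ℤ Γ))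
      = fromBlocks (A : Matrix κ κ (MonoidAlgebra ℤ Γ)) X 0 1 * F := by
    rw [hC1, ← Matrix.mul_assoc]
    congr 1
    rw [← Matrix.fromBlocks_one, Matrix.fromBlocks_add, Matrix.fromBlocks_multiply]
    simp [← Matrix.mul_assoc]
  rw [h1]
  intro x
  refine (hX x).trans ?_
  rw [normSq_sum x]
  have h2 := normSq_nonneg (x ∘ Sum.inl)
  nlinarith

theorem reduction_fin (n : ℕ) (A : (Matrix (Fin n) (Fin n) (MonoidAlgebra ℤ Γ))ˣ) (c : ℝ)
    (hc : 9 / 2 < c ^ 2) :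
    ∃ (m : ℕ) (C : (Matrix (Fin n ⊕ Fin m) (Fin n ⊕ Fin m) (MonoidAlgebra ℤ Γ))ˣ),
      C ∈ commutator (Matrix (Fin n ⊕ Fin m) (Fin n ⊕ Fin m) (MonoidAlgebra ℤ Γ))ˣ ∧
      NormLE (fromBlocks (A : Matrix (Fin n) (Fin n) (MonoidAlgebra ℤ Γ)) 0 0 1
        * (C : Matrix (Fin n ⊕ Fin m) (Fin n ⊕ Fin m) (MonoidAlgebra ℤ Γ))) c := by
  obtain ⟨q, iq1, iq2, C, hC, hN⟩ := reduction A c hc
  let e : Fin (Fintype.card q) ≃ q := (Fintype.equivFin q).symm
  let e' : Fin n ⊕ Fin (Fintype.card q) ≃ Fin n ⊕ q := Equiv.sumCongr (Equiv.refl _) e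
  refine ⟨Fintype.card q, Units.map (re e') C, comm_re e' C hC, ?_⟩
  have h1 := NormLE_re e' _ c hN
  convert h1 using 1
  rw [← Matrix.submatrix_mul_equiv _ _ e' e' e']
  congr 1
  ext (i | i) (j | j) <;> simp [e', Matrix.one_apply]

end norm

end TH57.Thr
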