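import Pool.Agent.H57.AL.TH57_Thr_Ati
import Pool.Agent.H57.AL.TH57_Thr_Struct
import Pool.Agent.H57.AL.TH57_Thr_Red

set_option autoImplicit false
set_option linter.style.haveILetI false
set_option linter.unusedSectionVars false

/-! Kernel dimensions of integer matrices of small norm. -/

namespace TH57.Thr.Ati

open Pool.Agent.W649.ZL Matrix

section gen

variable {G : Type} [Group G] {K L M K' : Type} [Fintype K] [Fintype L] [Fintype M] [Fintype K']
  [DecidableEq K] [DecidableEq L] [DecidableEq M] [DecidableEq K']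

theorem Rop_one : Rop (1 : Matrix K K (MonoidAlgebra ℂ G)) = ContinuousLinearMap.id ℂ _ := by
  ext F ⟨u, k⟩
  rw [Rop_apply, Finset.sum_eq_single k]
  · rw [Matrix.one_apply_eq, cv_one]; rfl
  · intro i _ hi
    rw [Matrix.one_apply_ne hi, cv_zero]
  · intro h; exact absurd (Finset.mem_univ _) h

theorem Rop_inj {P : Matrix K' K (MonoidAlgebra ℂ G)} {Q : Matrix K K' (MonoidAlgebra ℂ G)}
    (h : P * Q = 1) : Function.Injective (Rop P) := by
  intro F F' hF
  have h1 : Rop Q (Rop P F) = Rop Q (Rop P F') := by rw [hF]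
  have h2 : ∀ F, Rop Q (Rop P F) = F := by
    intro F
    rw [← ContinuousLinearMap.comp_apply, ← Rop_mul, h, Rop_one]; rfl
  rwa [h2, h2] at h1

/-- the kernel is transported by a split surjection on the left -/
theorem kap_iso (A : Matrix K L (MonoidAlgebra ℂ G)) {P : Matrix K' K (MonoidAlgebra ℂ G)}
    {Q : Matrix K K' (MonoidAlgebra ℂ G)} (h1 : P * Q = 1) (h2 : Q * P = 1) :
    kap (P * A) = kap A := by
  have hrn := rank_nullity (Rop P) (Rop_eqv P) (inv_ker (Rop (P * A)) (Rop_eqv _))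
    (ContinuousLinearMap.isClosed_ker (Rop (P * A)))
  have e1 : LinearMap.ker (Rop (P * A) : EE G K' →ₗ[ℂ] EE G L)
      ⊓ LinearMap.ker (Rop P : EE G K' →ₗ[ℂ] EE G K) = ⊥ := by
    rw [LinearMap.ker_eq_bot.2 (Rop_inj h1), inf_bot_eq]
  have e2 : (LinearMap.ker (Rop (P * A) : EE G K' →ₗ[ℂ] EE G L)).map
      (Rop P : EE G K' →ₗ[ℂ] EE G K) = LinearMap.ker (Rop A : EE G K →ₗ[ℂ] EE G L) := by
    ext F
    constructor
    · rintro ⟨F', hF', rfl⟩
      have h3 : Rop (P * A) F' = 0 := hF'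
      rw [Rop_mul] at h3
      exact h3
    · intro hF
      have h3 : Rop A F = 0 := hF
      have h4 : Rop P (Rop Q F) = F := by
        rw [← ContinuousLinearMap.comp_apply, ← Rop_mul, h2, Rop_one]; rfl
      refine ⟨Rop Q F, ?_, h4⟩
      change Rop (P * A) (Rop Q F) = 0
      rw [Rop_mul]
      change Rop A (Rop P (Rop Q F)) = 0
      rw [h4, h3]
  rw [e1, e2, vd_bot, zero_add] at hrn
  exact hrn

theorem kap_unit_right (A : Matrix K L (MonoidAlgebra ℂ G)) {P : Matrix L M (MonoidAlgebra ℂ G)}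
    {Q : Matrix M L (MonoidAlgebra ℂ G)} (h1 : P * Q = 1) : kap (A * P) = kap A :=
  kap_mul_right A P (Rop_inj h1)

/-- stabilisation -/
theorem kap_stab (A : Matrix K L (MonoidAlgebra ℂ G)) :
    kap (fromBlocks A 0 0 (1 : Matrix M M (MonoidAlgebra ℂ G))) = kap A := by
  set B : Matrix (K ⊕ M) (L ⊕ M) (MonoidAlgebra ℂ G) := fromBlocks A 0 0 1 with hB
  let P : Matrix (K ⊕ M) K (MonoidAlgebra ℂ G) := fromRows 1 0
  have hP : ∀ (F : EE G (K ⊕ M)) u k, Rop P F (u, k) = F (u, Sum.inl k) := by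
    intro F u k
    rw [Rop_apply, Fintype.sum_sum_type, Finset.sum_eq_single k]
    · rw [Finset.sum_eq_zero]
      · rw [add_zero]
        change cv ((1 : Matrix K K (MonoidAlgebra ℂ G)) k k) _ u = _
        rw [Matrix.one_apply_eq, cv_one]
      · intro m _
        change cv 0 _ u = 0
        rw [cv_zero]
    · intro i _ hi
      change cv ((1 : Matrix K K (MonoidAlgebra ℂ G)) i k) _ u = _
      rw [Matrix.one_apply_ne hi, cv_zero]
    · intro h; exact absurd (Finset.mem_univ _) h
  have hBl : ∀ (F : EE G (K ⊕ M)) u j, Rop B F (u, Sum.inl j)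
      = ∑ k, cv (A k j) (fun v => F (v, Sum.inl k)) u := by
    intro F u j
    rw [Rop_apply, Fintype.sum_sum_type]
    have : ∑ m : M, cv (B (Sum.inr m) (Sum.inl j)) (fun v => F (v, Sum.inr m)) u = 0 :=
      Finset.sum_eq_zero fun m _ => by
        change cv 0 _ u = 0
        rw [cv_zero]
    rw [this, add_zero]
    rfl
  have hBr : ∀ (F : EE G (K ⊕ M)) u m, Rop B F (u, Sum.inr m) = F (u, Sum.inr m) := by
    intro F u m
    rw [Rop_apply, Fintype.sum_sum_type]
    have : ∑ k : K, cv (B (Sum.inl k) (Sum.inr m)) (fun v => F (v, Sum.inl k)) u = 0 :=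
      Finset.sum_eq_zero fun k _ => by
        change cv 0 _ u = 0
        rw [cv_zero]
    rw [this, zero_add, Finset.sum_eq_single m]
    · change cv ((1 : Matrix M M (MonoidAlgebra ℂ G)) m m) _ u = _
      rw [Matrix.one_apply_eq, cv_one]
    · intro i _ hi
      change cv ((1 : Matrix M M (MonoidAlgebra ℂ G)) i m) _ u = _
      rw [Matrix.one_apply_ne hi, cv_zero]
    · intro h; exact absurd (Finset.mem_univ _) h
  have hrn := rank_nullity (Rop P) (Rop_eqv P) (inv_ker (Rop B) (Rop_eqv _))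
    (ContinuousLinearMap.isClosed_ker (Rop B))
  have e1 : LinearMap.ker (Rop B : EE G (K ⊕ M) →ₗ[ℂ] EE G (L ⊕ M))
      ⊓ LinearMap.ker (Rop P : EE G (K ⊕ M) →ₗ[ℂ] EE G K) = ⊥ := by
    rw [eq_bot_iff]
    rintro F ⟨h1, h2⟩
    have h1' : Rop B F = 0 := h1
    have h2' : Rop P F = 0 := h2
    rw [Submodule.mem_bot]
    ext ⟨u, k | m⟩
    · rw [← hP, h2']; rfl
    · rw [← hBr, h1']; rfl
  have e2 : (LinearMap.ker (Rop B : EE G (K ⊕ M) →ₗ[ℂ] EE G (L ⊕ M))).map
      (Rop P : EE G (K ⊕ M) →ₗ[ℂ] EE G K) = LinearMap.ker (Rop A : EE G K →ₗ[ℂ] EE G L) := by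
    ext F
    constructor
    · rintro ⟨F', hF', rfl⟩
      have h3 : Rop B F' = 0 := hF'
      change Rop A (Rop P F') = 0
      ext ⟨u, j⟩
      rw [Rop_apply]
      have h4 : ∑ k, cv (A k j) (fun v => F' (v, Sum.inl k)) u = 0 := by
        rw [← hBl, h3]; rfl
      refine Eq.trans (Finset.sum_congr rfl fun k _ => ?_) h4
      congr 1
      funext v
      exact hP F' v k
    · intro hF
      have h3 : Rop A F = 0 := hF
      let Q : Matrix K (K ⊕ M) (MonoidAlgebra ℂ G) := fromCols 1 0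
      have hQl : ∀ u k, Rop Q F (u, Sum.inl k) = F (u, k) := by
        intro u k
        rw [Rop_apply, Finset.sum_eq_single k]
        · change cv ((1 : Matrix K K (MonoidAlgebra ℂ G)) k k) _ u = _
          rw [Matrix.one_apply_eq, cv_one]
        · intro i _ hi
          change cv ((1 : Matrix K K (MonoidAlgebra ℂ G)) i k) _ u = _
          rw [Matrix.one_apply_ne hi, cv_zero]
        · intro h; exact absurd (Finset.mem_univ _) h
      have hQr : ∀ u m, Rop Q F (u, Sum.inr m) = 0 := by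
        intro u m
        rw [Rop_apply]
        refine Finset.sum_eq_zero fun i _ => ?_
        change cv 0 _ u = 0
        rw [cv_zero]
      refine ⟨Rop Q F, ?_, ?_⟩
      · change Rop B (Rop Q F) = 0
        ext ⟨u, j | m⟩
        · rw [hBl]
          have h4 : ∑ k, cv (A k j) (fun v => F (v, k)) u = 0 := by
            rw [← Rop_apply, h3]; rfl
          refine Eq.trans (Finset.sum_congr rfl fun k _ => ?_) h4
          congr 1
          funext v
          exact hQl v k
        · rw [hBr, hQr]; rfl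
      · change Rop P (Rop Q F) = F
        ext ⟨u, k⟩
        rw [hP, hQl]
  rw [e1, e2, vd_bot, zero_add] at hrn
  exact hrn

/-! comparison with the concrete kernel -/

/-- the concrete kernel -/
def kerC (A : Matrix K L (MonoidAlgebra ℂ G)) : Set (lp (fun _ : K × G => ℂ) 2) :=
  {x | ∀ (j : L) (g : G), ∑ k : K, ∑ h ∈ (A k j).coeff.support,
    x (k, g * h⁻¹) * (A k j).coeff h = 0}

theorem flp_kerC (A : Matrix K L (MonoidAlgebra ℂ G)) :
    flp '' kerC A = (LinearMap.ker (Rop A : EE G K →ₗ[ℂ] EE G L) : Set (EE G K)) := by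
  have key : ∀ (x : lp (fun _ : K × G => ℂ) 2) (g : G) (j : L),
      Rop A (flp x) (g⁻¹, j) = ∑ k : K, ∑ h ∈ (A k j).coeff.support,
        x (k, g * h⁻¹) * (A k j).coeff h := by
    intro x g j
    rw [Rop_apply]
    refine Finset.sum_congr rfl fun k _ => ?_
    unfold cv Finsupp.sum
    refine Finset.sum_congr rfl fun h _ => ?_
    change (A k j).coeff h * flp x (h * g⁻¹, k) = _
    rw [flp_apply, _root_.mul_inv_rev, inv_inv, mul_comm]
  ext F
  constructor
  · rintro ⟨x, hx, rfl⟩
    change Rop A (flp x) = 0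
    ext ⟨u, j⟩
    have := key x u⁻¹ j
    rw [inv_inv] at this
    rw [this]
    exact hx j u⁻¹
  · intro hF
    obtain ⟨x, rfl⟩ := flp_surj F
    refine ⟨x, fun j g => ?_, rfl⟩
    have hF' : Rop A (flp x) = 0 := hF
    rw [← key, hF']
    rfl

open Classical in
theorem kerC_dim (A : Matrix K L (MonoidAlgebra ℂ G)) :
    ∑ i : K, (1 - Metric.infDist
      (lp.single (E := fun _ : K × G => ℂ) 2 (i, (1 : G)) (1 : ℂ)) (kerC A) ^ 2) = kap A := by
  unfold kap
  rw [vd_eq_infDist _ (ContinuousLinearMap.isClosed_ker (Rop A))]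
  refine Finset.sum_congr rfl fun i _ => ?_
  rw [← flp_kerC, ← flp_single, Metric.infDist_image isometry_flp]

end gen

section int

variable {G : Type} [Group G] {K L : Type} [Fintype K] [Fintype L] [DecidableEq K] [DecidableEq L]

/-- complexification of an integer matrix -/
noncomputable def toC (A : Matrix K L (MonoidAlgebra ℤ G)) : Matrix K L (MonoidAlgebra ℂ G) :=
  A.map (MonoidAlgebra.mapRingHom G (Int.castRingHom ℂ))

theorem toC_coeff (A : Matrix K L (MonoidAlgebra ℤ G)) (i : K) (j : L) (h : G) :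
    (toC A i j).coeff h = (((A i j).coeff h : ℤ) : ℂ) := by
  simp [toC]

/-- **Integrality below the threshold.** -/
theorem kap_small (htf : ∀ g : G, ∀ n : ℕ, 0 < n → g ^ n = 1 → g = 1)
    (A : Matrix K L (MonoidAlgebra ℤ G)) (c : ℝ) (hc0 : 0 < c) (hc : c ^ 2 < 9 / 2)
    (hA : NormLE A c) : ∃ d : ℤ, kap (toC A) = d := by
  classical
  obtain ⟨ρ, u, C, hC, hst⟩ := structure_thm htf A c hc0 hc hA
  let D1 : Matrix K K (MonoidAlgebra ℂ G) :=
    Matrix.diagonal fun i => MonoidAlgebra.single (u (Sum.inl i)) 1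
  let D1' : Matrix K K (MonoidAlgebra ℂ G) :=
    Matrix.diagonal fun i => MonoidAlgebra.single (u (Sum.inl i))⁻¹ 1
  let D2 : Matrix L L (MonoidAlgebra ℂ G) :=
    Matrix.diagonal fun j => MonoidAlgebra.single (u (Sum.inr j))⁻¹ 1
  let D2' : Matrix L L (MonoidAlgebra ℂ G) :=
    Matrix.diagonal fun j => MonoidAlgebra.single (u (Sum.inr j)) 1
  have h1 : D1 * D1' = 1 := by
    simp only [D1, D1']
    rw [Matrix.diagonal_mul_diagonal, ← Matrix.diagonal_one]
    congr 1
    funext i
    rw [MonoidAlgebra.single_mul_single, mul_inv_cancel, mul_one, MonoidAlgebra.one_def]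
  have h2 : D2 * D2' = 1 := by
    simp only [D2, D2']
    rw [Matrix.diagonal_mul_diagonal, ← Matrix.diagonal_one]
    congr 1
    funext i
    rw [MonoidAlgebra.single_mul_single, inv_mul_cancel, mul_one, MonoidAlgebra.one_def]
  have hB : ∀ i j, (D1 * toC A * D2) i j = MonoidAlgebra.single (u (Sum.inl i)) 1 * toC A i j
      * MonoidAlgebra.single (u (Sum.inr j))⁻¹ 1 := by
    intro i j
    simp only [D1, D2]
    rw [Matrix.mul_diagonal, Matrix.diagonal_mul]
  have hBc : ∀ i j g, ((D1 * toC A * D2) i j).coeff g ≠ 0 →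
      ρ (Sum.inl i) = ρ (Sum.inr j) ∧ g ∈ C (ρ (Sum.inl i)) := by
    intro i j g hg
    rw [hB, MonoidAlgebra.coeff_mul_single_apply, MonoidAlgebra.coeff_single_mul_apply, one_mul,
      mul_one, inv_inv, toC_coeff] at hg
    have hg' : (A i j).coeff ((u (Sum.inl i))⁻¹ * (g * u (Sum.inr j))) ≠ 0 := by
      intro h; exact hg (by rw [h]; simp)
    have h1 := hst i j _ hg'
    refine ⟨h1.1, ?_⟩
    have h2 := h1.2
    have h3 : u (Sum.inl i) * ((u (Sum.inl i))⁻¹ * (g * u (Sum.inr j))) * (u (Sum.inr j))⁻¹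
        = g := by group
    rwa [h3] at h2
  have h3 : kap (D1 * toC A * D2) = kap (toC A) := by
    rw [kap_unit_right _ h2, kap_mul_left D1 (Rop_inj h1)]
  rw [← h3]
  apply kap_int htf (fun i => ρ (Sum.inl i)) (fun j => ρ (Sum.inr j)) C hC (Fintype.card K)
  · intro i j
    exact mem_SR_of _ _ fun g hg => (hBc i j g hg).2
  · intro i j h
    obtain ⟨g, hg⟩ : ∃ g, ((D1 * toC A * D2) i j).coeff g ≠ 0 := by
      by_contra hcon
      push Not at hcon
      apply h
      ext g
      exact hcon g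
    exact (hBc i j g hg).1
  · exact ⟨Finset.univ, le_rfl, fun i hi => absurd (Finset.mem_univ _) hi⟩

end int

end TH57.Thr.Ati
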