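import Mathlib

set_option autoImplicit false
set_option linter.style.haveILetI false

/-! A torsion-free group in which all nontrivial cyclic subgroups have finite index is cyclic. -/

namespace TH57.Thr

open Subgroup

theorem isCyclic_of_zpowers_finiteIndex {S : Type*} [Group S]
    (htf : ∀ g : S, ∀ n : ℕ, 0 < n → g ^ n = 1 → g = 1)
    (h : ∀ s : S, s ≠ 1 → (zpowers s).FiniteIndex) : IsCyclic S := by
  classical
  by_cases htriv : ∀ s : S, s = 1
  · exact ⟨⟨1, fun x => ⟨0, by rw [htriv x]; simp⟩⟩⟩
  push Not at htriv
  obtain ⟨s, hs⟩ := htriv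
  haveI := h s hs
  set N := (zpowers s).normalCore with hN
  haveI : N.FiniteIndex := inferInstance
  have hNle : N ≤ zpowers s := normalCore_le _
  have hnorm : N.Normal := normalCore_normal _
  have hNc : N ≤ center S := by
    intro x hx
    rw [mem_center_iff]
    intro g
    by_cases hg : g = 1
    · rw [hg]; simp
    haveI := h g hg
    obtain ⟨n, hn, _, hxn⟩ := Subgroup.exists_pow_mem_of_index_ne_zero
      (H := zpowers g) (FiniteIndex.index_ne_zero) x
    obtain ⟨k, hk⟩ := Subgroup.mem_zpowers_iff.1 hxn
    have h1 : g * x ^ n = x ^ n * g := by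
      rw [← hk]
      exact (Commute.refl g).zpow_right k
    have h2 : (g * x * g⁻¹) ^ n = x ^ n := by
      rw [conj_pow, h1, mul_inv_cancel_right]
    have h3 : g * x * g⁻¹ ∈ zpowers s := hNle (hnorm.conj_mem x hx g)
    have h4 : x ∈ zpowers s := hNle hx
    obtain ⟨p, hp⟩ := Subgroup.mem_zpowers_iff.1 h3
    obtain ⟨q, hq⟩ := Subgroup.mem_zpowers_iff.1 h4
    have h5 : Commute (g * x * g⁻¹) x⁻¹ := by
      rw [← hp, ← hq]
      exact ((Commute.refl s).zpow_left p).zpow_right q |>.inv_right
    have h6 : (g * x * g⁻¹ * x⁻¹) ^ n = 1 := by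
      rw [h5.mul_pow, h2, inv_pow, mul_inv_cancel]
    have h7 := htf _ n hn h6
    have h8 : g * x * g⁻¹ = x := by
      rw [mul_inv_eq_one] at h7
      exact h7
    rw [mul_inv_eq_iff_eq_mul] at h8
    exact h8
  haveI : (center S).FiniteIndex := Subgroup.finiteIndex_of_le hNc
  have hcomm : ∀ x y : S, x * y = y * x := by
    intro x y
    have h1 : MonoidHom.transferCenterPow S (x * y) = MonoidHom.transferCenterPow S (y * x) := by
      rw [map_mul, map_mul]
      apply Subtype.ext
      exact Subgroup.mem_center_iff.1 (MonoidHom.transferCenterPow S y).2 _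
    have h2 : (x * y) ^ (center S).index = (y * x) ^ (center S).index := by
      rw [← MonoidHom.transferCenterPow_apply, ← MonoidHom.transferCenterPow_apply, h1]
    -- both lie in the kernel quotient
    have h3 : MonoidHom.transferCenterPow S (x * y * (y * x)⁻¹) = 1 := by
      rw [map_mul, map_inv, h1, mul_inv_cancel]
    have h4 : (x * y * (y * x)⁻¹) ^ (center S).index = 1 := by
      rw [← MonoidHom.transferCenterPow_apply, h3]; rfl
    have h5 := htf _ _ (Nat.pos_of_ne_zero FiniteIndex.index_ne_zero) h4
    rwa [mul_inv_eq_one] at h5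
  letI : CommGroup S := { (inferInstance : Group S) with mul_comm := hcomm }
  set d := (zpowers s).index with hd
  have hd0 : 0 < d := Nat.pos_of_ne_zero FiniteIndex.index_ne_zero
  have hmem : ∀ x : S, x ^ d ∈ zpowers s := fun x => Subgroup.pow_index_mem (zpowers s) x
  let f : S →* zpowers s :=
    { toFun := fun x => ⟨x ^ d, hmem x⟩
      map_one' := by ext; simp
      map_mul' := fun x y => by ext; simp [mul_pow] }
  have hf : Function.Injective f := by
    rw [injective_iff_map_eq_one]
    intro x hx
    have : x ^ d = 1 := congrArg Subtype.val hx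
    exact htf x d hd0 this
  exact isCyclic_of_injective f hf

end TH57.Thr
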