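import Pool.Agent.H57.AL.TH57_Thr_Growth

set_option autoImplicit false
set_option linter.style.haveILetI false
set_option linter.unusedSectionVars false

/-! The operator norm of a matrix over an integral group ring and the graph of the matrix. -/

namespace TH57.Thr

open Matrix SimpleGraph

variable {G : Type*} [Group G] {ι κ : Type*}

/-- The squared `ℓ²`-norm of a finitely supported row vector. -/
noncomputable def normSq [Fintype ι] (x : ι → MonoidAlgebra ℝ G) : ℝ :=
  ∑ i, ∑ g ∈ (x i).coeff.support, (x i).coeff g ^ 2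

/-- The matrix over the real group ring. -/
noncomputable def toReal (A : Matrix ι κ (MonoidAlgebra ℤ G)) : Matrix ι κ (MonoidAlgebra ℝ G) :=
  A.map (MonoidAlgebra.mapRingHom G (Int.castRingHom ℝ))

/-- The norm of right multiplication by `A` from `ℓ²(G)^ι` to `ℓ²(G)^κ` is at most `|c|`
(formulated on the dense subspace of the finitely supported vectors). -/
def NormLE [Fintype ι] [Fintype κ] (A : Matrix ι κ (MonoidAlgebra ℤ G)) (c : ℝ) : Prop :=
  ∀ x : ι → MonoidAlgebra ℝ G, normSq (x ᵥ* toReal A) ≤ c ^ 2 * normSq x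

/-- one-coordinate square sum over any finite set containing the support -/
theorem sum_sq_of_support_subset (x : MonoidAlgebra ℝ G) (T : Finset G)
    (h : x.coeff.support ⊆ T) :
    ∑ g ∈ x.coeff.support, x.coeff g ^ 2 = ∑ g ∈ T, x.coeff g ^ 2 :=
  Finset.sum_subset h fun g _ hg => by rw [Finsupp.notMem_support_iff.1 hg]; ring

theorem sum_sq_le (x : MonoidAlgebra ℝ G) (T : Finset G) :
    ∑ g ∈ T, x.coeff g ^ 2 ≤ ∑ g ∈ x.coeff.support, x.coeff g ^ 2 := by
  classical
  calc ∑ g ∈ T, x.coeff g ^ 2 ≤ ∑ g ∈ T ∪ x.coeff.support, x.coeff g ^ 2 :=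
        Finset.sum_le_sum_of_subset_of_nonneg Finset.subset_union_left fun _ _ _ => sq_nonneg _
    _ = _ := (sum_sq_of_support_subset x _ Finset.subset_union_right).symm

/-- vertices: rows and columns, translated -/
abbrev Vx (G : Type*) (ι κ : Type*) := (G × ι) ⊕ (G × κ)

/-- weights -/
noncomputable def wt (A : Matrix ι κ (MonoidAlgebra ℤ G)) : Vx G ι κ → Vx G ι κ → ℝ
  | Sum.inl p, Sum.inr q => (((A p.2 q.2).coeff (p.1⁻¹ * q.1) : ℤ) : ℝ)
  | Sum.inr q, Sum.inl p => (((A p.2 q.2).coeff (p.1⁻¹ * q.1) : ℤ) : ℝ)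
  | Sum.inl _, Sum.inl _ => 0
  | Sum.inr _, Sum.inr _ => 0

theorem wt_symm (A : Matrix ι κ (MonoidAlgebra ℤ G)) (u v : Vx G ι κ) :
    wt A u v = wt A v u := by
  rcases u with p | q <;> rcases v with p' | q' <;> rfl

/-- the graph of the matrix -/
def gr (A : Matrix ι κ (MonoidAlgebra ℤ G)) : SimpleGraph (Vx G ι κ) where
  Adj u v := wt A u v ≠ 0
  symm := ⟨fun u v h => by rw [wt_symm]; exact h⟩
  loopless := ⟨fun u h => by rcases u with p | q <;> exact h rfl⟩

theorem gr_adj (A : Matrix ι κ (MonoidAlgebra ℤ G)) (u v : Vx G ι κ) :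
    (gr A).Adj u v ↔ wt A u v ≠ 0 := Iff.rfl

theorem one_le_abs_wt (A : Matrix ι κ (MonoidAlgebra ℤ G)) (u v : Vx G ι κ)
    (h : wt A u v ≠ 0) : 1 ≤ |wt A u v| := by
  have key : ∀ z : ℤ, (z : ℝ) ≠ 0 → 1 ≤ |(z : ℝ)| := by
    intro z hz
    have h1 : z ≠ 0 := by exact_mod_cast hz
    have h2 : 1 ≤ |z| := Int.one_le_abs h1
    exact_mod_cast h2
  rcases u with p | q <;> rcases v with p' | q'
  · exact absurd rfl h
  · exact key _ h
  · exact key _ h
  · exact absurd rfl h

/-- The bound of the quadratic form. -/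
theorem quad_bound [Fintype ι] [Fintype κ] [DecidableEq ι] [DecidableEq κ]
    (A : Matrix ι κ (MonoidAlgebra ℤ G)) (c : ℝ)
    (hc : 0 < c) (hA : NormLE A c) (s : Finset (Vx G ι κ)) (f : Vx G ι κ → ℝ) :
    ∑ u ∈ s, ∑ v ∈ s, wt A u v * f u * f v ≤ c * ∑ u ∈ s, f u ^ 2 := by
  classical
  set P := s.toLeft with hP
  set Q := s.toRight with hQ
  have hs : s = P.disjSum Q := Finset.toLeft_disjSum_toRight.symm
  -- the row vector
  let x : ι → MonoidAlgebra ℝ G := fun i =>
    ∑ p ∈ P, if p.2 = i then MonoidAlgebra.single p.1 (f (Sum.inl p)) else 0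
  have hxc : ∀ i g, (x i).coeff g = if (g, i) ∈ P then f (Sum.inl (g, i)) else 0 := by
    intro i g
    simp only [x]
    rw [MonoidAlgebra.coeff_sum, Finsupp.finsetSum_apply]
    split_ifs with h
    · rw [Finset.sum_eq_single (g, i)]
      · simp
      · rintro ⟨g', i'⟩ _ hne
        by_cases h1 : i' = i
        · subst h1
          have : g' ≠ g := fun h2 => hne (by rw [h2])
          simp [this]
        · simp [h1]
      · intro h1; exact absurd h h1
    · apply Finset.sum_eq_zero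
      rintro ⟨g', i'⟩ hmem
      by_cases h1 : i' = i
      · subst h1
        have : g' ≠ g := fun h2 => h (by rw [← h2]; exact hmem)
        simp [this]
      · simp [h1]
  have hnx : normSq x = ∑ p ∈ P, f (Sum.inl p) ^ 2 := by
    unfold normSq
    have h1 : ∀ i, ∑ g ∈ (x i).coeff.support, (x i).coeff g ^ 2
        = ∑ g ∈ P.image Prod.fst, (x i).coeff g ^ 2 := by
      intro i
      apply sum_sq_of_support_subset
      intro g hg
      rw [Finsupp.mem_support_iff, hxc] at hg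
      rw [Finset.mem_image]
      by_contra hcon
      apply hg
      rw [if_neg]
      intro h2
      exact hcon ⟨_, h2, rfl⟩
    rw [Finset.sum_congr rfl fun i _ => h1 i]
    simp only [hxc]
    rw [Finset.sum_comm, ← Finset.sum_product']
    have h2 : ∀ y : G × ι, (if (y.1, y.2) ∈ P then f (Sum.inl (y.1, y.2)) else 0) ^ 2
        = if y ∈ P then f (Sum.inl y) ^ 2 else 0 := by
      rintro ⟨g, i⟩
      simp only
      split_ifs <;> simp
    simp only [h2]
    rw [← Finset.sum_filter]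
    apply Finset.sum_congr _ fun _ _ => rfl
    ext ⟨g, i⟩
    simp only [Finset.mem_filter, Finset.mem_product, Finset.mem_image, Finset.mem_univ, and_true]
    constructor
    · exact fun h => h.2
    · exact fun h => ⟨⟨_, h, rfl⟩, h⟩
  have hz : ∀ q : G × κ, ((x ᵥ* toReal A) q.2).coeff q.1
      = ∑ p ∈ P, wt A (Sum.inl p) (Sum.inr q) * f (Sum.inl p) := by
    rintro ⟨k, j⟩
    simp only [Matrix.vecMul, dotProduct]
    rw [MonoidAlgebra.coeff_sum, Finsupp.finsetSum_apply]
    have h1 : ∀ i, (x i * toReal A i j).coeff k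
        = ∑ p ∈ P, if p.2 = i then wt A (Sum.inl p) (Sum.inr (k, j)) * f (Sum.inl p) else 0 := by
      intro i
      simp only [x]
      rw [Finset.sum_mul, MonoidAlgebra.coeff_sum, Finsupp.finsetSum_apply]
      refine Finset.sum_congr rfl fun p _ => ?_
      split_ifs with h
      · subst h
        rw [MonoidAlgebra.coeff_single_mul_apply]
        simp only [toReal, Matrix.map_apply, MonoidAlgebra.coeff_mapRingHom, wt]
        rw [mul_comm]
        rfl
      · simp
    simp only [h1]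
    rw [Finset.sum_comm]
    refine Finset.sum_congr rfl fun p _ => ?_
    simp
  -- the sum splits
  have hsum : ∑ u ∈ s, ∑ v ∈ s, wt A u v * f u * f v
      = 2 * ∑ q ∈ Q, ((x ᵥ* toReal A) q.2).coeff q.1 * f (Sum.inr q) := by
    rw [hs, Finset.sum_disjSum]
    simp only [Finset.sum_disjSum]
    have z1 : ∀ p p' : G × ι, wt A (Sum.inl p) (Sum.inl p') = 0 := fun _ _ => rfl
    have z2 : ∀ q q' : G × κ, wt A (Sum.inr q) (Sum.inr q') = 0 := fun _ _ => rfl
    simp only [z1, z2, zero_mul, Finset.sum_const_zero, zero_add, add_zero]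
    have e1 : ∑ p ∈ P, ∑ q ∈ Q, wt A (Sum.inl p) (Sum.inr q) * f (Sum.inl p) * f (Sum.inr q)
        = ∑ q ∈ Q, ((x ᵥ* toReal A) q.2).coeff q.1 * f (Sum.inr q) := by
      rw [Finset.sum_comm]
      refine Finset.sum_congr rfl fun q _ => ?_
      rw [hz, Finset.sum_mul]
    have e2 : ∑ q ∈ Q, ∑ p ∈ P, wt A (Sum.inr q) (Sum.inl p) * f (Sum.inr q) * f (Sum.inl p)
        = ∑ q ∈ Q, ((x ᵥ* toReal A) q.2).coeff q.1 * f (Sum.inr q) := by
      refine Finset.sum_congr rfl fun q _ => ?_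
      rw [hz, Finset.sum_mul]
      refine Finset.sum_congr rfl fun p _ => ?_
      rw [wt_symm]; ring
    rw [e1, e2]; ring
  rw [hsum]
  have hz2 : ∑ q ∈ Q, ((x ᵥ* toReal A) q.2).coeff q.1 ^ 2 ≤ normSq (x ᵥ* toReal A) := by
    unfold normSq
    calc ∑ q ∈ Q, ((x ᵥ* toReal A) q.2).coeff q.1 ^ 2
        ≤ ∑ q ∈ Q.image Prod.fst ×ˢ (Finset.univ : Finset κ),
            ((x ᵥ* toReal A) q.2).coeff q.1 ^ 2 := by
          apply Finset.sum_le_sum_of_subset_of_nonneg _ fun _ _ _ => sq_nonneg _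
          intro q hq
          rw [Finset.mem_product]
          exact ⟨Finset.mem_image_of_mem _ hq, Finset.mem_univ _⟩
      _ = ∑ j, ∑ g ∈ Q.image Prod.fst, ((x ᵥ* toReal A) j).coeff g ^ 2 := by
          rw [Finset.sum_product_right]
      _ ≤ _ := Finset.sum_le_sum fun j _ => sum_sq_le _ _
  have hnorm := hA x
  have hterm : ∀ q ∈ Q, 2 * (((x ᵥ* toReal A) q.2).coeff q.1 * f (Sum.inr q))
      ≤ c⁻¹ * ((x ᵥ* toReal A) q.2).coeff q.1 ^ 2 + c * f (Sum.inr q) ^ 2 := by
    intro q _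
    set a := ((x ᵥ* toReal A) q.2).coeff q.1
    set b := f (Sum.inr q)
    have h1 : 0 ≤ c⁻¹ * (a - c * b) ^ 2 := mul_nonneg (inv_nonneg.2 hc.le) (sq_nonneg _)
    have h2 : c⁻¹ * (a - c * b) ^ 2 = c⁻¹ * a ^ 2 + c * b ^ 2 - 2 * (a * b) := by
      field_simp
      ring
    linarith
  rw [Finset.mul_sum]
  refine (Finset.sum_le_sum hterm).trans ?_
  rw [Finset.sum_add_distrib, ← Finset.mul_sum, ← Finset.mul_sum]
  have h3 : c⁻¹ * ∑ q ∈ Q, ((x ᵥ* toReal A) q.2).coeff q.1 ^ 2 ≤ c * ∑ p ∈ P, f (Sum.inl p) ^ 2 := by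
    rw [← hnx]
    calc c⁻¹ * ∑ q ∈ Q, ((x ᵥ* toReal A) q.2).coeff q.1 ^ 2
        ≤ c⁻¹ * (c ^ 2 * normSq x) :=
          mul_le_mul_of_nonneg_left (hz2.trans hnorm) (inv_nonneg.2 hc.le)
      _ = c * normSq x := by field_simp
  have h4 : ∑ u ∈ s, f u ^ 2 = ∑ p ∈ P, f (Sum.inl p) ^ 2 + ∑ q ∈ Q, f (Sum.inr q) ^ 2 := by
    rw [hs, Finset.sum_disjSum]
  rw [h4, mul_add]
  linarith

end TH57.Thr
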