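import Pool.Agent.H57.AL.TH57_Thr_Defs

set_option autoImplicit false
set_option linter.style.haveILetI false
set_option linter.unusedSectionVars false

/-! Every matrix over an integral group ring is stably equivalent to one of norm close to
`3 / √2`. -/

namespace TH57.Thr

open Matrix

section n1

variable {G : Type*} [Group G]

/-- squared norm of one coordinate -/
noncomputable def n1 (y : MonoidAlgebra ℝ G) : ℝ := ∑ g ∈ y.coeff.support, y.coeff g ^ 2

theorem n1_nonneg (y : MonoidAlgebra ℝ G) : 0 ≤ n1 y := Finset.sum_nonneg fun _ _ => sq_nonneg _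

theorem n1_eq (y : MonoidAlgebra ℝ G) (T : Finset G) (h : y.coeff.support ⊆ T) :
    n1 y = ∑ g ∈ T, y.coeff g ^ 2 := sum_sq_of_support_subset y T h

theorem n1_zero : n1 (0 : MonoidAlgebra ℝ G) = 0 := by simp [n1]

theorem n1_neg (y : MonoidAlgebra ℝ G) : n1 (-y) = n1 y := by
  classical
  have h : (-y).coeff = -y.coeff := rfl
  unfold n1
  rw [h, Finsupp.support_neg]
  exact Finset.sum_congr rfl fun g _ => by simp

theorem n1_add_le (a b : MonoidAlgebra ℝ G) (α : ℝ) (hα : 0 < α) :
    n1 (a + b) ≤ (1 + α) * n1 a + (1 + α⁻¹) * n1 b := by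
  classical
  set T := a.coeff.support ∪ b.coeff.support with hT
  have hs : (a + b).coeff.support ⊆ T := Finsupp.support_add
  rw [n1_eq _ T hs, n1_eq a T Finset.subset_union_left, n1_eq b T Finset.subset_union_right,
    Finset.mul_sum, Finset.mul_sum, ← Finset.sum_add_distrib]
  refine Finset.sum_le_sum fun g _ => ?_
  rw [MonoidAlgebra.coeff_add, Finsupp.add_apply]
  set p := a.coeff g
  set q := b.coeff g
  have h1 : 0 ≤ α⁻¹ * (α * p - q) ^ 2 := mul_nonneg (inv_nonneg.2 hα.le) (sq_nonneg _)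
  have h2 : α⁻¹ * (α * p - q) ^ 2 = α * p ^ 2 + α⁻¹ * q ^ 2 - 2 * (p * q) := by
    field_simp
    ring
  nlinarith

theorem n1_mul_single (y : MonoidAlgebra ℝ G) (g : G) :
    n1 (y * MonoidAlgebra.single g 1) = n1 y := by
  classical
  have hs : (y * MonoidAlgebra.single g (1 : ℝ)).coeff.support
      ⊆ y.coeff.support.image (fun h => h * g) := by
    intro h hh
    rw [Finsupp.mem_support_iff, MonoidAlgebra.coeff_mul_single_apply, mul_one] at hh
    rw [Finset.mem_image]
    exact ⟨h * g⁻¹, Finsupp.mem_support_iff.2 hh, by simp⟩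
  rw [n1_eq _ _ hs, Finset.sum_image (fun a _ b _ h => mul_right_cancel h)]
  unfold n1
  refine Finset.sum_congr rfl fun h _ => ?_
  rw [MonoidAlgebra.coeff_mul_single_apply, mul_one, mul_inv_cancel_right]

end n1

variable {G : Type} [Group G]

section norms

variable {ι κ μ : Type} [Fintype ι] [Fintype κ] [Fintype μ]

theorem normSq_eq (x : ι → MonoidAlgebra ℝ G) : normSq x = ∑ i, n1 (x i) := rfl

theorem normSq_nonneg (x : ι → MonoidAlgebra ℝ G) : 0 ≤ normSq x :=
  Finset.sum_nonneg fun _ _ => n1_nonneg _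

theorem normSq_sum (x : ι ⊕ κ → MonoidAlgebra ℝ G) :
    normSq x = normSq (x ∘ Sum.inl) + normSq (x ∘ Sum.inr) := by
  rw [normSq_eq, Fintype.sum_sum_type]; rfl

theorem normSq_elim (x : ι → MonoidAlgebra ℝ G) (y : κ → MonoidAlgebra ℝ G) :
    normSq (Sum.elim x y) = normSq x + normSq y := by
  rw [normSq_sum]; rfl

theorem normSq_add_le (x y : ι → MonoidAlgebra ℝ G) (α : ℝ) (hα : 0 < α) :
    normSq (x + y) ≤ (1 + α) * normSq x + (1 + α⁻¹) * normSq y := by
  rw [normSq_eq, normSq_eq, normSq_eq, Finset.mul_sum, Finset.mul_sum, ← Finset.sum_add_distrib]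
  exact Finset.sum_le_sum fun i _ => n1_add_le _ _ α hα

theorem normSq_neg (x : ι → MonoidAlgebra ℝ G) : normSq (-x) = normSq x := by
  rw [normSq_eq, normSq_eq]
  exact Finset.sum_congr rfl fun i _ => n1_neg _

/-- the squared norm is at most `w` -/
def NS (P : Matrix ι κ (MonoidAlgebra ℤ G)) (w : ℝ) : Prop :=
  ∀ x : ι → MonoidAlgebra ℝ G, normSq (x ᵥ* toReal P) ≤ w * normSq x

theorem toReal_mul (A : Matrix ι κ (MonoidAlgebra ℤ G)) (B : Matrix κ μ (MonoidAlgebra ℤ G)) :
    toReal (A * B) = toReal A * toReal B := Matrix.map_mul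

theorem toReal_zero : toReal (0 : Matrix ι κ (MonoidAlgebra ℤ G)) = 0 := by
  ext i j; simp [toReal]

theorem toReal_one [DecidableEq ι] : toReal (1 : Matrix ι ι (MonoidAlgebra ℤ G)) = 1 := by
  unfold toReal
  rw [Matrix.map_one _ (map_zero _) (map_one _)]

theorem toReal_neg (A : Matrix ι κ (MonoidAlgebra ℤ G)) : toReal (-A) = -toReal A := by
  ext i j; simp [toReal]

theorem toReal_fromBlocks {ι' κ' : Type} (A : Matrix ι κ (MonoidAlgebra ℤ G))
    (B : Matrix ι κ' (MonoidAlgebra ℤ G)) (C : Matrix ι' κ (MonoidAlgebra ℤ G))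
    (D : Matrix ι' κ' (MonoidAlgebra ℤ G)) :
    toReal (fromBlocks A B C D) = fromBlocks (toReal A) (toReal B) (toReal C) (toReal D) :=
  Matrix.fromBlocks_map _ _ _ _ _

theorem NS_one [DecidableEq ι] : NS (1 : Matrix ι ι (MonoidAlgebra ℤ G)) 1 := by
  intro x
  rw [toReal_one, Matrix.vecMul_one, one_mul]

theorem NS_mono {P : Matrix ι κ (MonoidAlgebra ℤ G)} {w w' : ℝ} (h : NS P w) (hw : w ≤ w') :
    NS P w' := fun x => (h x).trans (mul_le_mul_of_nonneg_right hw (normSq_nonneg x))

end norms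

/-- products of elementary matrices -/
def El {R : Type} [Ring R] (κ : Type) [Fintype κ] [DecidableEq κ] : Submonoid (Matrix κ κ R) :=
  Submonoid.closure {M | ∃ i j : κ, i ≠ j ∧ ∃ a : R, M = 1 + Matrix.single i j a}

section el

variable {R : Type} [Ring R] {κ μ : Type} [Fintype κ] [DecidableEq κ] [Fintype μ] [DecidableEq μ]

theorem el_transv (i j : κ) (h : i ≠ j) (a : R) : 1 + Matrix.single i j a ∈ El (R := R) κ :=
  Submonoid.subset_closure ⟨i, j, h, a, rfl⟩

/-- A sum of off-diagonal matrices with rows in one set and columns in the complement. -/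
theorem el_unip (s : Finset κ) (Z : Matrix κ κ R)
    (hZ : ∀ i j, Z i j ≠ 0 → i ∈ s ∧ j ∉ s) : 1 + Z ∈ El (R := R) κ := by
  classical
  -- induction on a set of positions
  have key : ∀ T : Finset (κ × κ), (∀ p ∈ T, p.1 ∈ s ∧ p.2 ∉ s) →
      1 + ∑ p ∈ T, Matrix.single p.1 p.2 (Z p.1 p.2) ∈ El (R := R) κ := by
    intro T
    induction T using Finset.induction_on with
    | empty => intro _; simp [one_mem]
    | insert p T hp ih =>
      intro hT
      have h1 := ih fun q hq => hT q (Finset.mem_insert_of_mem hq)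
      have h2 := hT p (Finset.mem_insert_self _ _)
      have h3 : p.1 ≠ p.2 := fun h => h2.2 (h ▸ h2.1)
      have h4 := mul_mem (el_transv (R := R) p.1 p.2 h3 (Z p.1 p.2)) h1
      have h5 : (1 + Matrix.single p.1 p.2 (Z p.1 p.2))
          * (1 + ∑ q ∈ T, Matrix.single q.1 q.2 (Z q.1 q.2))
          = 1 + ∑ q ∈ insert p T, Matrix.single q.1 q.2 (Z q.1 q.2) := by
        rw [Finset.sum_insert hp]
        rw [add_mul, mul_add, mul_add, one_mul, one_mul, mul_one, Finset.mul_sum]
        have h6 : ∑ q ∈ T, Matrix.single p.1 p.2 (Z p.1 p.2) * Matrix.single q.1 q.2 (Z q.1 q.2)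
            = 0 := by
          refine Finset.sum_eq_zero fun q hq => ?_
          have h7 := hT q (Finset.mem_insert_of_mem hq)
          have h8 : p.2 ≠ q.1 := fun h => h2.2 (h ▸ h7.1)
          exact Matrix.single_mul_single_of_ne _ _ _ _ h8 _
        rw [h6]
        abel
      rw [h5] at h4
      exact h4
  have h := key (Finset.univ.filter fun p : κ × κ => p.1 ∈ s ∧ p.2 ∉ s) fun p hp =>
    (Finset.mem_filter.1 hp).2
  have h2 : ∑ p ∈ Finset.univ.filter (fun p : κ × κ => p.1 ∈ s ∧ p.2 ∉ s),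
      Matrix.single p.1 p.2 (Z p.1 p.2) = Z := by
    conv_rhs => rw [Matrix.matrix_eq_sum_single Z]
    rw [← Finset.sum_product', Finset.univ_product_univ]
    apply Finset.sum_subset (Finset.filter_subset _ _)
    intro p _ hp
    rw [Finset.mem_filter, not_and] at hp
    have h3 : Z p.1 p.2 = 0 := by
      by_contra h4
      exact hp (Finset.mem_univ _) (hZ _ _ h4)
    rw [h3, Matrix.single_zero]
  rwa [h2] at h

theorem el_ext (F : Matrix κ κ R) (hF : F ∈ El (R := R) κ) :
    fromBlocks F 0 0 (1 : Matrix μ μ R) ∈ El (R := R) (κ ⊕ μ) := by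
  induction hF using Submonoid.closure_induction with
  | mem x hx =>
    obtain ⟨i, j, hij, a, rfl⟩ := hx
    have : fromBlocks (1 + Matrix.single i j a) 0 0 (1 : Matrix μ μ R)
        = 1 + Matrix.single (Sum.inl i) (Sum.inl j) a := by
      ext (k | k) (l | l)
      · simp [Matrix.one_apply, Matrix.single_apply]
      · simp
      · simp
      · simp [Matrix.one_apply]
    rw [this]
    exact el_transv _ _ (fun h => hij (Sum.inl_injective h)) a
  | one => rw [Matrix.fromBlocks_one]; exact one_mem _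
  | mul x y _ _ hx hy =>
    have : fromBlocks (x * y) 0 0 (1 : Matrix μ μ R)
        = fromBlocks x 0 0 1 * fromBlocks y 0 0 1 := by
      rw [Matrix.fromBlocks_multiply]; simp
    rw [this]
    exact mul_mem hx hy

theorem el_reindex (e : μ ≃ κ) (F : Matrix κ κ R) (hF : F ∈ El (R := R) κ) :
    F.submatrix e e ∈ El (R := R) μ := by
  induction hF using Submonoid.closure_induction with
  | mem x hx =>
    obtain ⟨i, j, hij, a, rfl⟩ := hx
    have : (1 + Matrix.single i j a).submatrix e e
        = 1 + Matrix.single (e.symm i) (e.symm j) a := by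
      ext k l
      simp only [submatrix_apply, Matrix.add_apply, Matrix.one_apply, Matrix.single_apply,
        e.injective.eq_iff, Equiv.symm_apply_eq]
    rw [this]
    exact el_transv _ _ (fun h => hij (e.symm.injective h)) a
  | one => rw [Matrix.submatrix_one_equiv]; exact one_mem _
  | mul x y _ _ hx hy =>
    have : (x * y).submatrix e e = x.submatrix e e * y.submatrix e e := by
      rw [Matrix.submatrix_mul_equiv]
    rw [this]
    exact mul_mem hx hy

end el

/-- `B` has a stably equivalent model with weighted norm bounds. -/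
def Good (s b : ℝ) {p n : Type} [Fintype p] [Fintype n] [DecidableEq p] [DecidableEq n]
    (B : Matrix p n (MonoidAlgebra ℤ G)) : Prop :=
  ∃ (q : Type) (_ : Fintype q) (_ : DecidableEq q) (X : Matrix p q (MonoidAlgebra ℤ G))
    (F : Matrix (n ⊕ q) (n ⊕ q) (MonoidAlgebra ℤ G)), F ∈ El (n ⊕ q) ∧ 3 ≤ Fintype.card q ∧
    ∀ x : p ⊕ q → MonoidAlgebra ℝ G,
      normSq (x ᵥ* toReal (fromBlocks B X (0 : Matrix q n (MonoidAlgebra ℤ G)) 1 * F))
      ≤ b * normSq (x ∘ Sum.inl) + s * normSq (x ∘ Sum.inr)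

section good

variable {m p n : Type} [Fintype m] [Fintype p] [Fintype n] [DecidableEq m] [DecidableEq p]
  [DecidableEq n]

theorem Good.mono {s b b' : ℝ} {B : Matrix p n (MonoidAlgebra ℤ G)} (h : Good s b B)
    (hb : b ≤ b') : Good s b' B := by
  obtain ⟨q, i1, i2, X, F, hF, hq, hx⟩ := h
  exact ⟨q, i1, i2, X, F, hF, hq, fun x => (hx x).trans (add_le_add_left
    (mul_le_mul_of_nonneg_right hb (normSq_nonneg _)) _)⟩

theorem good_base {s : ℝ} (hs : 1 ≤ s) (B : Matrix p n (MonoidAlgebra ℤ G)) (w : ℝ)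
    (hB : NS B w) : Good s w B := by
  refine ⟨Fin 3, inferInstance, inferInstance, 0, 1, one_mem _, by simp, fun x => ?_⟩
  rw [Matrix.mul_one, toReal_fromBlocks, toReal_zero, toReal_zero, toReal_one]
  have h1 : x ᵥ* fromBlocks (toReal B) 0 0 (1 : Matrix (Fin 3) (Fin 3) (MonoidAlgebra ℝ G))
      = Sum.elim ((x ∘ Sum.inl) ᵥ* toReal B) (x ∘ Sum.inr) := by
    conv_lhs => rw [← Sum.elim_comp_inl_inr x]
    rw [Matrix.vecMul_fromBlocks]
    simp
  rw [h1, normSq_elim]
  have h2 := hB (x ∘ Sum.inl)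
  have h3 := normSq_nonneg (x ∘ Sum.inr : Fin 3 → MonoidAlgebra ℝ G)
  nlinarith

theorem good_mul {s b w : ℝ} (hb : b < s - 1) (P : Matrix m p (MonoidAlgebra ℤ G))
    (hP : NS P w) (B : Matrix p n (MonoidAlgebra ℤ G)) (h : Good s b B) :
    Good s (w * (1 + (s - 1 - b)⁻¹)) (P * B) := by
  obtain ⟨q, i1, i2, X, F, hF, hq, hx⟩ := h
  set B' : Matrix (p ⊕ q) (n ⊕ q) (MonoidAlgebra ℤ G) :=
    fromBlocks B X (0 : Matrix q n (MonoidAlgebra ℤ G)) 1 * F with hB'
  -- the new data
  let X' : Matrix m (p ⊕ q) (MonoidAlgebra ℤ G) := fromCols (-P) (P * X)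
  let σ : (n ⊕ (p ⊕ q)) ≃ ((n ⊕ q) ⊕ p) :=
    { toFun := Sum.elim (fun i => Sum.inl (Sum.inl i))
        (Sum.elim Sum.inr (fun l => Sum.inl (Sum.inr l)))
      invFun := Sum.elim (Sum.elim Sum.inl (fun l => Sum.inr (Sum.inr l)))
        (fun k => Sum.inr (Sum.inl k))
      left_inv := by rintro (i | i | i) <;> rfl
      right_inv := by rintro ((i | i) | i) <;> rfl }
  let Fe : Matrix (n ⊕ (p ⊕ q)) (n ⊕ (p ⊕ q)) (MonoidAlgebra ℤ G) :=
    (fromBlocks F 0 0 (1 : Matrix p p (MonoidAlgebra ℤ G))).submatrix σ σ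
  have hFe : Fe ∈ El (R := MonoidAlgebra ℤ G) (n ⊕ (p ⊕ q)) := el_reindex σ _ (el_ext F hF)
  let Z : Matrix (n ⊕ (p ⊕ q)) (n ⊕ (p ⊕ q)) (MonoidAlgebra ℤ G) :=
    fromBlocks 0 0 (fromRows B 0) (fromBlocks 0 X 0 0)
  have hT : 1 + Z ∈ El (R := MonoidAlgebra ℤ G) (n ⊕ (p ⊕ q)) := by
    apply el_unip (Finset.univ.filter fun v : n ⊕ (p ⊕ q) =>
      ∃ k : p, v = Sum.inr (Sum.inl k)) Z
    rintro (i | i | i) (j | j | j) h <;> simp [Z] at h ⊢
  -- the new model
  let W : Matrix (m ⊕ (p ⊕ q)) (n ⊕ (p ⊕ q)) (MonoidAlgebra ℤ G) :=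
    fromBlocks 0 (fromCols (-P) 0) (fromRows B 0) (fromBlocks 1 X 0 1)
  have hW : fromBlocks (P * B) X' 0 1 * (1 + Z) = W := by
    ext (i | i | i) (j | j | j) <;>
      simp [W, Z, X', Matrix.mul_apply, Fintype.sum_sum_type, Matrix.one_apply, mul_add,
        Finset.sum_add_distrib]
  let B'' : Matrix (m ⊕ (p ⊕ q)) (n ⊕ (p ⊕ q)) (MonoidAlgebra ℤ G) :=
    fromBlocks 0 (fromCols (-P) 0) (B'.submatrix id Sum.inl)
      (fromCols ((1 : Matrix (p ⊕ q) (p ⊕ q) (MonoidAlgebra ℤ G)).submatrix id Sum.inl)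
        (B'.submatrix id Sum.inr))
  have hB'' : W * Fe = B'' := by
    ext (i | i | i) (j | j | j) <;>
      simp [W, Fe, B'', B', σ, Matrix.mul_apply, Fintype.sum_sum_type, Matrix.one_apply]
  refine ⟨p ⊕ q, inferInstance, inferInstance, X', (1 + Z) * Fe, mul_mem hT hFe, ?_, fun x => ?_⟩
  · rw [Fintype.card_sum]; omega
  · rw [← Matrix.mul_assoc, hW, hB'']
    set y : p ⊕ q → MonoidAlgebra ℝ G := x ∘ Sum.inr with hy
    set x0 : m → MonoidAlgebra ℝ G := x ∘ Sum.inl with hx0
    have e1 : normSq (x ᵥ* toReal B'') = normSq (y ᵥ* toReal B')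
        + normSq (y ∘ Sum.inl + -(x0 ᵥ* toReal P)) := by
      have v1 : x ᵥ* toReal B'' = Sum.elim (fun j => (y ᵥ* toReal B') (Sum.inl j))
          (Sum.elim (y ∘ Sum.inl + -(x0 ᵥ* toReal P)) (fun l => (y ᵥ* toReal B') (Sum.inr l))) := by
        funext j
        simp only [Matrix.vecMul, dotProduct, Fintype.sum_sum_type]
        rcases j with j | j | j
        · simp [B'', toReal, hy]
        · simp [B'', toReal, Matrix.vecMul, dotProduct, hy, hx0,
            Matrix.one_apply, add_comm]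
        · simp [B'', toReal, hy]
      rw [v1, normSq_elim, normSq_elim]
      have v2 : normSq (y ᵥ* toReal B') = normSq (fun j => (y ᵥ* toReal B') (Sum.inl j))
          + normSq (fun l => (y ᵥ* toReal B') (Sum.inr l)) := normSq_sum _
      rw [v2]
      ring
    have h1 := hx y
    have hα : 0 < s - 1 - b := by linarith
    have h2 := normSq_add_le (y ∘ Sum.inl) (-(x0 ᵥ* toReal P)) (s - 1 - b) hα
    rw [normSq_neg] at h2
    have h3 := hP x0
    have h4 : normSq y = normSq (y ∘ Sum.inl) + normSq (y ∘ Sum.inr) := normSq_sum y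
    have h5 : (1 + (s - 1 - b)⁻¹) * normSq (x0 ᵥ* toReal P)
        ≤ (1 + (s - 1 - b)⁻¹) * (w * normSq x0) :=
      mul_le_mul_of_nonneg_left h3 (by positivity)
    rw [e1, h4]
    nlinarith

theorem good_reduce {s : ℝ} (hs : 9 / 2 < s) (B : Matrix p n (MonoidAlgebra ℤ G))
    (h : Good s 3 B) : Good s (3 / 2) B := by
  set δ : ℝ := (s - 9 / 2) / 2 / (s - 5 / 2) with hδ
  have hδ0 : 0 < δ := div_pos (by linarith) (by linarith)
  have key : ∀ k : ℕ, ∀ b : ℝ, b ≤ 3 → b ≤ 3 / 2 + k * δ → Good s b B → Good s (3 / 2) B := by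
    intro k
    induction k with
    | zero =>
      intro b _ hb hB
      refine hB.mono ?_
      simpa using hb
    | succ k ih =>
      intro b hb3 hb hB
      by_cases hb2 : b ≤ 3 / 2
      · exact hB.mono hb2
      push Not at hb2
      have h1 := good_mul (s := s) (b := b) (w := 1) (by linarith) 1 NS_one B hB
      rw [Matrix.one_mul] at h1
      have h2 : 1 * (1 + (s - 1 - b)⁻¹) ≤ b - δ := by
        have h3 : 0 < s - 1 - b := by linarith
        have h4 : δ * (s - 1 - b) ≤ (s - 9 / 2) / 2 := by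
          have h5 : δ * (s - 5 / 2) = (s - 9 / 2) / 2 := by
            rw [hδ, div_mul_cancel₀ _ (show s - 5 / 2 ≠ 0 by linarith)]
          have h6 : δ * (s - 1 - b) ≤ δ * (s - 5 / 2) :=
            mul_le_mul_of_nonneg_left (by linarith) hδ0.le
          linarith
        have h7 : (s - 1 - b)⁻¹ ≤ b - 1 - δ := by
          rw [inv_le_iff_one_le_mul₀ h3]
          nlinarith [mul_nonneg (sub_nonneg.2 hb3) (sub_nonneg.2 hb2.le)]
        linarith
      refine ih _ (by linarith) ?_ h1
      push_cast at hb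
      linarith
  obtain ⟨k, hk⟩ := exists_nat_ge ((3 - 3 / 2) / δ)
  refine key k 3 le_rfl ?_ h
  rw [div_le_iff₀ hδ0] at hk
  linarith

theorem good_mul2 {s : ℝ} (hs : 9 / 2 < s) (P : Matrix m p (MonoidAlgebra ℤ G)) (hP : NS P 2)
    (B : Matrix p n (MonoidAlgebra ℤ G)) (h : Good s (3 / 2) B) : Good s (3 / 2) (P * B) := by
  apply good_reduce hs
  refine (good_mul (s := s) (b := 3 / 2) (w := 2) (by linarith) P hP B h).mono ?_
  have h1 : (s - 1 - 3 / 2)⁻¹ ≤ 1 / 2 := by
    rw [inv_le_comm₀ (by linarith) (by norm_num)]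
    linarith
  linarith

end good

/-- `B` is a product of `k + 1` matrices of squared norm at most two. -/
def Pr : ℕ → ∀ (p n : Type) [Fintype p] [Fintype n], Matrix p n (MonoidAlgebra ℤ G) → Prop
  | 0, _, _, _, _, B => NS B 2
  | k + 1, p, n, _, _, B => ∃ (r : Type) (_ : Fintype r) (_ : DecidableEq r)
      (P : Matrix p r (MonoidAlgebra ℤ G)) (C : Matrix r n (MonoidAlgebra ℤ G)),
      NS P 2 ∧ Pr k r n C ∧ B = P * C

theorem Pr_good {s : ℝ} (hs : 9 / 2 < s) : ∀ (k : ℕ) (p n : Type) [Fintype p] [Fintype n]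
    [DecidableEq p] [DecidableEq n] (B : Matrix p n (MonoidAlgebra ℤ G)), Pr k p n B →
    Good s (3 / 2) B := by
  intro k
  induction k with
  | zero =>
    intro p n _ _ _ _ B h
    exact good_reduce hs B ((good_base (by linarith) B 2 h).mono (by norm_num))
  | succ k ih =>
    intro p n _ _ _ _ B h
    obtain ⟨r, i1, i2, P, C, hP, hC, rfl⟩ := h
    exact good_mul2 hs P hP C (ih r n C hC)

theorem Pr_mul : ∀ (k : ℕ) (p n l : Type) [Fintype p] [Fintype n] [Fintype l]
    [DecidableEq n] (B : Matrix p n (MonoidAlgebra ℤ G)) (Q : Matrix n l (MonoidAlgebra ℤ G)),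
    Pr k p n B → NS Q 2 → Pr (k + 1) p l (B * Q) := by
  intro k
  induction k with
  | zero =>
    intro p n l _ _ _ _ B Q h hQ
    exact ⟨n, inferInstance, inferInstance, B, Q, h, hQ, rfl⟩
  | succ k ih =>
    intro p n l _ _ _ _ B Q h hQ
    obtain ⟨r, i1, i2, P, C, hP, hC, rfl⟩ := h
    exact ⟨r, i1, i2, P, C * Q, hP, ih r n l C Q hC hQ, Matrix.mul_assoc _ _ _⟩

theorem NS_ext {p n r : Type} [Fintype p] [Fintype n] [Fintype r] [DecidableEq r]
    (B : Matrix p n (MonoidAlgebra ℤ G)) (h : NS B 2) :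
    NS (fromBlocks B 0 0 (1 : Matrix r r (MonoidAlgebra ℤ G))) 2 := by
  intro x
  rw [toReal_fromBlocks, toReal_zero, toReal_zero, toReal_one]
  have h1 : x ᵥ* fromBlocks (toReal B) 0 0 (1 : Matrix r r (MonoidAlgebra ℝ G))
      = Sum.elim ((x ∘ Sum.inl) ᵥ* toReal B) (x ∘ Sum.inr) := by
    conv_lhs => rw [← Sum.elim_comp_inl_inr x]
    rw [Matrix.vecMul_fromBlocks]
    simp
  rw [h1, normSq_elim, normSq_sum x]
  have h2 := h (x ∘ Sum.inl)
  have h3 := normSq_nonneg (x ∘ Sum.inr : r → MonoidAlgebra ℝ G)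
  linarith

theorem Pr_ext : ∀ (k : ℕ) (p n r : Type) [Fintype p] [Fintype n] [Fintype r] [DecidableEq r]
    (B : Matrix p n (MonoidAlgebra ℤ G)), Pr k p n B →
    Pr k (p ⊕ r) (n ⊕ r) (fromBlocks B 0 0 (1 : Matrix r r (MonoidAlgebra ℤ G))) := by
  intro k
  induction k with
  | zero =>
    intro p n r _ _ _ _ B h
    exact NS_ext B h
  | succ k ih =>
    intro p n r _ _ _ _ B h
    obtain ⟨t, i1, i2, P, C, hP, hC, rfl⟩ := h
    refine ⟨t ⊕ r, inferInstance, inferInstance, fromBlocks P 0 0 1, fromBlocks C 0 0 1,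
      NS_ext P hP, ih t n r C hC, ?_⟩
    rw [Matrix.fromBlocks_multiply]; simp

section add

variable {p n : Type} [Fintype p] [Fintype n] [DecidableEq p] [DecidableEq n]

theorem Pr_add (k : ℕ) (B : Matrix p n (MonoidAlgebra ℤ G)) (h : Pr k p n B) (i : p) (j : n)
    (g : G) (ε : ℤ) (hε : ε = 1 ∨ ε = -1) :
    Pr (k + 2) p n (B + Matrix.single i j (MonoidAlgebra.single g ε)) := by
  set a : MonoidAlgebra ℤ G := MonoidAlgebra.single g ε with ha
  let C1 : Matrix p (p ⊕ Unit) (MonoidAlgebra ℤ G) := fromCols 1 (fun k _ => if k = i then 1 else 0)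
  let C2 : Matrix (n ⊕ Unit) n (MonoidAlgebra ℤ G) := fromRows 1 (fun _ l => if l = j then a else 0)
  have hC1l : ∀ k l, C1 k (Sum.inl l) = if k = l then 1 else 0 := fun k l => Matrix.one_apply
  have hC1r : ∀ k l, C1 k (Sum.inr l) = if k = i then 1 else 0 := fun k l => rfl
  have hC2l : ∀ k l, C2 (Sum.inl k) l = if k = l then 1 else 0 := fun k l => Matrix.one_apply
  have hC2r : ∀ k l, C2 (Sum.inr k) l = if l = j then a else 0 := fun k l => rfl
  have hC1 : NS C1 2 := by
    intro x
    have h1 : x ᵥ* toReal C1 = Sum.elim x (fun _ => x i) := by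
      funext l
      rcases l with l | l
      · simp [toReal, Matrix.vecMul, dotProduct, hC1l, apply_ite]
      · simp [toReal, Matrix.vecMul, dotProduct, hC1r, apply_ite]
    rw [h1, normSq_elim]
    have h2 : normSq (fun _ : Unit => x i) ≤ normSq x := by
      rw [normSq_eq, normSq_eq]
      simp only [Finset.univ_unique, Finset.sum_const, Finset.card_singleton, one_smul]
      exact Finset.single_le_sum (f := fun i => n1 (x i)) (fun _ _ => n1_nonneg _)
        (Finset.mem_univ i)
    linarith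
  have hC2 : NS C2 2 := by
    intro x
    have h1 : x ᵥ* toReal C2 = (x ∘ Sum.inl)
        + (fun l => if l = j then x (Sum.inr ()) * MonoidAlgebra.mapRingHom G (Int.castRingHom ℝ) a
            else 0) := by
      funext l
      simp only [toReal, Matrix.vecMul, dotProduct, Fintype.sum_sum_type, Matrix.map_apply, hC2l,
        hC2r, apply_ite, map_one, map_zero, mul_one, mul_zero, Finset.sum_ite_eq',
        Finset.mem_univ, if_true, Pi.add_apply, Function.comp_apply, Finset.univ_unique,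
        Finset.sum_singleton]
      by_cases hl : l = j
      · simp [hl]
      · simp [hl]
    have h3 : normSq (fun l => if l = j then
        x (Sum.inr ()) * MonoidAlgebra.mapRingHom G (Int.castRingHom ℝ) a else 0)
        = n1 (x (Sum.inr ())) := by
      rw [normSq_eq]
      rw [Finset.sum_eq_single j]
      · rw [if_pos rfl, ha, MonoidAlgebra.mapRingHom_single]
        rcases hε with rfl | rfl
        · simp only [eq_intCast, Int.cast_one]
          exact n1_mul_single _ _
        · have : MonoidAlgebra.single g ((Int.castRingHom ℝ) (-1)) = -MonoidAlgebra.single g (1:ℝ) := by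
            rw [← MonoidAlgebra.single_neg]; simp
          rw [this, mul_neg, n1_neg]
          exact n1_mul_single _ _
      · intro l _ hl
        rw [if_neg hl, n1_zero]
      · intro h; exact absurd (Finset.mem_univ _) h
    have h4 : normSq (x ∘ Sum.inr) = n1 (x (Sum.inr ())) := by
      rw [normSq_eq]; simp
    rw [h1]
    have h2 := normSq_add_le (x ∘ Sum.inl) (fun l => if l = j then
      x (Sum.inr ()) * MonoidAlgebra.mapRingHom G (Int.castRingHom ℝ) a else 0) 1 one_pos
    rw [h3] at h2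
    rw [normSq_sum x, h4]
    linarith
  have h1 := Pr_mul k _ _ _ _ C2 (Pr_ext k p n Unit B h) hC2
  refine ⟨p ⊕ Unit, inferInstance, inferInstance, C1, _, hC1, h1, ?_⟩
  ext1 k l
  simp only [Matrix.mul_apply, Fintype.sum_sum_type, hC1l, hC1r, hC2l, hC2r, fromBlocks_apply₁₁,
    fromBlocks_apply₁₂, fromBlocks_apply₂₁, fromBlocks_apply₂₂, Matrix.zero_apply, zero_mul,
    Finset.sum_const_zero, add_zero, zero_add, Finset.univ_unique, Finset.sum_singleton,
    Matrix.one_apply_eq, one_mul, mul_ite, mul_one, mul_zero, Finset.sum_ite_eq', Finset.mem_univ,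
    if_true, ite_mul, Finset.sum_ite_eq, Matrix.add_apply, Matrix.single_apply]
  congr 1
  · simp
  · by_cases hk : k = i
    · subst hk
      by_cases hl : l = j
      · subst hl; simp
      · have hl' : ¬ j = l := fun h => hl h.symm
        simp [hl, hl']
    · have hk' : ¬ i = k := fun h => hk h.symm
      simp [hk, hk']

theorem Pr_all (A : Matrix p n (MonoidAlgebra ℤ G)) : ∃ k, Pr k p n A := by
  have key : ∀ M : Matrix p n (MonoidAlgebra ℤ G), ∀ A : Matrix p n (MonoidAlgebra ℤ G),
      (∃ k, Pr k p n A) → ∃ k, Pr k p n (A + M) := by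
    intro M
    induction M using Matrix.induction_on' with
    | h_zero => intro A h; simpa using h
    | h_add P Q hP hQ =>
      intro A h
      rw [← add_assoc]
      exact hQ _ (hP _ h)
    | h_std_basis i j a =>
      induction a using MonoidAlgebra.induction_linear with
      | zero => intro A h; simpa using h
      | add a b ha hb =>
        intro A h
        rw [Matrix.single_add, ← add_assoc]
        exact hb _ (ha _ h)
      | single g z =>
        induction z using Int.induction_on with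
        | zero => intro A h; simpa using h
        | succ z ih =>
          intro A h
          rw [MonoidAlgebra.single_add, Matrix.single_add, ← add_assoc]
          obtain ⟨k, hk⟩ := ih A h
          exact ⟨k + 2, Pr_add k _ hk i j g 1 (Or.inl rfl)⟩
        | pred z ih =>
          intro A h
          rw [sub_eq_add_neg, MonoidAlgebra.single_add, Matrix.single_add, ← add_assoc]
          obtain ⟨k, hk⟩ := ih A h
          exact ⟨k + 2, Pr_add k _ hk i j g (-1) (Or.inr rfl)⟩
  have h0 : NS (0 : Matrix p n (MonoidAlgebra ℤ G)) 2 := by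
    intro x
    rw [toReal_zero, Matrix.vecMul_zero]
    have : normSq (0 : n → MonoidAlgebra ℝ G) = 0 := by
      rw [normSq_eq]
      exact Finset.sum_eq_zero fun i _ => n1_zero
    rw [this]
    exact mul_nonneg (by norm_num) (normSq_nonneg _)
  obtain ⟨k, hk⟩ := key A 0 ⟨0, h0⟩
  exact ⟨k, by simpa using hk⟩

theorem good_all {s : ℝ} (hs : 9 / 2 < s) (A : Matrix p n (MonoidAlgebra ℤ G)) :
    Good s (3 / 2) A := by
  obtain ⟨k, hk⟩ := Pr_all A
  exact Pr_good hs k p n A hk

end add

end TH57.Thr
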