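import Pool.Agent.H57.AL.W649_ZL_Ops
import Pool.Agent.H57.AL.W649_ZL_Cone2
import Pool.Agent.H57.AL.W649_ZL_Avoid

set_option autoImplicit false
set_option linter.unusedSectionVars false

open scoped InnerProductSpace InnerProduct ENNReal

/-! Linear families with a nice subfamily. -/

namespace Pool.Agent.W649.ZL

open Module MvPolynomial

universe u v w z z'

section
variable {G : Type u} {I : Type v} {J : Type w} [Group G] [Fintype I] [Fintype J]
variable {ι : Type z} [Fintype ι]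

/-- the locus where the kernel has dimension at least `d` -/
def locus (A : ι → EE G J →L[ℂ] EE G I) (d : ℝ) : Set (ι → ℂ) :=
  {p : ι → ℂ | d ≤ vd (LinearMap.ker (lin A p : EE G J →ₗ[ℂ] EE G I))}

theorem vd_le_card (P : Submodule ℂ (EE G J)) : vd P ≤ Fintype.card J := by
  rw [← vd_top (G := G)]
  exact vd_mono le_top

theorem lin_smul (A : ι → EE G J →L[ℂ] EE G I) (t : ℂ) (p : ι → ℂ) :
    lin A (t • p) = t • lin A p := by
  unfold lin
  rw [Finset.smul_sum]
  refine Finset.sum_congr rfl fun i _ => ?_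
  rw [smul_smul]; rfl

theorem locus_cone (A : ι → EE G J →L[ℂ] EE G I) (d : ℝ) (p : ι → ℂ) (hp : p ∈ locus A d)
    (t : ℂ) : t • p ∈ locus A d := by
  have hp' : d ≤ vd (LinearMap.ker (lin A p : EE G J →ₗ[ℂ] EE G I)) := hp
  refine hp'.trans (vd_mono ?_)
  intro f hf
  have hf' : lin A p f = 0 := hf
  change lin A (t • p) f = 0
  rw [lin_smul]
  change t • lin A p f = 0
  rw [hf', smul_zero]

theorem locus_closed (A : ι → EE G J →L[ℂ] EE G I) (hA : ∀ i, Eqv (A i)) (d : ℝ) :
    zeroLocus ℂ (vanishingIdeal ℂ (locus A d)) = locus A d := zariski A hA d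

theorem vd_ker_of_injective (T : EE G J →L[ℂ] EE G I) (hT : Function.Injective T) :
    vd (LinearMap.ker (T : EE G J →ₗ[ℂ] EE G I)) = 0 := by
  have : LinearMap.ker (T : EE G J →ₗ[ℂ] EE G I) = ⊥ := by
    rw [LinearMap.ker_eq_bot]; exact hT
  rw [this, vd_bot]

/-- The dimension of an invariant subspace vanishes only if the subspace is zero. -/
theorem eq_bot_of_vd_eq_zero (P : Submodule ℂ (EE G J)) (hP : Inv P) (h : vd P ≤ 0) : P = ⊥ := by
  classical
  have h0 : vd P = 0 := le_antisymm h (vd_nonneg P)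
  have hcl := hP.topologicalClosure
  have h1 : ∀ j, P.topologicalClosure.starProjection (dl ((1 : G), j)) = 0 := by
    intro j
    unfold vd at h0
    rw [Finset.sum_eq_zero_iff_of_nonneg (fun j _ => by positivity)] at h0
    have := h0 j (Finset.mem_univ j)
    simpa using this
  rw [eq_bot_iff]
  intro f hf
  have hf' : f ∈ P.topologicalClosure := Submodule.le_topologicalClosure _ hf
  rw [Submodule.mem_bot]
  ext ⟨x, j⟩
  have e1 : dl (x, j) = tr x⁻¹ (dl ((1 : G), j)) := by rw [tr_dl]; simp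
  have h2 : P.topologicalClosure.starProjection (dl (x, j)) = 0 := by
    rw [e1, proj_tr hcl, h1, tr_zero]
  have h3 : ⟪dl (x, j), f⟫_ℂ = 0 := by
    have h4 : ⟪dl (x, j) - P.topologicalClosure.starProjection (dl (x, j)), f⟫_ℂ = 0 :=
      Submodule.starProjection_inner_eq_zero _ _ hf'
    rw [h2, sub_zero] at h4
    exact h4
  rw [inner_dl_left] at h3
  exact h3

theorem injective_of_vd_eq_zero (T : EE G J →L[ℂ] EE G I) (hT : Eqv T)
    (h : vd (LinearMap.ker (T : EE G J →ₗ[ℂ] EE G I)) ≤ 0) : Function.Injective T := by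
  have := eq_bot_of_vd_eq_zero _ (inv_ker T hT) h
  exact LinearMap.ker_eq_bot.1 this

end

section
variable {G : Type u} {I : Type v} {J : Type w} [Group G] [Fintype I] [Fintype J]
variable {X : Type z} {Y : Type z'} [Fintype X] [Fintype Y]

theorem locus_meet (A : X ⊕ Y → EE G J →L[ℂ] EE G I) (d : ℝ) (hd : 0 < d)
    (hnice : ∀ y : Y → ℂ, y ≠ 0 → Function.Injective (lin A (Sum.elim 0 y))) :
    ∀ p ∈ locus A d, (∀ x, p (Sum.inl x) = 0) → p = 0 := by
  intro p hp h0
  by_contra hne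
  have e : p = Sum.elim (0 : X → ℂ) (fun y => p (Sum.inr y)) := by
    ext i
    rcases i with x | y
    · simpa using h0 x
    · rfl
  have hy : (fun y => p (Sum.inr y)) ≠ 0 := by
    intro h
    apply hne
    rw [e, h]
    ext i
    rcases i with x | y <;> rfl
  have h1 : d ≤ vd (LinearMap.ker (lin A p : EE G J →ₗ[ℂ] EE G I)) := hp
  have h2 := vd_ker_of_injective _ (hnice _ hy)
  rw [← e] at h2
  rw [h2] at h1
  linarith

/-- (F1) -/
theorem fam_finite (A : Unit ⊕ Y → EE G J →L[ℂ] EE G I) (hA : ∀ i, Eqv (A i)) (d : ℝ) (hd : 0 < d)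
    (hnice : ∀ y : Y → ℂ, y ≠ 0 → Function.Injective (lin A (Sum.elim 0 y))) :
    {y : Y → ℂ | Sum.elim (fun _ => 1) y ∈ locus A d}.Finite :=
  section_finite (locus A d) (fun p hp t => locus_cone A d p hp t) (locus_closed A hA d)
    (locus_meet A d hd hnice)

/-- (F2) -/
theorem fam_generic (A : X ⊕ Y → EE G J →L[ℂ] EE G I) (hA : ∀ i, Eqv (A i))
    (hcard : Fintype.card X < Fintype.card Y)
    (hnice : ∀ y : Y → ℂ, y ≠ 0 → Function.Injective (lin A (Sum.elim 0 y))) :
    ∃ y : Y → ℂ, ∀ x : X → ℂ, Function.Injective (lin A (Sum.elim x y)) := by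
  have h1 : ∀ k : ℕ, ∃ Q : MvPolynomial Y ℂ, Q ≠ 0 ∧
      ∀ z ∈ locus A (1 / ((k : ℝ) + 1)), eval (fun y => z (Sum.inr y)) Q = 0 := fun k =>
    exists_relation (locus A (1 / ((k : ℝ) + 1))) (fun p hp t => locus_cone A _ p hp t)
      (locus_closed A hA _) (locus_meet A _ (by positivity) hnice) hcard
  choose Q hQ0 hQ using h1
  obtain ⟨y, hy⟩ := avoid Q hQ0
  refine ⟨y, fun x => injective_of_vd_eq_zero _ (lin_eqv A hA _) ?_⟩
  by_contra hcon
  push Not at hcon
  obtain ⟨k, hk⟩ := exists_nat_one_div_lt hcon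
  exact hy k (hQ k (Sum.elim x y) hk.le)

/-- (F3) -/
theorem fam_krull (A : X ⊕ Y → EE G J →L[ℂ] EE G I) (hA : ∀ i, Eqv (A i)) (d : ℝ) (hd : 0 < d)
    (hnice : ∀ y : Y → ℂ, y ≠ 0 → Function.Injective (lin A (Sum.elim 0 y))) :
    ringKrullDim (MvPolynomial (X ⊕ Y) ℂ ⧸ vanishingIdeal ℂ (locus A d)) ≤ (Fintype.card X : ℕ) :=
  krull_le (locus A d) (fun p hp t => locus_cone A d p hp t) (locus_closed A hA d)
    (locus_meet A d hd hnice)

end

end Pool.Agent.W649.ZL
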