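import Pool.Agent.H57.AL.W649_ZL_Twist

set_option autoImplicit false
set_option linter.unusedSectionVars false

open scoped InnerProductSpace InnerProduct ENNReal

/-! Lowest parts, and the group algebras of locally indicable subgroups. -/

namespace Pool.Agent.W649.ZL

open Module MvPolynomial

universe u

section
variable {G : Type u} [Group G]

theorem lin_Ltr_apply (T : Finset G) (a : T → ℂ) (f : EE G Unit) (x : G) :
    lin (fun t : T => Ltr (t : G)) a f (x, ()) = ∑ t : T, a t * f ((t : G)⁻¹ * x, ()) := by
  rw [lin_apply, sum_apply_EE]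
  rfl

theorem lin_Ltr_eq (α : G →₀ ℂ) (T : Finset G) (hT : α.support ⊆ T) :
    lin (fun t : T => Ltr (t : G)) (fun t : T => α t) = cop α := by
  ext f ⟨x, ⟨⟩⟩
  rw [lin_Ltr_apply, cop_apply]
  rw [Finset.sum_coe_sort T (fun t => α t * f (t⁻¹ * x, ()))]
  symm
  apply Finset.sum_subset hT
  intro t _ ht
  rw [Finsupp.notMem_support_iff.1 ht, zero_mul]

/-- The kernel dimension is at most that of the lowest part. -/
theorem lead (e : G → ℤ) (he : ∀ x y, e (x * y) = e x + e y) (α : G →₀ ℂ) (m : ℤ)
    (hm : ∀ t ∈ α.support, m ≤ e t) :
    vd (LinearMap.ker (cop α : EE G Unit →ₗ[ℂ] EE G Unit))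
      ≤ vd (LinearMap.ker (cop (α.filter (fun t => e t = m)) : EE G Unit →ₗ[ℂ] EE G Unit)) := by
  classical
  have he1 : e 1 = 0 := by
    have := he 1 1
    rw [mul_one] at this
    omega
  have heinv : ∀ x, e x⁻¹ = - e x := by
    intro x
    have := he x x⁻¹
    rw [mul_inv_cancel, he1] at this
    omega
  set T := α.support with hT
  set A : T → EE G Unit →L[ℂ] EE G Unit := fun t => Ltr (t : G) with hAdef
  have hA : ∀ i, Eqv (A i) := fun i => elem_eqv _ _ _
  set d := vd (LinearMap.ker (cop α : EE G Unit →ₗ[ℂ] EE G Unit)) with hd
  let a : ℂ → T → ℂ := fun c t => α t * c ^ (e t - m).toNat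
  have hcirc : ∀ c : ℂ, ‖c‖ = 1 → a c ∈ locus A d := by
    intro c hc
    have hc0 : c ≠ 0 := by
      intro h0; rw [h0, norm_zero] at hc; exact zero_ne_one hc
    change d ≤ vd (LinearMap.ker (lin A (a c) : EE G Unit →ₗ[ℂ] EE G Unit))
    rw [vd_twist e he c hc (cop α) (lin A (a c))]
    intro f
    have key : ∀ x, lin A (a c) (tw e c hc f) (x, ()) = c ^ (e x - m) * cop α f (x, ()) := by
      intro x
      rw [hAdef, lin_Ltr_apply, cop_apply, Finset.mul_sum,
        ← Finset.sum_coe_sort T (fun t => c ^ (e x - m) * (α t * f (t⁻¹ * x, ())))]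
      refine Finset.sum_congr rfl fun t _ => ?_
      rw [tw_apply]
      simp only [a]
      have h1 : (c : ℂ) ^ (e t - m).toNat * c ^ (e ((t : G)⁻¹ * x)) = c ^ (e x - m) := by
        rw [← zpow_natCast, Int.toNat_of_nonneg (by have := hm t t.2; omega), ← zpow_add₀ hc0,
          he, heinv]
        congr 1
        ring
      rw [← h1]
      ring
    constructor
    · intro h
      ext ⟨x, ⟨⟩⟩
      have h2 := key x
      rw [h] at h2
      have h3 : (0 : ℂ) = c ^ (e x - m) * cop α f (x, ()) := h2
      exact (mul_eq_zero.1 h3.symm).resolve_left (zpow_ne_zero _ hc0)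
    · intro h
      ext ⟨x, ⟨⟩⟩
      rw [key x, h]
      change c ^ (e x - m) * (0 : ℂ) = 0
      rw [mul_zero]
  have hzero : a 0 ∈ locus A d := by
    rw [← locus_closed A hA d]
    intro f hf
    rw [aeval_ev]
    let p : Polynomial ℂ := aeval (fun t : T => Polynomial.C (α t) * Polynomial.X ^ (e t - m).toNat) f
    have hp : ∀ c, p.eval c = eval (a c) f := by
      intro c
      simp only [p]
      rw [← Polynomial.coe_aeval_eq_eval, aeval_def, ← aeval_ev, aeval_def]
      have := MvPolynomial.hom_eval₂ f (algebraMap ℂ (Polynomial ℂ))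
        ((Polynomial.aeval c).toRingHom)
        (fun t : T => Polynomial.C (α t) * Polynomial.X ^ (e t - m).toNat)
      refine Eq.trans this ?_
      congr 1
      · ext z; simp
      · funext t
        simp [a]
    have hp0 : p = 0 := by
      apply Polynomial.eq_zero_of_infinite_isRoot
      refine circle_infinite.mono ?_
      intro c hc
      change p.eval c = 0
      rw [hp, ← aeval_ev]
      exact hf _ (hcirc c hc)
    rw [← hp, hp0, Polynomial.eval_zero]
  have hfin : lin A (a 0) = cop (α.filter (fun t => e t = m)) := by
    rw [← lin_Ltr_eq (α.filter (fun t => e t = m)) T (by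
      rw [Finsupp.support_filter]; exact Finset.filter_subset _ _)]
    congr 1
    funext t
    simp only [a]
    rw [Finsupp.filter_apply]
    by_cases h : e t = m
    · rw [if_pos h, h, sub_self]; simp
    · rw [if_neg h]
      have : (e t - m).toNat ≠ 0 := by
        have := hm t t.2
        omega
      rw [zero_pow this, mul_zero]
  have h1 : d ≤ vd (LinearMap.ker (lin A (a 0) : EE G Unit →ₗ[ℂ] EE G Unit)) := hzero
  rw [hfin] at h1
  exact h1

/-- Passing from a subgroup to the group. -/
theorem injective_of_subgroup (K : Subgroup G) (α : G →₀ ℂ) (hα : ∀ x ∈ α.support, x ∈ K)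
    (h : Function.Injective (cop (α.comapDomain (Subtype.val : K → G)
      Subtype.val_injective.injOn))) : Function.Injective (cop α) := by
  classical
  rw [injective_iff_map_eq_zero]
  intro F hF
  ext ⟨x, ⟨⟩⟩
  have hmem : Memℓp (fun k : K × Unit => F ((k.1 : G) * x, ())) 2 := by
    rw [memlp_two_iff]
    have h1 := (memlp_two_iff _).1 F.2
    exact h1.comp_injective (i := fun k : K × Unit => (((k.1 : G) * x, ()) : G × Unit)) (by
      rintro ⟨a, ⟨⟩⟩ ⟨b, ⟨⟩⟩ hab
      simp only [Prod.mk.injEq, and_true, mul_left_inj, SetLike.coe_eq_coe] at hab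
      rw [hab])
  let Fx : EE K Unit := ⟨fun k => F ((k.1 : G) * x, ()), hmem⟩
  have h0 : cop (α.comapDomain (Subtype.val : K → G) Subtype.val_injective.injOn) Fx = 0 := by
    ext ⟨k, ⟨⟩⟩
    rw [cop_apply]
    have h2 := cop_apply α F ((k : G) * x)
    rw [hF] at h2
    have h3 : (0 : ℂ) = ∑ t ∈ α.support, α t * F (t⁻¹ * ((k : G) * x), ()) := h2
    change _ = (0 : ℂ)
    rw [h3]
    rw [Finsupp.comapDomain_support]
    refine Finset.sum_bij (fun t _ => (t : G)) ?_ ?_ ?_ ?_
    · intro t ht
      exact (Finset.mem_preimage.1 ht)
    · intro a _ b _ hab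
      exact Subtype.ext hab
    · intro b hb
      exact ⟨⟨b, hα b hb⟩, Finset.mem_preimage.2 hb, rfl⟩
    · intro t _
      rw [Finsupp.comapDomain_apply]
      change α t * F ((((t : K)⁻¹ * k : K) : G) * x, ()) = _
      rw [Subgroup.coe_mul, Subgroup.coe_inv, mul_assoc]
  have h1 : Fx = 0 := h (by rw [h0, map_zero])
  have h2 := congrArg (fun H : EE K Unit => H (1, ())) h1
  have h3 : F (((1 : K) : G) * x, ()) = 0 := h2
  rw [Subgroup.coe_one, one_mul] at h3
  exact h3

/-- left translate of an element of the group algebra -/
theorem cop_mapDomain (t : G) (α : G →₀ ℂ) :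
    cop (α.mapDomain (fun x => t * x)) = (Ltr t).comp (cop α) := by
  induction α using Finsupp.induction_linear with
  | zero => rw [Finsupp.mapDomain_zero, map_zero, ContinuousLinearMap.comp_zero]
  | add a b ha hb => rw [Finsupp.mapDomain_add, map_add, ha, hb, map_add,
      ContinuousLinearMap.comp_add]
  | single x c =>
    rw [Finsupp.mapDomain_single, cop_single, cop_single, Ltr_mul, ContinuousLinearMap.comp_smul]

end

/-- A group is locally indicable if every nontrivial finitely generated subgroup has a nontrivial
homomorphism to the integers. -/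
def LI (G : Type u) [Group G] : Prop :=
  ∀ K : Subgroup G, K.FG → K ≠ ⊥ → ∃ φ : K →* Multiplicative ℤ, ∃ k, φ k ≠ 1

theorem LI.subgroup {G : Type u} [Group G] (h : LI G) (K : Subgroup G) : LI K := by
  intro L hL hLne
  have h1 : (L.map K.subtype).FG := by
    classical
    obtain ⟨S, hS⟩ := hL
    exact ⟨S.image K.subtype, by rw [Finset.coe_image, ← MonoidHom.map_closure, hS]⟩
  have h2 : L.map K.subtype ≠ ⊥ := by
    intro h0
    apply hLne
    rw [Subgroup.map_eq_bot_iff, Subgroup.ker_subtype] at h0
    exact le_bot_iff.1 h0
  obtain ⟨φ, k, hk⟩ := h _ h1 h2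
  let e := L.equivMapOfInjective K.subtype K.subtype_injective
  refine ⟨φ.comp e.toMonoidHom, e.symm k, ?_⟩
  have : (φ.comp e.toMonoidHom) (e.symm k) = φ k := by
    change φ (e (e.symm k)) = φ k
    rw [MulEquiv.apply_symm_apply]
  rw [this]; exact hk

/-- Nonzero elements of the group algebra of a locally indicable group act injectively. -/
theorem LI_injective : ∀ (n : ℕ) (G : Type u) [Group G], LI G → ∀ α : G →₀ ℂ,
    α.support.card = n → α ≠ 0 → Function.Injective (cop α) := by
  intro n
  induction n using Nat.strong_induction_on with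
  | _ n ih =>
    intro G _ hLI α hcard hα
    classical
    obtain ⟨t0, ht0⟩ := Finsupp.support_nonempty_iff.2 hα
    by_cases hone : α.support.card = 1
    · -- a single term
      obtain ⟨t, ht⟩ := Finset.card_eq_one.1 hone
      have h1 : α = Finsupp.single t (α t) := by
        ext x
        by_cases hx : x = t
        · subst hx; simp
        · rw [Finsupp.single_apply, if_neg (Ne.symm hx)]
          by_contra hne
          have : x ∈ α.support := Finsupp.mem_support_iff.2 hne
          rw [ht, Finset.mem_singleton] at this
          exact hx this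
      have h2 : α t ≠ 0 := by
        have : t ∈ α.support := by rw [ht]; exact Finset.mem_singleton_self t
        exact Finsupp.mem_support_iff.1 this
      rw [h1, cop_single]
      intro f g hfg
      apply Ltr_injective t
      exact smul_right_injective _ h2 hfg
    · -- translate so that `1` is in the support
      let α' : G →₀ ℂ := α.mapDomain (fun x => t0⁻¹ * x)
      have hinjm : Function.Injective (fun x : G => t0⁻¹ * x) := mul_right_injective t0⁻¹
      have hsupp' : α'.support = α.support.image (fun x => t0⁻¹ * x) :=
        Finsupp.mapDomain_support_of_injective hinjm α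
      have h1mem : (1 : G) ∈ α'.support := by
        rw [hsupp', Finset.mem_image]
        exact ⟨t0, ht0, inv_mul_cancel t0⟩
      have hcard' : α'.support.card = n := by
        rw [hsupp', Finset.card_image_of_injective _ hinjm, hcard]
      suffices h : Function.Injective (cop α') by
        have h2 := cop_mapDomain t0⁻¹ α
        rw [h2] at h
        exact Function.Injective.of_comp (f := Ltr t0⁻¹) h
      let K : Subgroup G := Subgroup.closure (α'.support : Set G)
      have hKsupp : ∀ x ∈ α'.support, x ∈ K := fun x hx => Subgroup.subset_closure hx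
      have hKfg : K.FG := ⟨α'.support, rfl⟩
      have hKne : K ≠ ⊥ := by
        intro hbot
        have h2 : α'.support ⊆ {1} := by
          intro x hx
          have := hKsupp x hx
          rw [hbot, Subgroup.mem_bot] at this
          rw [this]; exact Finset.mem_singleton_self 1
        have h3 := Finset.card_le_card h2
        rw [Finset.card_singleton] at h3
        have h4 : 0 < α'.support.card := Finset.card_pos.2 ⟨1, h1mem⟩
        rw [hcard] at hone
        omega
      obtain ⟨φ, k0, hk0⟩ := hLI K hKfg hKne
      apply injective_of_subgroup K α' hKsupp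
      set β : K →₀ ℂ := α'.comapDomain (Subtype.val : K → G) Subtype.val_injective.injOn with hβ
      have hβsupp : ∀ k : K, k ∈ β.support ↔ (k : G) ∈ α'.support := by
        intro k
        rw [hβ, Finsupp.comapDomain_support, Finset.mem_preimage]
      have h1β : (1 : K) ∈ β.support := (hβsupp 1).2 h1mem
      have hβcard : β.support.card = n := by
        rw [← hcard', hβ, Finsupp.comapDomain_support]
        rw [Finset.card_preimage]
        congr 1
        ext x
        simp only [Finset.mem_filter, and_iff_left_iff_imp]
        intro hx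
        exact ⟨⟨x, hKsupp x hx⟩, rfl⟩
      let e : K → ℤ := fun k => Multiplicative.toAdd (φ k)
      have he : ∀ x y, e (x * y) = e x + e y := by
        intro x y
        simp only [e]
        rw [map_mul, toAdd_mul]
      obtain ⟨t1, ht1, hmin⟩ := Finset.exists_min_image β.support e ⟨1, h1β⟩
      set m := e t1 with hm
      have hlead := lead e he β m hmin
      set γ := β.filter (fun t => e t = m) with hγ
      have hγne : γ ≠ 0 := by
        intro h0
        have h2 : γ t1 = β t1 := Finsupp.filter_apply_pos _ _ rfl
        rw [h0] at h2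
        exact (Finsupp.mem_support_iff.1 ht1) h2.symm
      have hγcard : γ.support.card < n := by
        rw [← hβcard]
        apply Finset.card_lt_card
        rw [hγ, Finsupp.support_filter, Finset.ssubset_iff_subset_ne]
        refine ⟨Finset.filter_subset _ _, fun heq => ?_⟩
        -- then `φ` would be trivial
        have hall : ∀ k ∈ β.support, e k = m := by
          intro k hk
          rw [← heq, Finset.mem_filter] at hk
          exact hk.2
        have he1 : e 1 = 0 := by
          have := he 1 1
          rw [mul_one] at this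
          omega
        have hm0 : m = 0 := by rw [← hall 1 h1β, he1]
        have hker : K ≤ (φ.ker).map K.subtype := by
          rw [Subgroup.closure_le]
          intro x hx
          refine ⟨⟨x, hKsupp x hx⟩, ?_, rfl⟩
          have h2 := hall ⟨x, hKsupp x hx⟩ ((hβsupp _).2 hx)
          rw [hm0] at h2
          change φ _ = 1
          exact Multiplicative.toAdd.injective h2
        obtain ⟨k1, hk1, hk2⟩ := hker k0.2
        apply hk0
        have : k1 = k0 := Subtype.ext hk2
        rw [← this]
        exact hk1
      have hinjγ := ih _ hγcard K (hLI.subgroup K) γ rfl hγne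
      have hz := vd_ker_of_injective _ hinjγ
      rw [hz] at hlead
      exact injective_of_vd_eq_zero _ (cop_eqv β) hlead

/-- Nonzero elements of `ℂG` supported on a locally indicable subgroup act injectively. -/
theorem LI_subgroup_injective {G : Type u} [Group G] (H : Subgroup G) (hH : LI H) (α : G →₀ ℂ)
    (hs : ∀ x ∈ α.support, x ∈ H) (hα : α ≠ 0) : Function.Injective (cop α) := by
  classical
  apply injective_of_subgroup H α hs
  apply LI_injective _ H hH _ rfl
  intro h0
  apply hα
  ext x
  by_cases hx : x ∈ α.support
  · have h1 := congrArg (fun F : H →₀ ℂ => F ⟨x, hs x hx⟩) h0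
    exact h1
  · exact Finsupp.notMem_support_iff.1 hx

end Pool.Agent.W649.ZL
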