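import Pool.Agent.H57.AL.W649_ZL_Acc

set_option autoImplicit false
set_option linter.unusedSectionVars false

open scoped InnerProductSpace InnerProduct ENNReal

/-! Right multiplication by matrices over the group algebra on row vectors over `ℓ²(G)`. -/

namespace Pool.Agent.W649.ZL

open Module MvPolynomial

universe u v w z

section
variable {G : Type u} {K : Type v} {L : Type w} {ι : Type z} [Group G] [Fintype K] [Fintype L]
  [DecidableEq K] [DecidableEq L] [Fintype ι]

/-- all square-summable row vectors `x` with `x A = 0` -/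
def kernM (A : K → L → (G →₀ ℂ)) : Set (lp (fun _ : K × G => ℂ) 2) :=
  {x | ∀ (j : L) (g : G), ∑ k : K, ∑ h ∈ (A k j).support, x (k, g * h⁻¹) * A k j h = 0}

/-- the matrix with the coefficient `a i` at the place `(k i, j i)` and the group element `h i` -/
noncomputable def matM (h : ι → G) (k : ι → K) (j : ι → L) (a : ι → ℂ) : K → L → (G →₀ ℂ) :=
  fun k' j' => ∑ i, if k i = k' ∧ j i = j' then Finsupp.single (h i) (a i) else 0

/-- the corresponding family of operators -/
noncomputable def famR (h : ι → G) (k : ι → K) (j : ι → L) : ι → EE G K →L[ℂ] EE G L :=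
  fun i => elem (h i)⁻¹ (j i) (k i)

theorem famR_eqv (h : ι → G) (k : ι → K) (j : ι → L) : ∀ i, Eqv (famR h k j i) :=
  fun _ => elem_eqv _ _ _

/-- flipping the factors and inverting -/
def flE (G : Type u) (K : Type v) [Group G] : G × K ≃ K × G where
  toFun y := (y.2, y.1⁻¹)
  invFun z := (z.2⁻¹, z.1)
  left_inv y := by simp
  right_inv z := by simp

theorem memlp_inv (x : lp (fun _ : K × G => ℂ) 2) : Memℓp (fun y : G × K => x (y.2, y.1⁻¹)) 2 := by
  rw [memlp_two_iff]
  have h := (memlp_two_iff _).1 x.2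
  exact (Equiv.summable_iff (flE G K)).2 h

/-- `ℓ²(K × G) → ℓ²(G × K)`, composed with inversion -/
noncomputable def flp (x : lp (fun _ : K × G => ℂ) 2) : EE G K :=
  ⟨fun y => x (y.2, y.1⁻¹), memlp_inv x⟩

theorem flp_apply (x : lp (fun _ : K × G => ℂ) 2) (g : G) (k : K) : flp x (g, k) = x (k, g⁻¹) := rfl

theorem isometry_flp : Isometry (flp : lp (fun _ : K × G => ℂ) 2 → EE G K) := by
  apply Isometry.of_dist_eq
  intro f g
  rw [dist_eq_norm, dist_eq_norm]
  have e1 : flp f - flp g = flp (f - g) := by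
    ext x; rfl
  rw [e1]
  have e2 : ‖flp (f - g)‖ ^ 2 = ‖f - g‖ ^ 2 := by
    rw [norm_sq_tsum, norm_sq_tsum]
    exact (flE G K).tsum_eq (fun x => ‖(f - g) x‖ ^ 2)
  exact (sq_eq_sq₀ (norm_nonneg _) (norm_nonneg _)).1 e2

theorem flp_surj (F : EE G K) : ∃ x : lp (fun _ : K × G => ℂ) 2, flp x = F := by
  have hmem : Memℓp (fun y : K × G => F (y.2⁻¹, y.1)) 2 := by
    rw [memlp_two_iff]
    have h := (memlp_two_iff _).1 F.2
    exact (Equiv.summable_iff (flE G K).symm).2 h
  refine ⟨⟨fun y => F (y.2⁻¹, y.1), hmem⟩, ?_⟩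
  ext ⟨g, k⟩
  change F (g⁻¹⁻¹, k) = F (g, k)
  rw [inv_inv]

theorem lin_famR_apply (h : ι → G) (k : ι → K) (j : ι → L) (a : ι → ℂ) (F : EE G K) (u : G)
    (j' : L) :
    lin (famR h k j) a F (u, j') = ∑ i, a i * (if j' = j i then F (h i * u, k i) else 0) := by
  rw [lin_apply, sum_apply_EE]
  refine Finset.sum_congr rfl fun i _ => ?_
  change a i * (if j' = j i then F ((h i)⁻¹⁻¹ * u, k i) else 0) = _
  rw [inv_inv]

theorem sum_matM (h : ι → G) (k : ι → K) (j : ι → L) (a : ι → ℂ)
    (x : lp (fun _ : K × G => ℂ) 2) (g : G) (j' : L) :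
    ∑ k' : K, ∑ y ∈ (matM h k j a k' j').support, x (k', g * y⁻¹) * matM h k j a k' j' y
      = ∑ i, a i * (if j' = j i then x (k i, g * (h i)⁻¹) else 0) := by
  have h1 : ∀ k' : K, ∑ y ∈ (matM h k j a k' j').support, x (k', g * y⁻¹) * matM h k j a k' j' y
      = ∑ i, if k i = k' ∧ j i = j' then x (k', g * (h i)⁻¹) * a i else 0 := by
    intro k'
    change (matM h k j a k' j').sum (fun y c => x (k', g * y⁻¹) * c) = _
    unfold matM
    rw [← Finsupp.sum_finsetSum_index (by intro y; rw [mul_zero]) (by intro y b c; rw [mul_add])]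
    refine Finset.sum_congr rfl fun i _ => ?_
    split_ifs with hi
    · rw [Finsupp.sum_single_index (by rw [mul_zero])]
    · rw [Finsupp.sum_zero_index]
  rw [Finset.sum_congr rfl fun k' _ => h1 k', Finset.sum_comm]
  refine Finset.sum_congr rfl fun i _ => ?_
  rw [Finset.sum_eq_single (k i)]
  · by_cases hj : j' = j i
    · rw [if_pos ⟨rfl, hj.symm⟩, if_pos hj, mul_comm]
    · rw [if_neg (fun hh => hj hh.2.symm), if_neg hj, mul_zero]
  · intro k' _ hk'
    rw [if_neg (fun hh => hk' hh.1.symm)]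
  · intro hh; exact absurd (Finset.mem_univ _) hh

theorem flp_image (h : ι → G) (k : ι → K) (j : ι → L) (a : ι → ℂ) :
    flp '' kernM (matM h k j a)
      = (LinearMap.ker (lin (famR h k j) a : EE G K →ₗ[ℂ] EE G L) : Set (EE G K)) := by
  have key : ∀ (x : lp (fun _ : K × G => ℂ) 2) (g : G) (j' : L),
      lin (famR h k j) a (flp x) (g⁻¹, j')
        = ∑ k' : K, ∑ y ∈ (matM h k j a k' j').support,
          x (k', g * y⁻¹) * matM h k j a k' j' y := by
    intro x g j'
    rw [sum_matM, lin_famR_apply]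
    refine Finset.sum_congr rfl fun i _ => ?_
    congr 1
    split_ifs
    · rw [flp_apply, mul_inv_rev, inv_inv]
    · rfl
  ext F
  constructor
  · rintro ⟨x, hx, rfl⟩
    change lin (famR h k j) a (flp x) = 0
    ext ⟨u, j'⟩
    have := key x u⁻¹ j'
    rw [inv_inv] at this
    rw [this]
    exact hx j' u⁻¹
  · intro hF
    obtain ⟨x, rfl⟩ := flp_surj F
    refine ⟨x, fun j' g => ?_, rfl⟩
    have hF' : lin (famR h k j) a (flp x) = 0 := hF
    rw [← key, hF']
    rfl

open Classical in
/-- the concrete kernel dimension of a matrix -/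
noncomputable def kerDimM (A : K → L → (G →₀ ℂ)) : ℝ :=
  ∑ i : K, (1 - Metric.infDist
    (lp.single (E := fun _ : K × G => ℂ) 2 (i, (1 : G)) (1 : ℂ)) (kernM A) ^ 2)

open Classical in
theorem flp_single (i : K) :
    flp (lp.single (E := fun _ : K × G => ℂ) 2 (i, (1 : G)) (1 : ℂ)) = (dl ((1 : G), i) : EE G K) := by
  ext ⟨x, k⟩
  rw [flp_apply]
  by_cases hx : (x, k) = (1, i)
  · obtain ⟨rfl, rfl⟩ := Prod.mk.inj hx
    rw [dl_apply_self, inv_one]
    exact lp.single_apply_self (E := fun _ : K × G => ℂ) 2 (k, (1 : G)) (1 : ℂ)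
  · rw [dl_apply_ne _ _ hx]
    apply lp.single_apply_ne (E := fun _ : K × G => ℂ) 2 (i, (1 : G)) (1 : ℂ)
    intro h
    obtain ⟨h1, h2⟩ := Prod.mk.inj h
    apply hx
    rw [← h1, inv_eq_one.1 h2]

theorem kerDimM_eq (h : ι → G) (k : ι → K) (j : ι → L) (a : ι → ℂ) :
    kerDimM (matM h k j a) = kd (famR h k j) a := by
  unfold kerDimM kd
  rw [vd_eq_infDist _ (ContinuousLinearMap.isClosed_ker (lin (famR h k j) a))]
  refine Finset.sum_congr rfl fun i _ => ?_
  rw [← flp_image, ← flp_single, Metric.infDist_image isometry_flp]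

/-! matrices with entries supported in a fixed finite set -/

/-- the coefficients of a matrix with entries supported in `T` -/
def coefT (T : Finset G) (A : K → L → (G →₀ ℂ)) : (T × K × L) → ℂ := fun i => A i.2.1 i.2.2 i.1

theorem matM_coefT (T : Finset G) (A : K → L → (G →₀ ℂ)) (hT : ∀ k j, (A k j).support ⊆ T) :
    matM (fun i : T × K × L => (i.1 : G)) (fun i => i.2.1) (fun i => i.2.2) (coefT T A) = A := by
  classical
  funext k j
  unfold matM coefT
  rw [Fintype.sum_prod_type]
  have h1 : ∀ t : T, ∑ y : K × L, (if y.1 = k ∧ y.2 = j then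
      Finsupp.single (t : G) (A y.1 y.2 t) else 0) = Finsupp.single (t : G) (A k j t) := by
    intro t
    rw [Finset.sum_eq_single (k, j)]
    · rw [if_pos ⟨rfl, rfl⟩]
    · intro y _ hy
      rw [if_neg]
      rintro ⟨h1, h2⟩
      exact hy (Prod.ext h1 h2)
    · intro h; exact absurd (Finset.mem_univ _) h
  refine Eq.trans (Finset.sum_congr rfl fun t _ => h1 t) ?_
  ext g
  rw [Finsupp.finsetSum_apply]
  by_cases hg : g ∈ T
  · rw [Finset.sum_eq_single ⟨g, hg⟩]
    · simp
    · intro b _ hb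
      rw [Finsupp.single_apply, if_neg]
      intro h; exact hb (Subtype.ext h)
    · intro h; exact absurd (Finset.mem_univ _) h
  · rw [Finset.sum_eq_zero]
    · symm
      by_contra hne
      exact hg (hT k j (Finsupp.mem_support_iff.2 hne))
    · intro b _
      rw [Finsupp.single_apply, if_neg]
      intro h; exact hg (by rw [← h]; exact b.2)

end

end Pool.Agent.W649.ZL
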