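import Pool.Agent.H57.AL.W649_ZL_Lead

set_option autoImplicit false
set_option linter.unusedSectionVars false

open scoped InnerProductSpace InnerProduct ENNReal

/-! Elements with support in a given finite set, and translates of locally indicable subgroups. -/

namespace Pool.Agent.W649.ZL

open Module MvPolynomial

universe u z

section
variable {G : Type u} [Group G]

theorem LI_coset_injective (t : G) (H : Subgroup G) (hH : LI H) (α : G →₀ ℂ)
    (hs : ∀ x ∈ α.support, t⁻¹ * x ∈ H) (hα : α ≠ 0) : Function.Injective (cop α) := by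
  classical
  have hinjm : Function.Injective (fun x : G => t⁻¹ * x) := mul_right_injective t⁻¹
  have h1 : Function.Injective (cop (α.mapDomain (fun x => t⁻¹ * x))) := by
    apply LI_subgroup_injective H hH
    · intro x hx
      rw [Finsupp.mapDomain_support_of_injective hinjm, Finset.mem_image] at hx
      obtain ⟨y, hy, rfl⟩ := hx
      exact hs y hy
    · intro h0
      apply hα
      apply Finsupp.mapDomain_injective hinjm
      rw [h0, Finsupp.mapDomain_zero]
  rw [cop_mapDomain] at h1
  exact Function.Injective.of_comp (f := Ltr t⁻¹) h1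

/-- the element with coefficients `y` on the finite set `F` -/
noncomputable def ofF (F : Finset G) (y : F → ℂ) : G →₀ ℂ := ∑ x : F, Finsupp.single (x : G) (y x)

theorem ofF_apply (F : Finset G) (y : F → ℂ) (x : F) : ofF F y x = y x := by
  classical
  unfold ofF
  rw [Finsupp.finsetSum_apply, Finset.sum_eq_single x]
  · simp
  · intro b _ hb
    rw [Finsupp.single_apply, if_neg]
    intro h
    exact hb (Subtype.ext h)
  · intro h; exact absurd (Finset.mem_univ x) h

theorem ofF_support (F : Finset G) (y : F → ℂ) : (ofF F y).support ⊆ F := by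
  classical
  intro x hx
  by_contra hne
  apply Finsupp.mem_support_iff.1 hx
  unfold ofF
  rw [Finsupp.finsetSum_apply]
  apply Finset.sum_eq_zero
  intro b _
  rw [Finsupp.single_apply, if_neg]
  intro h
  apply hne
  rw [← h]
  exact b.2

theorem ofF_eq (F : Finset G) (α : G →₀ ℂ) (h : α.support ⊆ F) :
    ofF F (fun x : F => α x) = α := by
  ext x
  by_cases hx : x ∈ F
  · exact ofF_apply F _ ⟨x, hx⟩
  · have h1 : α x = 0 := by
      by_contra hne
      exact hx (h (Finsupp.mem_support_iff.2 hne))
    have h2 : ofF F (fun x : F => α x) x = 0 := by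
      by_contra hne
      exact hx (ofF_support F _ (Finsupp.mem_support_iff.2 hne))
    rw [h1, h2]

theorem cop_ofF (F : Finset G) (y : F → ℂ) : cop (ofF F y) = ∑ x : F, y x • Ltr (x : G) := by
  unfold ofF
  rw [map_sum]
  refine Finset.sum_congr rfl fun x _ => ?_
  rw [cop_single]

theorem ofF_ne_zero (F : Finset G) (y : F → ℂ) (hy : y ≠ 0) : ofF F y ≠ 0 := by
  intro h
  apply hy
  funext x
  rw [← ofF_apply F y x, h]
  rfl

theorem ofF_injective_of_LI (F : Finset G) (t : G) (H : Subgroup G) (hH : LI H)
    (hF : ∀ x ∈ F, t⁻¹ * x ∈ H) (y : F → ℂ) (hy : y ≠ 0) : Function.Injective (cop (ofF F y)) :=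
  LI_coset_injective t H hH _ (fun x hx => hF x (ofF_support F y hx)) (ofF_ne_zero F y hy)

variable {X : Type z} [Fintype X]

/-- the family with parameters in `X` and coefficients on `F` -/
noncomputable def fam (b : X → (G →₀ ℂ)) (F : Finset G) : X ⊕ F → EE G Unit →L[ℂ] EE G Unit :=
  Sum.elim (fun x => cop (b x)) (fun x => Ltr (x : G))

theorem fam_eqv (b : X → (G →₀ ℂ)) (F : Finset G) : ∀ i, Eqv (fam b F i) := by
  intro i
  rcases i with x | x
  · exact cop_eqv _
  · exact elem_eqv _ _ _

theorem lin_fam (b : X → (G →₀ ℂ)) (F : Finset G) (c : X → ℂ) (y : F → ℂ) :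
    lin (fam b F) (Sum.elim c y) = cop (∑ i, c i • b i + ofF F y) := by
  unfold lin
  rw [Fintype.sum_sum_type, map_add, map_sum, cop_ofF]
  congr 1
  refine Finset.sum_congr rfl fun i _ => ?_
  rw [map_smul]
  rfl

theorem fam_nice (b : X → (G →₀ ℂ)) (F : Finset G) (t : G) (H : Subgroup G) (hH : LI H)
    (hF : ∀ x ∈ F, t⁻¹ * x ∈ H) (y : F → ℂ) (hy : y ≠ 0) :
    Function.Injective (lin (fam b F) (Sum.elim 0 y)) := by
  rw [lin_fam]
  have : (∑ i, (0 : X → ℂ) i • b i + ofF F y) = ofF F y := by simp
  rw [this]
  exact ofF_injective_of_LI F t H hH hF y hy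

end

end Pool.Agent.W649.ZL
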